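import Pool.Agent.Confl.W.Thick

/-!
# Paths in common neighbourhoods and the edges in no `K₄`
-/

set_option autoImplicit false

namespace Pool.Agent.Confl

variable {V : Type}

/-- In the common neighbourhood of two nonadjacent vertices every path on four vertices has a chord
joining two vertices at distance two: there is no induced join of two isolated vertices with a path
or a cycle on four vertices. -/
def PathFree (G : SimpleGraph V) : Prop :=
  ∀ p q a b c d, p ≠ q → ¬ G.Adj p q → a ≠ c → a ≠ d → b ≠ d →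
    G.Adj p a → G.Adj p b → G.Adj p c → G.Adj p d → G.Adj q a → G.Adj q b → G.Adj q c →
    G.Adj q d → G.Adj a b → G.Adj b c → G.Adj c d → G.Adj a c ∨ G.Adj b d

theorem thin_path {G : SimpleGraph V} (hT : Tight G) (hP : PathFree G) {p q a b c d : V}
    (hpq : p ≠ q) (hac : a ≠ c) (had : a ≠ d) (hbd : b ≠ d)
    (pa : G.Adj p a) (pb : G.Adj p b) (pc : G.Adj p c) (pd : G.Adj p d)
    (qa : G.Adj q a) (qb : G.Adj q b) (qc : G.Adj q c) (qd : G.Adj q d)
    (ab : G.Adj a b) (bc : G.Adj b c) (cd : G.Adj c d) :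
    Thick G p a ∧ Thick G p b ∧ Thick G a b ∧ Thick G b c := by
  by_cases h : G.Adj p q
  · exact ⟨⟨q, b, pa, h, pb, qa.symm, ab, qb⟩, ⟨q, a, pb, h, pa, qb.symm, ab.symm, qa⟩,
      ⟨p, q, ab, pa.symm, qa.symm, pb.symm, qb.symm, h⟩,
      ⟨p, q, bc, pb.symm, qb.symm, pc.symm, qc.symm, h⟩⟩
  · have key : G.Adj a c → Thick G p a ∧ Thick G p b ∧ Thick G a b ∧ Thick G b c := fun e =>
      ⟨⟨b, c, pa, pb, pc, ab, e, bc⟩, ⟨a, c, pb, pa, pc, ab.symm, bc, e⟩,
        ⟨p, c, ab, pa.symm, e, pb.symm, bc, pc⟩, ⟨p, a, bc, pb.symm, ab.symm, pc.symm, e.symm, pa⟩⟩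
    rcases hP p q a b c d hpq h hac had hbd pa pb pc pd qa qb qc qd ab bc cd with e | e
    · exact key e
    · exact key ((hT p b c d a ⟨pb, pc, pd, bc, e, cd⟩ pa.symm ab).resolve_left hac)

/-- The edge `ab` is in no `K₄`. -/
def ThinE (G : SimpleGraph V) (a b : V) : Prop := G.Adj a b ∧ ¬ Thick G a b

theorem thin_p1 {G : SimpleGraph V} (hT : Tight G) (hP : PathFree G) : ∀ p q a b c d,
    ThinE G p a → G.Adj p a → G.Adj p b → G.Adj p c → G.Adj p d → G.Adj q a → G.Adj q b →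
    G.Adj q c → G.Adj q d → G.Adj a b → G.Adj b c → G.Adj c d → p ≠ q → a ≠ c → a ≠ d → b ≠ d →
    False :=
  fun _ _ _ _ _ _ t pa pb pc pd qa qb qc qd ab bc cd h1 h2 h3 h4 =>
    t.2 (thin_path hT hP h1 h2 h3 h4 pa pb pc pd qa qb qc qd ab bc cd).1

theorem thin_p2 {G : SimpleGraph V} (hT : Tight G) (hP : PathFree G) : ∀ p q a b c d,
    ThinE G p b → G.Adj p a → G.Adj p b → G.Adj p c → G.Adj p d → G.Adj q a → G.Adj q b →
    G.Adj q c → G.Adj q d → G.Adj a b → G.Adj b c → G.Adj c d → p ≠ q → a ≠ c → a ≠ d → b ≠ d →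
    False :=
  fun _ _ _ _ _ _ t pa pb pc pd qa qb qc qd ab bc cd h1 h2 h3 h4 =>
    t.2 (thin_path hT hP h1 h2 h3 h4 pa pb pc pd qa qb qc qd ab bc cd).2.1

theorem thin_p3 {G : SimpleGraph V} (hT : Tight G) (hP : PathFree G) : ∀ p q a b c d,
    ThinE G a b → G.Adj p a → G.Adj p b → G.Adj p c → G.Adj p d → G.Adj q a → G.Adj q b →
    G.Adj q c → G.Adj q d → G.Adj a b → G.Adj b c → G.Adj c d → p ≠ q → a ≠ c → a ≠ d → b ≠ d →
    False :=
  fun _ _ _ _ _ _ t pa pb pc pd qa qb qc qd ab bc cd h1 h2 h3 h4 =>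
    t.2 (thin_path hT hP h1 h2 h3 h4 pa pb pc pd qa qb qc qd ab bc cd).2.2.1

theorem thin_p4 {G : SimpleGraph V} (hT : Tight G) (hP : PathFree G) : ∀ p q a b c d,
    ThinE G b c → G.Adj p a → G.Adj p b → G.Adj p c → G.Adj p d → G.Adj q a → G.Adj q b →
    G.Adj q c → G.Adj q d → G.Adj a b → G.Adj b c → G.Adj c d → p ≠ q → a ≠ c → a ≠ d → b ≠ d →
    False :=
  fun _ _ _ _ _ _ t pa pb pc pd qa qb qc qd ab bc cd h1 h2 h3 h4 =>
    t.2 (thin_path hT hP h1 h2 h3 h4 pa pb pc pd qa qb qc qd ab bc cd).2.2.2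

theorem thin_cross' {G : SimpleGraph V} {x : V → ℝ} (hx : Function.Injective x) (hT : Tight G)
    (hlc : LC G x) : ∀ a b c d, G.Adj a b → ThinE G c d → Alt x a b c d → ThinE G a b :=
  fun _ _ _ _ hab hcd halt => ⟨hab, thin_cross hx hT hlc hcd.2 hcd.1 (alt_comm hx halt)⟩

theorem thin_k4 {G : SimpleGraph V} : ∀ a b c d, ThinE G a b → G.Adj a c → G.Adj a d →
    G.Adj b c → G.Adj b d → G.Adj c d → False :=
  fun _ _ c d hab h1 h2 h3 h4 h5 => hab.2 ⟨c, d, hab.1, h1, h2, h3, h4, h5⟩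

end Pool.Agent.Confl
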