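import Pool.Agent.Confl.T.StepP
import Pool.Agent.Confl.T.SoundGen

/-!
# Smooth paths of the chord drawing give edges, for tame graphs
-/

set_option autoImplicit false

namespace Pool.Agent.Confl

variable {V : Type} {G : SimpleGraph V} {x : V → ℝ}

theorem J_mono {u g h : V} {s s' : ℝ} (hJ : J G x u g h s)
    (hs : 0 < (s' - s) * (x h - x g)) : J G x u g h s' := by
  refine ⟨hJ.1, ?_⟩
  intro a b hab halt hgb hah hpos
  refine hJ.2 a b hab halt hgb hah ?_
  have e1 : (X x g h a b - s) * (x h - x g) =
      (X x g h a b - s') * (x h - x g) + (s' - s) * (x h - x g) := by ring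
  rw [e1]
  exact add_pos hpos hs

/-- The invariant: a path of edges in one clique, or a path of edges in no `K₄`. -/
theorem invariantP (hx : Function.Injective x) (hg : Generic x) (hT : Tight G)
    (hP : PathFree G) (hlc : LC G x) (u : V) :
    Invariant G x u (fun g h s => TI G u g h ∨ (¬ Thick G g h ∧ J G x u g h s)) where
  base := fun b s hub => by
    by_cases hth : Thick G u b
    · exact Or.inl ⟨hth, Or.inl rfl, Or.inr hub⟩
    · exact Or.inr ⟨hth, J_baseT hx hT hP hlc hub hth s⟩
  mono := fun g h s s' hI hs => by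
    rcases hI with h1 | ⟨h1, h2⟩
    · exact Or.inl h1
    · exact Or.inr ⟨h1, J_mono h2 hs⟩
  step := fun g h a b s hgh hI hab halt hgb hah hs => by
    rcases hI with h1 | ⟨h1, h2⟩
    · exact Or.inl (TI_step hx hT hlc h1 hab halt)
    · exact Or.inr ⟨thin_cross hx hT hlc h1 hgh halt,
        J_stepT hx hg hT hP hlc hgh h1 h2 hab halt hgb hah hs⟩
  fin := fun g h s hI => by
    rcases hI with h1 | ⟨_, h2⟩
    · exact h1.2.2
    · exact h2.1

end Pool.Agent.Confl
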