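import Pool.Agent.Confl.Main
import Pool.Agent.Confl.T.SoundP
import Pool.Agent.Confl.W.CompleteW

/-!
# Outerconfluent drawings of tame graphs
-/

set_option autoImplicit false

open Filter Topology Set

namespace Pool.Agent.Confl

variable {V : Type}

/-- Every vertex adjacent to two vertices of a `K₄` is one of its vertices or adjacent to all of
them, and the common neighbourhood of two nonadjacent vertices contains no induced path or cycle on
four vertices. -/
def Tame (G : SimpleGraph V) : Prop := Tight G ∧ PathFree G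

theorem outerconfluentAt_of_lcP [Finite V] (G : SimpleGraph V) (x : V → ℝ)
    (hx : Function.Injective x) (h3 : Tame G) (h : LC G x) : OuterconfluentAt G x := by
  obtain ⟨y, hxy, hg⟩ := exists_generic x hx
  have hy : Function.Injective y := by
    intro u v huv
    by_contra hne
    rcases lt_or_gt_of_ne (fun h => hne (hx h) : x u ≠ x v) with h | h
    · exact absurd ((hxy u v).1 h) (by rw [huv]; exact lt_irrefl _)
    · exact absurd ((hxy v u).1 h) (by rw [huv]; exact lt_irrefl _)
  have hlc : LC G y := by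
    intro a b c d hab hbc hcd hac hbd
    exact h a b c d ((hxy _ _).2 hab) ((hxy _ _).2 hbc) ((hxy _ _).2 hcd) hac hbd
  obtain ⟨W, hW⟩ := chord_weak G y hy hg
  obtain ⟨D, hD⟩ := upgrade W
  have hDs : D.toSkel = chordSkel G y := hD.trans hW
  have hrep : (chordSkel G y).Represents G := by
    intro u v huv
    exact ⟨fun h => chord_completeW G y hy h, fun ⟨p, hp⟩ =>
      (chord_sound_gen G y hy hlc (invariantP hy hg h3.1 h3.2 hlc u) hp).resolve_left huv⟩
  refine ⟨D, represents_eq hDs hrep, fun u v => ?_⟩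
  have hp : ∀ w, (D.pt (Sum.inl w)).re = y w := by
    intro w
    have key : ∀ S : Skel V, S = chordSkel G y → (S.pt (Sum.inl w)).re = y w := by
      rintro S rfl
      simp [chordSkel, cpt]
    exact key D.toSkel hDs
  rw [hp, hp]
  exact hxy u v

theorem Tame.induce {G : SimpleGraph V} (h : Tame G) (S : Set V) : Tame (G.induce S) := by
  refine ⟨?_, ?_⟩
  · intro a b c d v hK hva hvb
    rcases h.1 a.1 b.1 c.1 d.1 v.1 hK hva hvb with h1 | h1
    · exact Or.inl (Subtype.ext h1)
    · exact Or.inr h1
  · intro p q a b c d hpq npq hac had hbd h1 h2 h3 h4 h5 h6 h7 h8 h9 h10 h11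
    have ne : ∀ {y z : S}, y ≠ z → y.1 ≠ z.1 := fun h e => h (Subtype.ext e)
    exact h.2 p.1 q.1 a.1 b.1 c.1 d.1 (ne hpq) npq (ne hac) (ne had) (ne hbd)
      h1 h2 h3 h4 h5 h6 h7 h8 h9 h10 h11

/-- Diamond-free graphs are tame. -/
theorem tame_of_diamond {G : SimpleGraph V} (h : ∀ a b c d, G.Adj a b → G.Adj a c → G.Adj b c →
    G.Adj a d → G.Adj b d → c ≠ d → G.Adj c d) : Tame G := by
  refine ⟨?_, ?_⟩
  · intro a b c d v K h1 h2
    by_cases hvc : v = c
    · exact Or.inl hvc
    · exact Or.inr (h a b v c K.1 h1.symm h2.symm K.2.1 K.2.2.2.1 hvc)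
  · intro p q a b c d _ _ hac _ _ pa pb pc _ _ _ _ _ ab bc _
    exact Or.inl (h p b a c pb pa ab.symm pc bc hac)

/-- Triangle-free graphs are tame. -/
theorem tame_of_cliqueFree_three {G : SimpleGraph V} (h : G.CliqueFree 3) : Tame G := by
  refine ⟨?_, ?_⟩
  · intro a b c d v K
    exact (no_triangle h K.1 K.2.2.2.1 K.2.1).elim
  · intro p q a b c d _ _ _ _ _ pa pb _ _ _ _ _ _ ab
    exact (no_triangle h pa ab pb).elim

/-- Graphs without `K₄` in which no two vertices have a path on four vertices in their common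
neighbourhood are tame. -/
theorem tame_of_cliqueFree_four {G : SimpleGraph V} (h : G.CliqueFree 4) (hP : PathFree G) :
    Tame G := by
  refine ⟨?_, hP⟩
  intro a b c d v K
  exfalso
  classical
  refine h {a, b, c, d} ⟨?_, ?_⟩
  · simp only [Finset.coe_insert, Finset.coe_singleton, SimpleGraph.isClique_insert,
      SimpleGraph.isClique_singleton, true_and]
    simp [K.1, K.2.1, K.2.2.1, K.2.2.2.1, K.2.2.2.2.1, K.2.2.2.2.2]
  · rw [Finset.card_insert_of_notMem, Finset.card_insert_of_notMem,
      Finset.card_insert_of_notMem, Finset.card_singleton]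
    · simpa using K.2.2.2.2.2.ne
    · simpa using ⟨K.2.2.2.1.ne, K.2.2.2.2.1.ne⟩
    · simpa using ⟨K.1.ne, K.2.1.ne, K.2.2.1.ne⟩

end Pool.Agent.Confl
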