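import Pool.Agent.Confl.T.Check

/-!
# The rules

Labels: 0 c, 1 a, 2 d, 3 b, 4 e, 5 f, 6 u, 7 g, 8 h. Each tree starts from the order
`c < a < d < b`, the adjacencies ab, cd, ad, cb and the thin edges ab, cd.
-/

set_option autoImplicit false

namespace Pool.Agent.Confl.Cert2

/-- Initial ranks. -/
def rk0 : List ℕ := [0, 1048576, 2097152, 3145728]

/-- Initial adjacencies. -/
def T0 : List (ℕ × ℕ) := [(1, 3), (0, 2), (1, 2), (0, 3)]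

/-- Initial thin edges. -/
def U0 : List (ℕ × ℕ) := [(1, 3), (0, 2)]

/-- Rules for three chords. -/
def rulesBase : List Rule :=
    [⟨[.nalt 0 2 4 5], [], .fls⟩,
    ⟨[.nalt 1 3 4 5, .alt 4 5 0 1], [], .fls⟩,
    ⟨[.nalt 1 3 4 5, .alt 4 5 0 3], [], .fls⟩,
    ⟨[], [(1, 5)], .fls⟩,
    ⟨[.eq 1 5], [], .fls⟩,
    ⟨[], [], .adj 4 5⟩,
    ⟨[], [], .adj 0 5⟩,
    ⟨[], [], .adj 4 2⟩,
    ⟨[], [], .thn 4 5⟩]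

/-- Common rules for four chords. -/
def rulesCom : List Rule :=
    [⟨[.nalt 0 2 4 5], [], .fls⟩,
    ⟨[.nalt 7 8 1 3], [], .fls⟩,
    ⟨[.nalt 1 3 4 5, .alt 4 5 0 1], [], .fls⟩,
    ⟨[.nalt 1 3 4 5, .alt 4 5 0 3], [], .fls⟩,
    ⟨[.nalt 7 8 0 2, .alt 0 2 1 7], [], .fls⟩,
    ⟨[.nalt 7 8 0 2, .alt 0 2 1 8], [], .fls⟩,
    ⟨[], [(6, 5)], .fls⟩,
    ⟨[.eq 6 5], [], .fls⟩,
    ⟨[], [], .adj 4 5⟩,
    ⟨[], [], .adj 0 5⟩,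
    ⟨[], [], .adj 4 2⟩,
    ⟨[], [], .aeq 1 5⟩,
    ⟨[], [], .aeq 6 3⟩,
    ⟨[], [], .aeq 6 2⟩,
    ⟨[], [], .aeq 6 8⟩,
    ⟨[], [], .aeq 7 2⟩,
    ⟨[], [], .adj 7 8⟩,
    ⟨[], [], .adj 7 3⟩,
    ⟨[], [], .adj 1 8⟩,
    ⟨[], [], .thn 4 5⟩,
    ⟨[], [], .thn 7 8⟩,
    ⟨[.alt 7 8 4 5, .nalt 1 3 4 5, .nalt 4 5 7 1, .nalt 4 5 7 3], [(7, 5), (8, 4)], .fls⟩,
    ⟨[.alt 7 8 4 5, .nalt 1 3 4 5, .nalt 4 5 7 1, .nalt 4 5 7 3, .nalt 7 8 0 2, .nalt 7 8 4 0, .nalt 7 8 4 2], [(7, 4), (8, 5)], .aeq 6 0⟩]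

/-- The crossing of ab and ef is ahead of the crossing of gh and ab. -/
def rulesZ1t : List Rule :=
    [⟨[.alt 1 3 4 5], [(1, 5), (4, 3)], .fls⟩]

/-- The crossing of ab and ef is not ahead of the crossing of gh and ab. -/
def rulesZ1f : List Rule :=
    [⟨[.alt 1 3 4 5, .nalt 4 5 1 0], [], .fls⟩,
    ⟨[.alt 1 3 4 5, .nalt 7 8 4 5, .nalt 4 5 1 7, .nalt 4 5 1 8, .ne 7 5], [], .fls⟩,
    ⟨[.alt 1 3 4 5, .nalt 7 8 4 5, .nalt 4 5 1 7, .nalt 4 5 1 8, .ne 8 4], [], .fls⟩,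
    ⟨[.alt 7 8 4 5, .alt 1 3 4 5, .nalt 4 5 7 3], [(7, 5), (8, 4)], .fls⟩]

/-- The crossing of gh and cd is before the crossing of cd and ef. -/
def rulesZ0t : List Rule :=
    [⟨[.alt 7 8 0 2, .nalt 0 2 7 1], [(7, 2), (0, 8)], .fls⟩,
    ⟨[.alt 7 8 4 5, .nalt 1 3 4 5, .nalt 4 5 7 1, .nalt 4 5 7 3, .alt 7 8 0 2, .nalt 7 8 4 2], [(7, 4), (8, 5)], .aeq 6 0⟩]

/-- The crossing of gh and cd is not before the crossing of cd and ef. -/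
def rulesZ0f : List Rule :=
    [⟨[.alt 7 8 0 2, .nalt 7 8 4 5, .nalt 1 3 4 5, .nalt 4 5 0 7, .nalt 4 5 0 8], [], .fls⟩]

end Pool.Agent.Confl.Cert2
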