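import Pool.Agent.Confl.T.Rules

/-!
# A certificate
-/

set_option autoImplicit false

namespace Pool.Agent.Confl.Cert2

/-- Certificate. -/
def tree01 : Tr :=
    (.cmp 2 (.cmp 1 (.cmp 0 .mn (.cmp 2 (.cmp 1 (.cmp 0 .mn (.rf 0) (.gap (.rf 0))) (.rf 0)
    (.gap (.rf 0))) (.rf 0) (.cmp 3 (.gap (.rf 0)) (.rf 0) (.gap (.rf 0)))) (.gap (.ru 10 (.th 4
    2 1 3 (.cmp 1 (.cmp 4 (.cmp 0 .mn (.rf 0) (.gap (.rf 0))) (.rf 0) (.gap (.rf 0))) (.rf 0)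
    (.cmp 3 (.cmp 2 (.gap (.rf 0)) (.rf 0) (.gap (.ru 8 (.ru 9 (.ru 11 (.lc 4 2 1 3 (.lc 0 5 2 3
    (.p1 2 5 0 3 1 4) (.k4 4 2 1 5)) (.rf 23))))))) (.rf 2) (.gap (.rf 2)))))))) (.cmp 2 (.cmp 1
    (.cmp 0 .mn (.rf 0) (.gap (.rf 0))) (.rf 0) (.gap (.rf 0))) (.rf 0) (.cmp 3 (.gap (.ru 8
    (.ru 9 (.ru 19 (.th 0 5 1 3 (.cmp 2 (.cmp 1 (.cmp 0 .mn (.rf 6) (.gap (.ru 12 (.ru 13 (.lc 0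
    5 6 3 (.lc 6 2 1 5 (.p2 0 1 5 2 6 3) (.rf 6)) (.rf 6)))))) (.rf 6) (.gap (.ru 12 (.ru 13
    (.th 6 3 0 2 (.th 1 2 6 3 (.lc 0 5 6 3 (.th 0 6 1 2 (.lc 0 6 1 2 (.k4 0 5 1 3) (.p2 0 1 2 6
    3 5))) (.rf 6)))))))) (.ru 12 (.lc 0 5 2 3 (.cmp 2 (.cmp 1 (.cmp 0 .mn (.cmp 2 (.cmp 1 (.cmp
    0 .mn (.rf 1) (.gap (.rf 1))) (.rf 1) (.gap (.ru 18 (.rf 21)))) (.rf 21) (.cmp 3 (.cmp 5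
    (.gap (.rf 5)) (.rf 5) (.gap (.rf 5))) (.rf 1) (.gap (.rf 1)))) (.gap (.ru 15 (.ru 17 (.lc 0
    5 7 3 (.k4 0 2 7 3) (.cmp 2 (.cmp 7 (.cmp 0 .mn (.rf 1) (.gap (.rf 1))) (.rf 1) (.cmp 1
    (.gap (.rf 1)) (.rf 1) (.gap (.ru 18 (.rf 21))))) (.rf 21) (.cmp 3 (.cmp 5 (.gap (.ru 18
    (.rf 21))) (.rf 24) (.gap (.rf 24))) (.rf 1) (.gap (.rf 1))))))))) (.cmp 2 (.cmp 1 (.cmp 0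
    .mn (.rf 1) (.gap (.rf 1))) (.rf 1) (.gap (.rf 1))) (.rf 1) (.cmp 3 (.cmp 5 (.gap (.rf 1))
    (.rf 1) (.gap (.rf 1))) (.rf 1) (.gap (.rf 1)))) (.gap (.ru 15 (.ru 17 (.th 7 3 0 2 (.th 1 2
    7 3 (.lc 0 5 7 3 (.k4 0 2 7 3) (.cmp 2 (.cmp 1 (.cmp 0 .mn (.ru 18 (.k4 0 2 1 3)) (.gap (.ru
    14 (.ru 16 (.ru 18 (.ru 20 (.p1 7 1 8 2 3 5))))))) (.rf 1) (.cmp 7 (.gap (.rf 1)) (.rf 1)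
    (.gap (.rf 1)))) (.rf 1) (.cmp 3 (.cmp 5 (.gap (.rf 1)) (.rf 1) (.gap (.rf 1))) (.rf 1)
    (.gap (.ru 14 (.ru 16 (.ru 18 (.p2 1 7 8 2 3 5)))))))))))))) (.cmp 2 (.cmp 1 (.cmp 0 .mn
    (.ru 18 (.k4 0 2 1 3)) (.gap (.ru 14 (.ru 18 (.lc 8 2 1 5 (.rf 6) (.p1 2 5 0 3 1 8))))))
    (.rf 1) (.gap (.rf 1))) (.rf 1) (.cmp 3 (.cmp 5 (.gap (.rf 1)) (.rf 1) (.gap (.rf 1))) (.rf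
    1) (.gap (.rf 5)))) (.cmp 3 (.cmp 5 (.gap (.ru 15 (.ru 17 (.lc 0 5 7 3 (.k4 0 2 7 3) (.cmp 7
    (.cmp 1 (.cmp 0 .mn (.rf 4) (.gap (.ru 14 (.ru 16 (.ru 18 (.th 8 2 1 5 (.p3 1 7 8 2 3
    5))))))) (.rf 1) (.cmp 2 (.gap (.rf 1)) (.rf 1) (.gap (.rf 1)))) (.rf 1) (.cmp 3 (.cmp 5
    (.gap (.rf 1)) (.rf 1) (.gap (.rf 1))) (.rf 1) (.gap (.rf 4)))))))) (.ru 15 (.rf 6)) (.gap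
    (.cmp 5 (.cmp 1 (.cmp 0 .mn (.rf 4) (.gap (.rf 24))) (.rf 1) (.cmp 2 (.gap (.rf 1)) (.rf 1)
    (.gap (.rf 1)))) (.rf 1) (.cmp 3 (.cmp 7 (.gap (.rf 1)) (.rf 1) (.gap (.rf 1))) (.rf 1)
    (.gap (.rf 4)))))) (.ru 17 (.eq 3 3)) (.gap (.ru 15 (.lc 0 5 2 7 (.cmp 5 (.cmp 1 (.cmp 0 .mn
    (.rf 1) (.gap (.rf 1))) (.rf 1) (.cmp 2 (.gap (.ru 18 (.rf 21))) (.rf 4) (.gap (.rf 4))))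
    (.rf 4) (.cmp 7 (.cmp 3 (.gap (.rf 4)) (.rf 1) (.gap (.rf 1))) (.rf 1) (.gap (.rf 1)))) (.rf
    6)))))) (.rf 6))) (.cmp 3 (.cmp 5 (.gap (.ru 12 (.ru 13 (.lc 0 5 6 3 (.lc 0 6 1 5 (.rf 6)
    (.p1 0 1 2 6 3 5)) (.rf 6))))) (.rf 7) (.gap (.ru 12 (.ru 13 (.lc 0 5 2 6 (.rf 6) (.lc 0 6 1
    3 (.k4 0 2 1 5) (.p2 0 1 5 2 6 3))))))) (.ru 13 (.lc 0 5 2 3 (.rf 6) (.cmp 2 (.cmp 1 (.cmp 0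
    .mn (.cmp 2 (.cmp 1 (.cmp 0 .mn (.rf 1) (.gap (.rf 1))) (.rf 1) (.gap (.ru 18 (.rf 21))))
    (.rf 21) (.cmp 3 (.cmp 5 (.gap (.rf 5)) (.rf 5) (.gap (.rf 5))) (.rf 1) (.gap (.rf 1))))
    (.gap (.ru 17 (.lc 0 5 7 3 (.rf 6) (.cmp 2 (.cmp 7 (.cmp 0 .mn (.rf 1) (.gap (.rf 1))) (.rf
    1) (.cmp 1 (.gap (.rf 1)) (.rf 1) (.gap (.ru 18 (.rf 21))))) (.rf 21) (.cmp 3 (.cmp 5 (.gap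
    (.ru 18 (.rf 21))) (.rf 24) (.gap (.rf 24))) (.rf 1) (.gap (.rf 1)))))))) (.cmp 2 (.cmp 1
    (.cmp 0 .mn (.rf 1) (.gap (.rf 1))) (.rf 1) (.gap (.rf 1))) (.rf 1) (.cmp 3 (.cmp 5 (.gap
    (.rf 1)) (.rf 1) (.gap (.rf 1))) (.rf 1) (.gap (.rf 1)))) (.gap (.ru 15 (.ru 17 (.th 7 3 0 2
    (.th 1 2 7 3 (.lc 0 5 7 3 (.rf 6) (.cmp 2 (.cmp 1 (.cmp 0 .mn (.ru 18 (.k4 0 2 1 5)) (.gap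
    (.ru 14 (.ru 16 (.ru 18 (.ru 20 (.p1 7 1 8 3 2 5))))))) (.rf 1) (.cmp 7 (.gap (.rf 1)) (.rf
    1) (.gap (.rf 1)))) (.rf 1) (.cmp 3 (.cmp 5 (.gap (.rf 1)) (.rf 1) (.gap (.rf 1))) (.rf 1)
    (.gap (.ru 14 (.ru 16 (.ru 18 (.p2 1 7 5 2 3 8)))))))))))))) (.cmp 2 (.cmp 1 (.cmp 0 .mn
    (.ru 18 (.k4 0 2 1 5)) (.gap (.ru 14 (.ru 16 (.ru 18 (.ru 20 (.k4 8 2 1 3))))))) (.rf 1)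
    (.gap (.rf 1))) (.rf 1) (.cmp 3 (.cmp 5 (.gap (.rf 1)) (.rf 1) (.gap (.rf 1))) (.rf 1) (.gap
    (.rf 5)))) (.cmp 3 (.cmp 5 (.gap (.ru 15 (.ru 17 (.lc 0 5 7 3 (.rf 6) (.cmp 7 (.cmp 1 (.cmp
    0 .mn (.rf 4) (.gap (.ru 14 (.ru 16 (.ru 18 (.ru 20 (.p1 7 1 8 3 2 5))))))) (.rf 1) (.cmp 2
    (.gap (.rf 1)) (.rf 1) (.gap (.rf 1)))) (.rf 1) (.cmp 3 (.cmp 5 (.gap (.rf 1)) (.rf 1) (.gap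
    (.rf 1))) (.rf 1) (.gap (.rf 4)))))))) (.ru 17 (.rf 6)) (.gap (.cmp 5 (.cmp 1 (.cmp 0 .mn
    (.rf 4) (.gap (.rf 24))) (.rf 1) (.cmp 2 (.gap (.rf 1)) (.rf 1) (.gap (.rf 1)))) (.rf 1)
    (.cmp 3 (.cmp 7 (.gap (.rf 1)) (.rf 1) (.gap (.rf 1))) (.rf 1) (.gap (.rf 4)))))) (.ru 17
    (.eq 3 3)) (.gap (.ru 15 (.ru 17 (.lc 0 5 2 7 (.cmp 5 (.cmp 1 (.cmp 0 .mn (.rf 1) (.gap (.rf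
    1))) (.rf 1) (.cmp 2 (.gap (.ru 18 (.rf 21))) (.rf 4) (.gap (.rf 4)))) (.rf 4) (.cmp 7 (.cmp
    3 (.gap (.rf 4)) (.rf 1) (.gap (.rf 1))) (.rf 1) (.gap (.rf 1)))) (.k4 0 2 3 7)))))))))
    (.gap (.ru 12 (.ru 13 (.lc 0 5 2 6 (.rf 6) (.lc 1 5 2 6 (.rf 6) (.p2 0 1 5 2 6
    3))))))))))))) (.cmp 2 (.cmp 1 (.cmp 0 .mn (.rf 6) (.gap (.ru 12 (.rf 6)))) (.rf 6) (.gap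
    (.ru 12 (.rf 6)))) (.ru 12 (.rf 6)) (.cmp 3 (.gap (.ru 12 (.rf 6))) (.rf 7) (.gap (.ru 12
    (.rf 6))))) (.gap (.rf 3)))) (.gap (.ru 10 (.cmp 4 (.cmp 1 (.cmp 0 .mn (.rf 0) (.gap (.rf
    0))) (.rf 0) (.gap (.rf 0))) (.rf 0) (.cmp 3 (.cmp 2 (.gap (.rf 0)) (.rf 0) (.gap (.ru 8
    (.ru 9 (.ru 11 (.ru 19 (.th 1 5 0 2 (.th 0 5 1 3 (.th 1 2 4 5 (.cmp 2 (.cmp 1 (.cmp 0 .mn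
    (.rf 6) (.gap (.ru 12 (.ru 13 (.lc 0 5 6 3 (.lc 6 2 1 5 (.p2 0 1 5 2 6 3) (.rf 6)) (.rf
    6)))))) (.rf 6) (.cmp 4 (.gap (.ru 12 (.ru 13 (.lc 0 5 6 3 (.th 0 6 1 2 (.lc 0 6 1 2 (.k4 0
    5 1 3) (.p2 0 1 2 6 3 5))) (.rf 6))))) (.rf 6) (.gap (.ru 12 (.ru 13 (.lc 0 5 6 3 (.th 0 6 1
    2 (.lc 0 6 1 2 (.k4 0 5 1 3) (.p2 0 1 2 6 3 5))) (.rf 6))))))) (.ru 12 (.lc 0 5 2 3 (.cmp 2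
    (.cmp 1 (.cmp 0 .mn (.cmp 2 (.cmp 1 (.cmp 0 .mn (.rf 1) (.gap (.rf 1))) (.rf 1) (.cmp 4
    (.gap (.ru 14 (.ru 16 (.ru 18 (.ru 20 (.p1 0 1 8 2 3 5)))))) (.ru 16 (.ru 18 (.ru 20 (.p2 0
    1 5 4 2 3)))) (.gap (.ru 14 (.ru 16 (.ru 18 (.ru 20 (.p1 0 1 8 2 3 5)))))))) (.rf 21) (.cmp
    3 (.cmp 5 (.gap (.rf 5)) (.rf 5) (.gap (.rf 5))) (.rf 1) (.gap (.rf 1)))) (.gap (.ru 15 (.ru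
    17 (.th 7 2 1 5 (.lc 0 5 7 3 (.k4 0 2 7 3) (.cmp 4 (.cmp 7 (.cmp 0 .mn (.rf 1) (.gap (.rf
    1))) (.rf 1) (.cmp 1 (.gap (.rf 1)) (.rf 1) (.gap (.ru 14 (.ru 16 (.ru 18 (.ru 20 (.p1 7 1 8
    2 3 5)))))))) (.ru 16 (.ru 18 (.ru 20 (.p2 7 1 5 4 2 3)))) (.cmp 5 (.cmp 2 (.gap (.ru 14
    (.ru 16 (.ru 18 (.ru 20 (.p1 7 1 8 2 3 5)))))) (.rf 21) (.gap (.ru 14 (.ru 16 (.ru 18 (.p2 7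
    1 8 2 3 5)))))) (.rf 24) (.cmp 3 (.gap (.rf 24)) (.rf 1) (.gap (.rf 1))))))))))) (.cmp 2
    (.cmp 1 (.cmp 0 .mn (.rf 1) (.gap (.rf 1))) (.rf 1) (.cmp 4 (.gap (.rf 1)) (.rf 1) (.gap
    (.rf 1)))) (.rf 1) (.cmp 3 (.cmp 5 (.gap (.rf 1)) (.rf 1) (.gap (.rf 1))) (.rf 1) (.gap (.rf
    1)))) (.cmp 4 (.gap (.ru 15 (.ru 17 (.lc 0 5 7 3 (.k4 0 2 7 3) (.cmp 4 (.cmp 1 (.cmp 0 .mn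
    (.ru 18 (.k4 0 2 1 3)) (.gap (.ru 14 (.ru 16 (.ru 18 (.ru 20 (.p1 7 1 8 2 3 5))))))) (.rf 1)
    (.cmp 7 (.gap (.rf 1)) (.rf 1) (.gap (.rf 1)))) (.rf 1) (.cmp 5 (.cmp 2 (.gap (.rf 1)) (.rf
    1) (.gap (.rf 1))) (.rf 1) (.cmp 3 (.gap (.rf 1)) (.rf 1) (.gap (.rf 24))))))))) (.ru 17
    (.cmp 2 (.cmp 1 (.cmp 0 .mn (.ru 18 (.k4 0 2 1 3)) (.gap (.ru 14 (.ru 16 (.ru 18 (.ru 20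
    (.p1 4 1 8 2 3 5))))))) (.rf 1) (.cmp 4 (.gap (.rf 1)) (.rf 1) (.gap (.rf 1)))) (.rf 1)
    (.cmp 3 (.cmp 5 (.gap (.rf 1)) (.rf 1) (.gap (.rf 1))) (.rf 1) (.gap (.rf 24))))) (.gap (.ru
    15 (.ru 17 (.lc 0 5 7 3 (.k4 0 2 7 3) (.cmp 7 (.cmp 1 (.cmp 0 .mn (.ru 18 (.k4 0 2 1 3))
    (.gap (.ru 14 (.ru 16 (.ru 18 (.ru 20 (.p1 7 1 8 2 3 5))))))) (.rf 1) (.cmp 4 (.gap (.rf 1))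
    (.rf 1) (.gap (.rf 1)))) (.rf 1) (.cmp 5 (.cmp 2 (.gap (.rf 1)) (.rf 1) (.gap (.rf 1))) (.rf
    1) (.cmp 3 (.gap (.rf 1)) (.rf 1) (.gap (.ru 14 (.ru 16 (.ru 18 (.p2 1 7 8 2 3
    5)))))))))))))) (.cmp 2 (.cmp 1 (.cmp 0 .mn (.ru 18 (.k4 0 2 1 3)) (.gap (.ru 14 (.ru 18
    (.lc 8 2 1 5 (.rf 6) (.p1 2 5 0 3 1 8)))))) (.rf 1) (.cmp 4 (.gap (.rf 1)) (.rf 1) (.gap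
    (.rf 1)))) (.rf 1) (.cmp 3 (.cmp 5 (.gap (.rf 1)) (.rf 1) (.gap (.rf 1))) (.rf 1) (.gap (.rf
    5)))) (.cmp 3 (.cmp 5 (.gap (.ru 15 (.ru 17 (.lc 0 5 7 3 (.k4 0 2 7 3) (.cmp 2 (.cmp 1 (.cmp
    0 .mn (.rf 4) (.gap (.ru 14 (.ru 16 (.ru 18 (.th 8 2 1 5 (.p3 1 7 8 2 3 5))))))) (.rf 1)
    (.cmp 4 (.gap (.rf 1)) (.rf 1) (.gap (.rf 1)))) (.rf 1) (.cmp 5 (.cmp 7 (.gap (.rf 1)) (.rf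
    1) (.gap (.rf 1))) (.rf 1) (.cmp 3 (.gap (.rf 1)) (.rf 1) (.gap (.rf 4))))))))) (.ru 15 (.rf
    6)) (.gap (.cmp 2 (.cmp 1 (.cmp 0 .mn (.rf 4) (.gap (.rf 24))) (.rf 1) (.cmp 4 (.gap (.rf
    1)) (.rf 1) (.gap (.rf 1)))) (.rf 1) (.cmp 7 (.cmp 5 (.gap (.rf 1)) (.rf 1) (.gap (.rf 1)))
    (.rf 1) (.cmp 3 (.gap (.rf 1)) (.rf 1) (.gap (.rf 4))))))) (.ru 17 (.eq 3 3)) (.gap (.ru 15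
    (.ru 17 (.lc 0 5 2 7 (.cmp 2 (.cmp 1 (.cmp 0 .mn (.rf 1) (.gap (.rf 1))) (.rf 1) (.cmp 4
    (.gap (.rf 24)) (.rf 24) (.gap (.ru 14 (.ru 16 (.ru 18 (.th 1 8 4 5 (.p1 1 7 8 2 3 5))))))))
    (.rf 4) (.cmp 3 (.cmp 5 (.gap (.rf 4)) (.rf 4) (.gap (.rf 4))) (.rf 1) (.cmp 7 (.gap (.rf
    1)) (.rf 1) (.gap (.rf 1))))) (.rf 6))))))) (.rf 6))) (.cmp 3 (.cmp 5 (.gap (.ru 12 (.ru 13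
    (.lc 0 5 6 3 (.lc 0 6 1 5 (.rf 6) (.p1 0 1 2 6 3 5)) (.rf 6))))) (.rf 7) (.gap (.ru 12 (.ru
    13 (.lc 0 5 2 6 (.rf 6) (.lc 0 6 1 3 (.k4 0 2 1 5) (.p2 0 1 5 2 6 3))))))) (.ru 13 (.lc 0 5
    2 3 (.rf 6) (.lc 4 5 2 3 (.rf 6) (.cmp 2 (.cmp 1 (.cmp 0 .mn (.cmp 2 (.cmp 1 (.cmp 0 .mn
    (.rf 1) (.gap (.rf 1))) (.rf 1) (.cmp 4 (.gap (.ru 14 (.ru 16 (.ru 18 (.ru 20 (.p1 0 1 8 3 2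
    5)))))) (.ru 16 (.ru 20 (.k4 0 4 2 5))) (.gap (.ru 14 (.ru 16 (.ru 18 (.ru 20 (.p1 0 1 8 3 2
    5)))))))) (.rf 21) (.cmp 3 (.cmp 5 (.gap (.rf 5)) (.rf 5) (.gap (.rf 5))) (.rf 1) (.gap (.rf
    1)))) (.gap (.ru 15 (.ru 17 (.th 7 2 1 5 (.lc 0 5 7 3 (.rf 6) (.cmp 4 (.cmp 7 (.cmp 0 .mn
    (.rf 1) (.gap (.rf 1))) (.rf 1) (.cmp 1 (.gap (.rf 1)) (.rf 1) (.gap (.ru 14 (.ru 16 (.ru 18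
    (.ru 20 (.p1 7 1 8 3 2 5)))))))) (.ru 16 (.ru 20 (.k4 7 4 2 5))) (.cmp 5 (.cmp 2 (.gap (.ru
    14 (.ru 16 (.ru 18 (.ru 20 (.p1 7 1 8 3 2 5)))))) (.rf 21) (.gap (.ru 14 (.ru 16 (.ru 18
    (.p2 7 1 5 2 3 8)))))) (.rf 24) (.cmp 3 (.gap (.rf 24)) (.rf 1) (.gap (.rf 1)))))))))))
    (.cmp 2 (.cmp 1 (.cmp 0 .mn (.rf 1) (.gap (.rf 1))) (.rf 1) (.cmp 4 (.gap (.rf 1)) (.rf 1)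
    (.gap (.rf 1)))) (.rf 1) (.cmp 3 (.cmp 5 (.gap (.rf 1)) (.rf 1) (.gap (.rf 1))) (.rf 1)
    (.gap (.rf 1)))) (.cmp 4 (.gap (.ru 15 (.ru 17 (.lc 0 5 7 3 (.rf 6) (.cmp 4 (.cmp 1 (.cmp 0
    .mn (.ru 18 (.k4 0 2 1 5)) (.gap (.ru 14 (.ru 16 (.ru 18 (.ru 20 (.p1 7 1 8 3 2 5)))))))
    (.rf 1) (.cmp 7 (.gap (.rf 1)) (.rf 1) (.gap (.rf 1)))) (.rf 1) (.cmp 5 (.cmp 2 (.gap (.rf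
    1)) (.rf 1) (.gap (.rf 1))) (.rf 1) (.cmp 3 (.gap (.rf 1)) (.rf 1) (.gap (.rf 24)))))))))
    (.cmp 2 (.cmp 1 (.cmp 0 .mn (.ru 18 (.k4 0 2 1 5)) (.gap (.ru 14 (.ru 16 (.ru 18 (.ru 20
    (.p1 4 1 8 3 2 5))))))) (.rf 1) (.cmp 4 (.gap (.rf 1)) (.rf 1) (.gap (.rf 1)))) (.rf 1)
    (.cmp 3 (.cmp 5 (.gap (.rf 1)) (.rf 1) (.gap (.rf 1))) (.rf 1) (.gap (.rf 24)))) (.gap (.ru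
    15 (.ru 17 (.lc 0 5 7 3 (.rf 6) (.cmp 7 (.cmp 1 (.cmp 0 .mn (.ru 18 (.k4 0 2 1 5)) (.gap
    (.ru 14 (.ru 16 (.ru 18 (.ru 20 (.p1 7 1 8 3 2 5))))))) (.rf 1) (.cmp 4 (.gap (.rf 1)) (.rf
    1) (.gap (.rf 1)))) (.rf 1) (.cmp 5 (.cmp 2 (.gap (.rf 1)) (.rf 1) (.gap (.rf 1))) (.rf 1)
    (.cmp 3 (.gap (.rf 1)) (.rf 1) (.gap (.ru 14 (.ru 16 (.ru 18 (.p2 1 7 5 2 3 8))))))))))))))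
    (.cmp 2 (.cmp 1 (.cmp 0 .mn (.ru 18 (.k4 0 2 1 5)) (.gap (.ru 14 (.ru 16 (.ru 18 (.ru 20
    (.k4 8 2 1 3))))))) (.rf 1) (.cmp 4 (.gap (.rf 1)) (.rf 1) (.gap (.rf 1)))) (.rf 1) (.cmp 3
    (.cmp 5 (.gap (.rf 1)) (.rf 1) (.gap (.rf 1))) (.rf 1) (.gap (.rf 5)))) (.cmp 3 (.cmp 5
    (.gap (.ru 15 (.ru 17 (.lc 0 5 7 3 (.rf 6) (.cmp 2 (.cmp 1 (.cmp 0 .mn (.rf 4) (.gap (.ru 14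
    (.ru 16 (.ru 18 (.ru 20 (.p1 7 1 8 3 2 5))))))) (.rf 1) (.cmp 4 (.gap (.rf 1)) (.rf 1) (.gap
    (.rf 1)))) (.rf 1) (.cmp 5 (.cmp 7 (.gap (.rf 1)) (.rf 1) (.gap (.rf 1))) (.rf 1) (.cmp 3
    (.gap (.rf 1)) (.rf 1) (.gap (.rf 4))))))))) (.ru 17 (.rf 6)) (.gap (.cmp 2 (.cmp 1 (.cmp 0
    .mn (.rf 4) (.gap (.rf 24))) (.rf 1) (.cmp 4 (.gap (.rf 1)) (.rf 1) (.gap (.rf 1)))) (.rf 1)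
    (.cmp 7 (.cmp 5 (.gap (.rf 1)) (.rf 1) (.gap (.rf 1))) (.rf 1) (.cmp 3 (.gap (.rf 1)) (.rf
    1) (.gap (.rf 4))))))) (.ru 17 (.eq 3 3)) (.gap (.ru 15 (.ru 17 (.lc 0 5 2 7 (.cmp 2 (.cmp 1
    (.cmp 0 .mn (.rf 1) (.gap (.rf 1))) (.rf 1) (.cmp 4 (.gap (.rf 24)) (.rf 24) (.gap (.ru 14
    (.ru 16 (.ru 18 (.th 1 8 4 5 (.p1 1 7 8 3 2 5)))))))) (.rf 4) (.cmp 3 (.cmp 5 (.gap (.rf 4))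
    (.rf 4) (.gap (.rf 4))) (.rf 1) (.cmp 7 (.gap (.rf 1)) (.rf 1) (.gap (.rf 1))))) (.k4 0 2 3
    7)))))))))) (.gap (.ru 12 (.ru 13 (.lc 0 5 2 6 (.rf 6) (.lc 1 5 2 6 (.rf 6) (.p2 0 1 5 2 6
    3))))))))))))))))) (.ru 8 (.cmp 4 (.cmp 1 (.cmp 0 .mn (.rf 6) (.gap (.ru 12 (.rf 6)))) (.rf
    6) (.gap (.ru 12 (.rf 6)))) (.rf 6) (.cmp 3 (.cmp 2 (.gap (.ru 12 (.rf 6))) (.ru 12 (.rf 6))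
    (.gap (.ru 12 (.rf 6)))) (.rf 7) (.gap (.ru 12 (.rf 6)))))) (.gap (.ru 8 (.ru 9 (.ru 11 (.ru
    19 (.th 1 5 0 2 (.th 0 3 1 5 (.th 1 2 4 5 (.lc 0 3 4 5 (.th 0 4 1 2 (.lc 0 4 1 2 (.k4 0 3 1
    5) (.p2 0 1 2 4 5 3))) (.rf 23))))))))))))))) (.ru 10 (.eq 2 2)) (.cmp 3 (.gap (.ru 10 (.cmp
    2 (.cmp 1 (.cmp 0 .mn (.rf 0) (.gap (.ru 8 (.ru 11 (.ru 19 (.lc 5 4 1 3 (.rf 23) (.lc 0 2 5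
    3 (.p1 2 5 0 3 1 4) (.k4 5 4 1 2)))))))) (.ru 8 (.ru 9 (.ru 19 (.cmp 2 (.cmp 1 (.cmp 0 .mn
    (.rf 6) (.gap (.ru 12 (.ru 13 (.th 6 2 1 4 (.th 0 1 6 2 (.lc 0 1 6 2 (.lc 6 2 1 4 (.rf 6)
    (.p2 1 6 3 0 2 4)) (.rf 6)))))))) (.rf 7) (.gap (.ru 12 (.ru 13 (.lc 1 4 6 3 (.rf 6) (.lc 0
    2 6 4 (.p4 1 6 3 0 2 4) (.k4 0 2 1 4))))))) (.rf 6) (.cmp 3 (.cmp 4 (.gap (.ru 12 (.lc 1 4 6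
    3 (.rf 6) (.lc 2 4 6 3 (.p1 2 3 0 1 4 6) (.k4 0 2 1 3))))) (.rf 6) (.gap (.ru 12 (.ru 13
    (.lc 1 4 2 6 (.cmp 4 (.cmp 1 (.cmp 0 .mn (.cmp 4 (.cmp 1 (.cmp 0 .mn (.rf 1) (.gap (.rf 1)))
    (.rf 1) (.cmp 2 (.gap (.ru 16 (.lc 0 8 1 4 (.rf 21) (.k4 0 2 1 4)))) (.rf 21) (.gap (.rf
    5)))) (.rf 5) (.cmp 3 (.cmp 6 (.gap (.rf 5)) (.rf 5) (.gap (.rf 5))) (.rf 1) (.gap (.rf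
    1)))) (.gap (.ru 15 (.ru 17 (.th 7 2 1 4 (.th 0 1 7 2 (.cmp 2 (.cmp 7 (.cmp 0 .mn (.rf 1)
    (.gap (.rf 1))) (.rf 1) (.cmp 1 (.gap (.rf 1)) (.rf 1) (.gap (.ru 14 (.ru 18 (.lc 0 2 8 6
    (.lc 0 8 1 4 (.p3 8 2 0 1 4 6) (.k4 0 1 2 4)) (.p2 1 6 3 0 2 8))))))) (.lc 0 1 7 2 (.lc 7 2
    1 4 (.rf 21) (.p2 1 7 3 0 2 4)) (.rf 21)) (.cmp 6 (.cmp 4 (.gap (.ru 14 (.ru 16 (.ru 18 (.lc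
    0 2 7 8 (.p2 1 7 3 0 2 8) (.lc 0 8 1 4 (.p3 2 8 0 1 4 6) (.k4 0 1 2 4))))))) (.rf 24) (.gap
    (.rf 24))) (.rf 24) (.cmp 3 (.gap (.rf 24)) (.rf 1) (.gap (.rf 1))))))))))) (.cmp 4 (.cmp 1
    (.cmp 0 .mn (.rf 1) (.gap (.rf 1))) (.rf 1) (.cmp 2 (.gap (.rf 1)) (.rf 1) (.gap (.rf 1))))
    (.rf 1) (.cmp 3 (.cmp 6 (.gap (.rf 1)) (.rf 1) (.gap (.rf 1))) (.rf 1) (.gap (.rf 1))))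
    (.cmp 2 (.gap (.ru 15 (.ru 17 (.lc 1 4 7 3 (.p1 2 3 0 1 4 6) (.lc 0 2 7 4 (.p4 1 7 3 0 2 4)
    (.k4 0 2 1 4)))))) (.ru 17 (.k4 0 2 1 3)) (.gap (.ru 17 (.lc 1 4 7 3 (.p1 2 3 0 1 4 6) (.lc
    2 4 7 3 (.p1 2 3 0 1 4 7) (.k4 0 2 1 3))))))) (.ru 17 (.p1 2 3 0 1 4 6)) (.cmp 3 (.cmp 6
    (.gap (.cmp 4 (.cmp 1 (.cmp 0 .mn (.rf 4) (.gap (.rf 24))) (.rf 1) (.cmp 2 (.gap (.rf 1))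
    (.rf 1) (.gap (.rf 1)))) (.rf 1) (.cmp 6 (.cmp 7 (.gap (.rf 1)) (.rf 1) (.gap (.rf 1))) (.rf
    1) (.cmp 3 (.gap (.rf 1)) (.rf 1) (.gap (.rf 4)))))) (.cmp 4 (.cmp 1 (.cmp 0 .mn (.rf 4)
    (.gap (.rf 24))) (.rf 1) (.cmp 2 (.gap (.rf 1)) (.rf 1) (.gap (.rf 1)))) (.rf 1) (.cmp 3
    (.cmp 6 (.gap (.rf 1)) (.rf 1) (.gap (.rf 1))) (.rf 1) (.gap (.rf 4)))) (.gap (.cmp 4 (.cmp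
    1 (.cmp 0 .mn (.rf 4) (.gap (.rf 24))) (.rf 1) (.cmp 2 (.gap (.rf 1)) (.rf 1) (.gap (.rf
    1)))) (.rf 1) (.cmp 7 (.cmp 6 (.gap (.rf 1)) (.rf 1) (.gap (.rf 1))) (.rf 1) (.cmp 3 (.gap
    (.rf 1)) (.rf 1) (.gap (.rf 4))))))) (.ru 17 (.eq 3 3)) (.gap (.cmp 4 (.cmp 1 (.cmp 0 .mn
    (.rf 1) (.gap (.rf 1))) (.rf 1) (.cmp 2 (.gap (.ru 14 (.ru 18 (.th 8 6 0 2 (.th 1 2 8 6 (.lc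
    0 2 8 6 (.th 0 8 1 2 (.lc 0 8 1 4 (.p1 8 2 0 1 4 6) (.k4 0 2 1 4))) (.p4 1 6 3 0 2 8)))))))
    (.rf 4) (.gap (.rf 4)))) (.rf 4) (.cmp 3 (.cmp 6 (.gap (.rf 4)) (.rf 4) (.gap (.rf 4))) (.rf
    1) (.cmp 7 (.gap (.rf 1)) (.rf 1) (.gap (.rf 1)))))))) (.rf 6)))))) (.rf 6) (.gap (.ru 13
    (.lc 1 4 2 6 (.lc 0 3 4 6 (.k4 0 2 1 4) (.p2 0 4 6 2 1 3)) (.rf 6))))))))) (.gap (.ru 8 (.ru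
    9 (.ru 11 (.ru 19 (.th 0 5 1 3 (.th 1 2 5 4 (.cmp 2 (.cmp 1 (.cmp 0 .mn (.rf 6) (.gap (.ru
    12 (.ru 13 (.lc 0 5 6 2 (.lc 0 5 6 3 (.p4 2 3 6 0 5 1) (.rf 6)) (.rf 6)))))) (.rf 6) (.cmp 5
    (.gap (.ru 12 (.ru 13 (.th 6 2 0 5 (.th 1 5 6 2 (.lc 0 5 6 2 (.th 0 6 1 5 (.lc 0 6 1 5 (.rf
    6) (.p2 0 1 3 6 2 5))) (.rf 6))))))) (.rf 7) (.gap (.ru 12 (.ru 13 (.lc 5 4 6 3 (.rf 6) (.lc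
    0 2 5 3 (.lc 0 2 6 4 (.k4 0 2 6 3) (.p2 5 2 4 0 3 1)) (.lc 0 2 6 4 (.p2 5 6 3 0 2 4) (.k4 0
    5 2 4))))))))) (.ru 12 (.lc 5 4 2 3 (.rf 6) (.cmp 2 (.cmp 1 (.cmp 0 .mn (.cmp 2 (.cmp 1
    (.cmp 0 .mn (.rf 1) (.gap (.rf 1))) (.rf 1) (.cmp 5 (.gap (.ru 14 (.ru 16 (.ru 18 (.ru 20
    (.p1 0 1 8 2 3 5)))))) (.ru 14 (.rf 6)) (.gap (.ru 14 (.ru 16 (.ru 18 (.p1 0 1 5 3 2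
    8))))))) (.rf 21) (.cmp 3 (.cmp 4 (.gap (.rf 5)) (.rf 5) (.gap (.rf 5))) (.rf 1) (.gap (.rf
    1)))) (.gap (.ru 15 (.ru 17 (.lc 0 5 7 2 (.rf 6) (.th 7 5 1 2 (.cmp 5 (.cmp 7 (.cmp 0 .mn
    (.rf 1) (.gap (.rf 1))) (.rf 1) (.cmp 1 (.gap (.rf 1)) (.rf 1) (.gap (.ru 14 (.ru 16 (.ru 18
    (.ru 20 (.p1 7 1 8 2 3 5)))))))) (.ru 14 (.rf 6)) (.cmp 4 (.cmp 2 (.gap (.ru 14 (.ru 16 (.ru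
    18 (.p1 7 1 5 3 2 8))))) (.rf 21) (.gap (.ru 14 (.ru 16 (.ru 18 (.p1 7 1 5 3 2 8)))))) (.rf
    24) (.cmp 3 (.gap (.rf 24)) (.rf 1) (.gap (.rf 1))))))))))) (.cmp 2 (.cmp 1 (.cmp 0 .mn (.rf
    1) (.gap (.rf 1))) (.rf 1) (.cmp 5 (.gap (.rf 1)) (.rf 1) (.gap (.rf 1)))) (.rf 1) (.cmp 3
    (.cmp 4 (.gap (.rf 1)) (.rf 1) (.gap (.rf 1))) (.rf 1) (.gap (.rf 1)))) (.cmp 5 (.gap (.ru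
    15 (.ru 17 (.lc 0 5 7 2 (.rf 6) (.cmp 5 (.cmp 1 (.cmp 0 .mn (.ru 18 (.k4 0 5 1 3)) (.gap
    (.ru 14 (.ru 16 (.ru 18 (.ru 20 (.p1 7 1 8 2 3 5))))))) (.rf 1) (.cmp 7 (.gap (.rf 1)) (.rf
    1) (.gap (.rf 1)))) (.rf 1) (.cmp 4 (.cmp 2 (.gap (.rf 1)) (.rf 1) (.gap (.rf 1))) (.rf 1)
    (.cmp 3 (.gap (.rf 1)) (.rf 1) (.gap (.rf 24))))))))) (.ru 15 (.rf 6)) (.gap (.ru 15 (.ru 17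
    (.cmp 7 (.cmp 1 (.cmp 0 .mn (.ru 18 (.k4 0 5 1 3)) (.gap (.ru 14 (.ru 16 (.ru 18 (.lc 0 5 8
    7 (.p1 0 1 5 3 2 8) (.k4 0 2 7 3))))))) (.rf 1) (.cmp 5 (.gap (.rf 1)) (.rf 1) (.gap (.rf
    1)))) (.rf 1) (.cmp 4 (.cmp 2 (.gap (.rf 1)) (.rf 1) (.gap (.rf 1))) (.rf 1) (.cmp 3 (.gap
    (.rf 1)) (.rf 1) (.gap (.ru 14 (.ru 18 (.lc 0 5 1 8 (.k4 0 5 1 3) (.p1 0 1 5 3 2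
    8))))))))))))) (.cmp 2 (.cmp 1 (.cmp 0 .mn (.ru 18 (.k4 0 5 1 3)) (.gap (.ru 14 (.ru 18 (.lc
    0 5 8 2 (.rf 6) (.p1 5 2 0 3 1 8)))))) (.rf 1) (.cmp 5 (.gap (.rf 1)) (.rf 1) (.gap (.rf
    1)))) (.rf 1) (.cmp 3 (.cmp 4 (.gap (.rf 1)) (.rf 1) (.gap (.rf 1))) (.rf 1) (.gap (.rf
    5)))) (.cmp 3 (.cmp 4 (.gap (.ru 15 (.ru 17 (.cmp 2 (.cmp 1 (.cmp 0 .mn (.rf 4) (.gap (.ru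
    14 (.ru 16 (.ru 18 (.th 8 2 0 5 (.lc 0 5 8 2 (.rf 6) (.p2 8 3 7 2 1 5)))))))) (.rf 1) (.cmp
    5 (.gap (.rf 1)) (.rf 1) (.gap (.rf 1)))) (.rf 1) (.cmp 4 (.cmp 7 (.gap (.rf 1)) (.rf 1)
    (.gap (.rf 1))) (.rf 1) (.cmp 3 (.gap (.rf 1)) (.rf 1) (.gap (.rf 4)))))))) (.cmp 2 (.cmp 1
    (.cmp 0 .mn (.rf 4) (.gap (.rf 24))) (.rf 1) (.cmp 5 (.gap (.rf 1)) (.rf 1) (.gap (.rf 1))))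
    (.rf 1) (.cmp 3 (.cmp 4 (.gap (.rf 1)) (.rf 1) (.gap (.rf 1))) (.rf 1) (.gap (.rf 4))))
    (.gap (.cmp 2 (.cmp 1 (.cmp 0 .mn (.rf 4) (.gap (.rf 24))) (.rf 1) (.cmp 5 (.gap (.rf 1))
    (.rf 1) (.gap (.rf 1)))) (.rf 1) (.cmp 7 (.cmp 4 (.gap (.rf 1)) (.rf 1) (.gap (.rf 1))) (.rf
    1) (.cmp 3 (.gap (.rf 1)) (.rf 1) (.gap (.rf 4))))))) (.ru 17 (.eq 3 3)) (.gap (.ru 15 (.ru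
    17 (.lc 5 4 2 7 (.rf 6) (.cmp 2 (.cmp 1 (.cmp 0 .mn (.rf 1) (.gap (.rf 1))) (.rf 1) (.cmp 5
    (.gap (.rf 24)) (.rf 24) (.gap (.ru 14 (.ru 16 (.ru 18 (.th 1 8 0 5 (.p1 1 7 8 2 3 5))))))))
    (.rf 4) (.cmp 3 (.cmp 4 (.gap (.rf 4)) (.rf 4) (.gap (.rf 4))) (.rf 1) (.cmp 7 (.gap (.rf
    1)) (.rf 1) (.gap (.rf 1))))))))))))) (.cmp 3 (.cmp 4 (.gap (.ru 12 (.ru 13 (.th 6 3 5 4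
    (.th 2 4 6 3 (.lc 5 4 6 3 (.rf 6) (.cmp 2 (.cmp 1 (.cmp 0 .mn (.cmp 2 (.cmp 1 (.cmp 0 .mn
    (.rf 1) (.gap (.rf 1))) (.rf 1) (.cmp 5 (.gap (.ru 14 (.ru 16 (.ru 18 (.ru 20 (.lc 0 5 8 6
    (.rf 6) (.p2 8 3 6 0 5 1))))))) (.ru 14 (.rf 6)) (.gap (.ru 16 (.lc 0 8 5 4 (.rf 21) (.ru 22
    (.k4 0 2 6 4))))))) (.rf 21) (.cmp 4 (.cmp 6 (.gap (.rf 5)) (.rf 5) (.gap (.rf 5))) (.rf 5)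
    (.cmp 3 (.gap (.rf 5)) (.rf 1) (.gap (.rf 1))))) (.gap (.ru 15 (.ru 17 (.lc 0 5 7 2 (.p4 2 3
    7 0 5 1) (.cmp 2 (.cmp 1 (.cmp 7 (.cmp 0 .mn (.rf 1) (.gap (.rf 1))) (.rf 1) (.gap (.rf 1)))
    (.rf 1) (.cmp 5 (.gap (.ru 14 (.ru 16 (.ru 18 (.ru 20 (.lc 0 5 8 6 (.rf 6) (.lc 0 2 8 6 (.p4
    8 3 6 0 5 7) (.p2 7 1 2 8 5 3)))))))) (.ru 14 (.rf 6)) (.gap (.ru 16 (.lc 0 5 7 8 (.k4 0 5 7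
    3) (.lc 0 8 5 4 (.rf 21) (.lc 0 2 5 3 (.p2 0 7 8 5 3 2) (.k4 0 5 2 4)))))))) (.rf 21) (.cmp
    4 (.cmp 6 (.gap (.ru 16 (.lc 0 5 7 8 (.k4 0 5 7 3) (.lc 0 8 5 4 (.rf 21) (.lc 0 2 5 8 (.p2 0
    7 3 5 8 2) (.k4 0 5 2 4)))))) (.rf 21) (.gap (.ru 16 (.lc 0 5 7 8 (.k4 0 5 7 3) (.lc 0 8 5 4
    (.rf 21) (.lc 0 2 5 8 (.p2 0 7 3 5 8 2) (.k4 0 5 2 4))))))) (.rf 24) (.cmp 3 (.gap (.rf 24))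
    (.rf 1) (.gap (.rf 1)))))))))) (.cmp 2 (.cmp 1 (.cmp 0 .mn (.rf 1) (.gap (.rf 1))) (.rf 1)
    (.cmp 5 (.gap (.rf 1)) (.rf 1) (.gap (.rf 1)))) (.rf 1) (.cmp 4 (.cmp 6 (.gap (.rf 1)) (.rf
    1) (.gap (.rf 1))) (.rf 1) (.cmp 3 (.gap (.rf 1)) (.rf 1) (.gap (.rf 1))))) (.cmp 5 (.gap
    (.ru 15 (.ru 17 (.lc 0 5 7 2 (.p4 2 3 7 0 5 1) (.cmp 2 (.cmp 7 (.cmp 1 (.cmp 0 .mn (.ru 18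
    (.k4 0 5 1 3)) (.gap (.ru 14 (.ru 16 (.ru 18 (.ru 20 (.lc 0 5 8 6 (.rf 6) (.lc 0 2 8 6 (.p4
    8 3 6 0 5 1) (.p2 7 1 2 8 5 3))))))))) (.rf 1) (.gap (.rf 1))) (.rf 1) (.cmp 5 (.gap (.rf
    1)) (.rf 1) (.gap (.rf 1)))) (.rf 1) (.cmp 4 (.cmp 6 (.gap (.rf 1)) (.rf 1) (.gap (.rf 1)))
    (.rf 1) (.cmp 3 (.gap (.rf 1)) (.rf 1) (.gap (.rf 24))))))))) (.ru 15 (.lc 2 4 6 3 (.p3 2 3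
    0 5 4 6) (.k4 0 5 2 3))) (.gap (.ru 15 (.ru 17 (.lc 2 4 6 3 (.lc 0 2 5 3 (.k4 2 4 6 3) (.p3
    2 3 0 5 4 6)) (.lc 5 4 7 3 (.k4 2 4 6 3) (.lc 0 2 7 4 (.k4 0 2 7 3) (.p2 5 2 4 0 3
    1))))))))) (.ru 17 (.cmp 2 (.cmp 1 (.cmp 0 .mn (.ru 18 (.k4 0 5 1 3)) (.gap (.ru 14 (.ru 16
    (.ru 18 (.ru 20 (.lc 0 5 8 2 (.k4 0 5 2 3) (.p2 8 3 6 2 1 5)))))))) (.rf 1) (.cmp 5 (.gap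
    (.rf 1)) (.rf 1) (.gap (.rf 1)))) (.rf 1) (.cmp 4 (.cmp 6 (.gap (.rf 1)) (.rf 1) (.gap (.rf
    1))) (.rf 1) (.cmp 3 (.gap (.rf 1)) (.rf 1) (.gap (.rf 5)))))) (.cmp 4 (.cmp 6 (.gap (.ru 15
    (.ru 17 (.cmp 7 (.cmp 5 (.cmp 1 (.cmp 0 .mn (.rf 4) (.gap (.ru 14 (.ru 16 (.ru 18 (.lc 0 5 8
    6 (.rf 6) (.lc 0 5 8 7 (.p4 8 3 6 0 5 1) (.lc 0 2 8 7 (.p4 8 3 7 0 5 1) (.p4 7 6 3 0 2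
    8))))))))) (.rf 1) (.gap (.rf 1))) (.rf 1) (.cmp 2 (.gap (.rf 1)) (.rf 1) (.gap (.rf 1))))
    (.rf 1) (.cmp 4 (.cmp 6 (.gap (.rf 1)) (.rf 1) (.gap (.rf 1))) (.rf 1) (.cmp 3 (.gap (.rf
    1)) (.rf 1) (.gap (.rf 4)))))))) (.cmp 2 (.cmp 1 (.cmp 0 .mn (.rf 4) (.gap (.ru 14 (.ru 18
    (.lc 0 5 8 6 (.rf 6) (.th 8 5 1 2 (.lc 0 2 8 6 (.p4 8 3 6 0 5 1) (.lc 0 2 5 3 (.k4 0 2 6 3)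
    (.k4 8 5 1 2))))))))) (.rf 1) (.cmp 5 (.gap (.rf 1)) (.rf 1) (.gap (.rf 1)))) (.rf 1) (.cmp
    4 (.cmp 6 (.gap (.rf 1)) (.rf 1) (.gap (.rf 1))) (.rf 1) (.cmp 3 (.gap (.rf 1)) (.rf 1)
    (.gap (.rf 4))))) (.gap (.ru 15 (.ru 17 (.cmp 6 (.cmp 5 (.cmp 1 (.cmp 0 .mn (.rf 4) (.gap
    (.ru 14 (.ru 16 (.ru 18 (.lc 0 5 8 6 (.rf 6) (.lc 0 5 8 7 (.p4 8 3 6 0 5 1) (.lc 0 2 8 6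
    (.p4 8 3 6 0 5 1) (.p4 6 7 3 0 2 8))))))))) (.rf 1) (.gap (.rf 1))) (.rf 1) (.cmp 2 (.gap
    (.rf 1)) (.rf 1) (.gap (.rf 1)))) (.rf 1) (.cmp 4 (.cmp 7 (.gap (.rf 1)) (.rf 1) (.gap (.rf
    1))) (.rf 1) (.cmp 3 (.gap (.rf 1)) (.rf 1) (.gap (.rf 4))))))))) (.ru 17 (.lc 0 2 5 3 (.k4
    2 4 6 3) (.p3 2 3 0 5 4 6))) (.cmp 3 (.gap (.ru 15 (.ru 17 (.th 2 7 5 4 (.lc 0 2 5 3 (.lc 5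
    4 2 7 (.k4 0 5 2 3) (.lc 5 7 6 3 (.rf 6) (.k4 2 7 6 3))) (.lc 2 4 6 3 (.p3 2 3 0 5 4 6) (.k4
    0 5 2 3))))))) (.ru 17 (.eq 3 3)) (.gap (.cmp 6 (.cmp 5 (.cmp 1 (.cmp 0 .mn (.rf 1) (.gap
    (.rf 1))) (.rf 1) (.gap (.rf 24))) (.rf 24) (.cmp 2 (.gap (.ru 14 (.ru 16 (.ru 18 (.lc 0 5 1
    8 (.k4 0 5 1 3) (.lc 5 4 8 7 (.lc 0 2 5 3 (.p2 0 1 8 5 3 2) (.lc 0 8 5 4 (.p3 8 2 0 5 4 6)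
    (.k4 0 5 2 4))) (.rf 21))))))) (.rf 4) (.gap (.rf 4)))) (.rf 4) (.cmp 3 (.cmp 4 (.gap (.rf
    4)) (.rf 4) (.gap (.rf 4))) (.rf 1) (.cmp 7 (.gap (.rf 1)) (.rf 1) (.gap (.rf
    1))))))))))))))) (.rf 6) (.gap (.ru 12 (.ru 13 (.th 2 6 5 4 (.lc 5 4 2 6 (.cmp 2 (.cmp 1
    (.cmp 0 .mn (.cmp 2 (.cmp 1 (.cmp 0 .mn (.rf 1) (.gap (.rf 1))) (.rf 1) (.cmp 5 (.gap (.ru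
    14 (.ru 16 (.ru 18 (.ru 20 (.lc 0 5 8 6 (.rf 6) (.p2 8 2 6 0 5 1))))))) (.ru 14 (.rf 6))
    (.gap (.ru 16 (.lc 0 8 5 4 (.rf 21) (.k4 0 5 2 4)))))) (.rf 21) (.cmp 6 (.cmp 4 (.gap (.rf
    5)) (.rf 5) (.gap (.rf 5))) (.rf 5) (.cmp 3 (.gap (.rf 5)) (.rf 1) (.gap (.rf 1))))) (.gap
    (.ru 15 (.ru 17 (.lc 0 5 7 3 (.p4 2 3 7 0 5 1) (.cmp 2 (.cmp 1 (.cmp 7 (.cmp 0 .mn (.rf 1)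
    (.gap (.rf 1))) (.rf 1) (.gap (.rf 1))) (.rf 1) (.cmp 5 (.gap (.ru 14 (.ru 16 (.ru 20 (.lc 0
    5 8 6 (.rf 6) (.lc 0 2 8 6 (.p4 8 2 6 0 5 7) (.k4 7 8 5 2))))))) (.ru 14 (.rf 6)) (.gap (.ru
    16 (.lc 0 5 7 8 (.k4 0 5 7 2) (.lc 0 8 5 4 (.rf 21) (.k4 0 5 2 4))))))) (.rf 21) (.cmp 6
    (.cmp 4 (.gap (.ru 16 (.lc 0 5 7 8 (.k4 0 5 7 2) (.lc 0 8 5 4 (.rf 21) (.k4 0 5 2 4)))))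
    (.rf 24) (.gap (.rf 24))) (.rf 24) (.cmp 3 (.gap (.rf 24)) (.rf 1) (.gap (.rf 1))))))))))
    (.cmp 2 (.cmp 1 (.cmp 0 .mn (.rf 1) (.gap (.rf 1))) (.rf 1) (.cmp 5 (.gap (.rf 1)) (.rf 1)
    (.gap (.rf 1)))) (.rf 1) (.cmp 6 (.cmp 4 (.gap (.rf 1)) (.rf 1) (.gap (.rf 1))) (.rf 1)
    (.cmp 3 (.gap (.rf 1)) (.rf 1) (.gap (.rf 1))))) (.cmp 5 (.gap (.cmp 2 (.cmp 7 (.cmp 1 (.cmp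
    0 .mn (.ru 18 (.k4 0 5 1 2)) (.gap (.ru 14 (.ru 18 (.lc 0 5 8 6 (.rf 6) (.th 8 5 1 2 (.lc 0
    2 8 6 (.p4 8 2 6 0 5 1) (.k4 8 5 1 2)))))))) (.rf 1) (.gap (.rf 1))) (.rf 1) (.cmp 5 (.gap
    (.rf 1)) (.rf 1) (.gap (.rf 1)))) (.rf 1) (.cmp 6 (.cmp 4 (.gap (.rf 1)) (.rf 1) (.gap (.rf
    1))) (.rf 1) (.cmp 3 (.gap (.rf 1)) (.rf 1) (.gap (.rf 24)))))) (.ru 17 (.cmp 2 (.cmp 1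
    (.cmp 0 .mn (.ru 18 (.k4 0 5 1 2)) (.gap (.ru 14 (.lc 0 5 8 6 (.rf 6) (.p2 5 6 3 0 2 4)))))
    (.rf 1) (.cmp 5 (.gap (.rf 1)) (.rf 1) (.gap (.rf 1)))) (.rf 1) (.cmp 6 (.cmp 4 (.gap (.rf
    1)) (.rf 1) (.gap (.rf 1))) (.rf 1) (.cmp 3 (.gap (.rf 1)) (.rf 1) (.gap (.rf 24)))))) (.gap
    (.ru 15 (.ru 17 (.lc 5 4 7 3 (.lc 5 2 7 3 (.k4 2 6 4 3) (.p3 2 3 0 5 4 6)) (.lc 0 2 7 4 (.p2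
    5 7 3 0 2 4) (.k4 0 5 2 4)))))))) (.ru 17 (.lc 5 4 2 3 (.k4 2 6 4 3) (.k4 0 5 2 3))) (.cmp 6
    (.cmp 4 (.gap (.ru 15 (.ru 17 (.lc 5 4 7 3 (.th 5 7 0 2 (.lc 5 7 2 6 (.p1 7 4 5 2 6 3) (.rf
    6))) (.lc 2 4 7 3 (.p3 2 3 0 5 4 7) (.k4 0 5 2 3)))))) (.cmp 2 (.cmp 1 (.cmp 0 .mn (.rf 4)
    (.gap (.rf 24))) (.rf 1) (.cmp 5 (.gap (.rf 1)) (.rf 1) (.gap (.rf 1)))) (.rf 1) (.cmp 6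
    (.cmp 4 (.gap (.rf 1)) (.rf 1) (.gap (.rf 1))) (.rf 1) (.cmp 3 (.gap (.rf 1)) (.rf 1) (.gap
    (.rf 4))))) (.gap (.cmp 4 (.cmp 5 (.cmp 1 (.cmp 0 .mn (.rf 4) (.gap (.rf 24))) (.rf 1) (.gap
    (.rf 1))) (.rf 1) (.cmp 2 (.gap (.rf 1)) (.rf 1) (.gap (.rf 1)))) (.rf 1) (.cmp 6 (.cmp 7
    (.gap (.rf 1)) (.rf 1) (.gap (.rf 1))) (.rf 1) (.cmp 3 (.gap (.rf 1)) (.rf 1) (.gap (.rf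
    4))))))) (.cmp 2 (.cmp 1 (.cmp 0 .mn (.rf 4) (.gap (.rf 24))) (.rf 1) (.cmp 5 (.gap (.rf 1))
    (.rf 1) (.gap (.rf 1)))) (.rf 1) (.cmp 6 (.cmp 4 (.gap (.rf 1)) (.rf 1) (.gap (.rf 1))) (.rf
    1) (.cmp 3 (.gap (.rf 1)) (.rf 1) (.gap (.rf 4))))) (.cmp 3 (.gap (.cmp 4 (.cmp 5 (.cmp 1
    (.cmp 0 .mn (.rf 4) (.gap (.rf 24))) (.rf 1) (.gap (.rf 1))) (.rf 1) (.cmp 2 (.gap (.rf 1))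
    (.rf 1) (.gap (.rf 1)))) (.rf 1) (.cmp 7 (.cmp 6 (.gap (.rf 1)) (.rf 1) (.gap (.rf 1))) (.rf
    1) (.cmp 3 (.gap (.rf 1)) (.rf 1) (.gap (.rf 4)))))) (.ru 17 (.eq 3 3)) (.gap (.cmp 4 (.cmp
    5 (.cmp 1 (.cmp 0 .mn (.rf 1) (.gap (.rf 1))) (.rf 1) (.gap (.rf 24))) (.rf 24) (.cmp 2
    (.gap (.ru 14 (.ru 18 (.lc 0 5 1 8 (.k4 0 5 1 2) (.lc 0 8 5 4 (.th 8 4 0 2 (.lc 0 8 5 2 (.k4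
    8 4 2 6) (.p3 8 2 0 5 4 6))) (.k4 0 5 2 4)))))) (.rf 4) (.gap (.rf 4)))) (.rf 4) (.cmp 3
    (.cmp 6 (.gap (.rf 4)) (.rf 4) (.gap (.rf 4))) (.rf 1) (.cmp 7 (.gap (.rf 1)) (.rf 1) (.gap
    (.rf 1))))))))) (.rf 6))))))) (.ru 13 (.th 2 3 5 4 (.lc 5 4 2 3 (.cmp 2 (.cmp 1 (.cmp 0 .mn
    (.cmp 2 (.cmp 1 (.cmp 0 .mn (.rf 1) (.gap (.rf 1))) (.rf 1) (.cmp 5 (.gap (.ru 14 (.ru 16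
    (.ru 18 (.ru 20 (.p1 0 1 8 3 2 5)))))) (.ru 14 (.rf 6)) (.gap (.ru 14 (.ru 16 (.ru 18 (.p1 0
    1 5 2 3 8))))))) (.rf 21) (.cmp 3 (.cmp 4 (.gap (.rf 5)) (.rf 5) (.gap (.rf 5))) (.rf 1)
    (.gap (.rf 1)))) (.gap (.ru 15 (.ru 17 (.lc 0 5 7 2 (.k4 0 2 7 3) (.th 7 5 1 2 (.cmp 5 (.cmp
    7 (.cmp 0 .mn (.rf 1) (.gap (.rf 1))) (.rf 1) (.cmp 1 (.gap (.rf 1)) (.rf 1) (.gap (.ru 14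
    (.ru 16 (.ru 18 (.ru 20 (.p1 7 1 8 3 2 5)))))))) (.ru 14 (.rf 6)) (.cmp 4 (.cmp 2 (.gap (.ru
    14 (.ru 16 (.ru 18 (.p1 7 1 5 2 3 8))))) (.rf 21) (.gap (.ru 14 (.ru 16 (.ru 18 (.p1 7 1 5 2
    3 8)))))) (.rf 24) (.cmp 3 (.gap (.rf 24)) (.rf 1) (.gap (.rf 1))))))))))) (.cmp 2 (.cmp 1
    (.cmp 0 .mn (.rf 1) (.gap (.rf 1))) (.rf 1) (.cmp 5 (.gap (.rf 1)) (.rf 1) (.gap (.rf 1))))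
    (.rf 1) (.cmp 3 (.cmp 4 (.gap (.rf 1)) (.rf 1) (.gap (.rf 1))) (.rf 1) (.gap (.rf 1))))
    (.cmp 5 (.gap (.ru 15 (.ru 17 (.lc 0 5 7 2 (.k4 0 2 7 3) (.cmp 5 (.cmp 1 (.cmp 0 .mn (.ru 18
    (.k4 0 5 1 2)) (.gap (.ru 14 (.ru 16 (.ru 18 (.ru 20 (.p1 7 1 8 3 2 5))))))) (.rf 1) (.cmp 7
    (.gap (.rf 1)) (.rf 1) (.gap (.rf 1)))) (.rf 1) (.cmp 4 (.cmp 2 (.gap (.rf 1)) (.rf 1) (.gap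
    (.rf 1))) (.rf 1) (.cmp 3 (.gap (.rf 1)) (.rf 1) (.gap (.rf 24))))))))) (.ru 17 (.rf 6))
    (.gap (.ru 15 (.ru 17 (.lc 5 2 7 3 (.cmp 7 (.cmp 1 (.cmp 0 .mn (.ru 18 (.k4 0 5 1 2)) (.gap
    (.ru 14 (.ru 16 (.ru 18 (.ru 20 (.p1 7 1 8 3 2 5))))))) (.rf 1) (.cmp 5 (.gap (.rf 1)) (.rf
    1) (.gap (.rf 1)))) (.rf 1) (.cmp 4 (.cmp 2 (.gap (.rf 1)) (.rf 1) (.gap (.rf 1))) (.rf 1)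
    (.cmp 3 (.gap (.rf 1)) (.rf 1) (.gap (.ru 14 (.ru 16 (.ru 18 (.p2 1 7 5 2 3 8)))))))) (.rf
    6))))))) (.cmp 2 (.cmp 1 (.cmp 0 .mn (.ru 18 (.k4 0 5 1 2)) (.gap (.ru 14 (.ru 16 (.ru 18
    (.ru 20 (.k4 8 2 1 3))))))) (.rf 1) (.cmp 5 (.gap (.rf 1)) (.rf 1) (.gap (.rf 1)))) (.rf 1)
    (.cmp 3 (.cmp 4 (.gap (.rf 1)) (.rf 1) (.gap (.rf 1))) (.rf 1) (.gap (.rf 5)))) (.cmp 3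
    (.cmp 4 (.gap (.ru 15 (.ru 17 (.lc 5 4 7 3 (.cmp 2 (.cmp 1 (.cmp 0 .mn (.rf 4) (.gap (.ru 14
    (.ru 16 (.ru 18 (.ru 20 (.p1 7 1 8 3 2 5))))))) (.rf 1) (.cmp 5 (.gap (.rf 1)) (.rf 1) (.gap
    (.rf 1)))) (.rf 1) (.cmp 4 (.cmp 7 (.gap (.rf 1)) (.rf 1) (.gap (.rf 1))) (.rf 1) (.cmp 3
    (.gap (.rf 1)) (.rf 1) (.gap (.rf 4))))) (.rf 6))))) (.cmp 2 (.cmp 1 (.cmp 0 .mn (.rf 4)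
    (.gap (.rf 24))) (.rf 1) (.cmp 5 (.gap (.rf 1)) (.rf 1) (.gap (.rf 1)))) (.rf 1) (.cmp 3
    (.cmp 4 (.gap (.rf 1)) (.rf 1) (.gap (.rf 1))) (.rf 1) (.gap (.rf 4)))) (.gap (.cmp 2 (.cmp
    1 (.cmp 0 .mn (.rf 4) (.gap (.rf 24))) (.rf 1) (.cmp 5 (.gap (.rf 1)) (.rf 1) (.gap (.rf
    1)))) (.rf 1) (.cmp 7 (.cmp 4 (.gap (.rf 1)) (.rf 1) (.gap (.rf 1))) (.rf 1) (.cmp 3 (.gap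
    (.rf 1)) (.rf 1) (.gap (.rf 4))))))) (.ru 17 (.eq 3 3)) (.gap (.ru 15 (.ru 17 (.lc 5 4 2 7
    (.k4 2 3 4 7) (.cmp 2 (.cmp 1 (.cmp 0 .mn (.rf 1) (.gap (.rf 1))) (.rf 1) (.cmp 5 (.gap (.rf
    24)) (.rf 24) (.gap (.ru 14 (.ru 16 (.ru 18 (.th 1 8 0 5 (.p1 1 7 8 3 2 5)))))))) (.rf 4)
    (.cmp 3 (.cmp 4 (.gap (.rf 4)) (.rf 4) (.gap (.rf 4))) (.rf 1) (.cmp 7 (.gap (.rf 1)) (.rf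
    1) (.gap (.rf 1))))))))))) (.rf 6)))) (.gap (.ru 12 (.ru 13 (.lc 5 4 2 6 (.lc 0 3 4 6 (.k4 0
    5 2 4) (.p1 0 4 5 2 6 3)) (.rf 6))))))))))))))) (.rf 0) (.cmp 3 (.cmp 4 (.gap (.rf 0)) (.rf
    0) (.gap (.rf 0))) (.rf 0) (.gap (.rf 0)))))) (.ru 10 (.cmp 2 (.cmp 1 (.cmp 0 .mn (.rf 0)
    (.gap (.rf 2))) (.ru 9 (.k4 0 2 1 3)) (.gap (.ru 8 (.ru 9 (.ru 11 (.ru 19 (.th 0 5 1 3 (.th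
    1 2 5 3 (.cmp 5 (.cmp 1 (.cmp 0 .mn (.rf 6) (.gap (.ru 12 (.ru 13 (.lc 0 5 6 2 (.k4 0 2 6 3)
    (.rf 6)))))) (.rf 6) (.gap (.ru 12 (.ru 13 (.lc 0 5 6 2 (.k4 0 2 6 3) (.rf 6)))))) (.rf 7)
    (.cmp 3 (.cmp 2 (.gap (.ru 12 (.ru 13 (.cmp 6 (.cmp 1 (.cmp 0 .mn (.cmp 6 (.cmp 1 (.cmp 0
    .mn (.rf 1) (.gap (.rf 1))) (.rf 1) (.cmp 5 (.gap (.ru 14 (.lc 0 5 8 6 (.rf 6) (.k4 0 2 6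
    3)))) (.ru 14 (.rf 6)) (.gap (.ru 16 (.ru 18 (.lc 0 8 5 3 (.rf 21) (.p2 0 1 8 5 3 2)))))))
    (.rf 21) (.cmp 3 (.cmp 2 (.gap (.ru 16 (.ru 18 (.lc 0 8 5 3 (.rf 21) (.p2 0 1 8 5 3 2)))))
    (.rf 21) (.gap (.rf 5))) (.rf 1) (.gap (.rf 1)))) (.gap (.ru 15 (.ru 17 (.lc 0 5 7 2 (.k4 0
    2 7 3) (.cmp 5 (.cmp 7 (.cmp 0 .mn (.rf 1) (.gap (.rf 1))) (.rf 1) (.cmp 1 (.gap (.rf 1))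
    (.rf 1) (.gap (.ru 14 (.lc 0 5 8 6 (.rf 6) (.k4 0 2 6 3)))))) (.ru 14 (.rf 6)) (.cmp 2 (.cmp
    6 (.gap (.ru 16 (.lc 0 5 7 8 (.k4 0 5 7 3) (.lc 0 8 5 3 (.rf 21) (.p2 0 7 8 5 3 2))))) (.rf
    21) (.gap (.ru 16 (.lc 0 5 7 8 (.k4 0 5 7 3) (.lc 0 8 5 3 (.rf 21) (.p2 0 7 8 5 3 2))))))
    (.rf 21) (.cmp 3 (.gap (.ru 16 (.lc 0 5 7 8 (.k4 0 5 7 3) (.lc 0 8 5 3 (.rf 21) (.p2 0 7 8 5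
    3 2))))) (.rf 1) (.gap (.rf 1)))))))))) (.cmp 6 (.cmp 1 (.cmp 0 .mn (.rf 1) (.gap (.rf 1)))
    (.rf 1) (.cmp 5 (.gap (.rf 1)) (.rf 1) (.gap (.rf 1)))) (.rf 1) (.cmp 3 (.cmp 2 (.gap (.rf
    1)) (.rf 1) (.gap (.rf 1))) (.rf 1) (.gap (.rf 1)))) (.cmp 5 (.gap (.cmp 5 (.cmp 1 (.cmp 0
    .mn (.ru 18 (.k4 0 5 1 3)) (.gap (.ru 14 (.lc 0 5 8 6 (.rf 6) (.k4 0 2 6 3))))) (.rf 1)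
    (.cmp 7 (.gap (.rf 1)) (.rf 1) (.gap (.rf 1)))) (.rf 1) (.cmp 2 (.cmp 6 (.gap (.rf 1)) (.rf
    1) (.gap (.rf 1))) (.rf 1) (.cmp 3 (.gap (.rf 1)) (.rf 1) (.gap (.rf 24)))))) (.ru 15 (.k4 0
    5 2 3)) (.gap (.cmp 7 (.cmp 1 (.cmp 0 .mn (.ru 18 (.k4 0 5 1 3)) (.gap (.ru 14 (.lc 0 5 8 6
    (.rf 6) (.k4 0 2 6 3))))) (.rf 1) (.cmp 5 (.gap (.rf 1)) (.rf 1) (.gap (.rf 1)))) (.rf 1)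
    (.cmp 2 (.cmp 6 (.gap (.rf 1)) (.rf 1) (.gap (.rf 1))) (.rf 1) (.cmp 3 (.gap (.rf 1)) (.rf
    1) (.gap (.ru 14 (.ru 16 (.ru 18 (.lc 0 5 1 8 (.k4 0 5 1 3) (.lc 5 3 7 8 (.lc 5 3 6 8 (.rf
    6) (.k4 0 5 3 8)) (.p2 0 1 8 5 3 2))))))))))))) (.cmp 6 (.cmp 1 (.cmp 0 .mn (.ru 18 (.k4 0 5
    1 3)) (.gap (.ru 14 (.lc 0 5 8 6 (.rf 6) (.k4 0 2 6 3))))) (.rf 1) (.cmp 5 (.gap (.rf 1))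
    (.rf 1) (.gap (.rf 1)))) (.rf 1) (.cmp 3 (.cmp 2 (.gap (.rf 1)) (.rf 1) (.gap (.rf 1))) (.rf
    1) (.gap (.ru 14 (.ru 18 (.lc 0 5 1 8 (.k4 0 5 1 3) (.lc 5 3 6 8 (.rf 6) (.p2 0 1 8 5 3
    2)))))))) (.cmp 3 (.cmp 2 (.gap (.cmp 6 (.cmp 1 (.cmp 0 .mn (.ru 18 (.k4 0 5 1 3)) (.gap
    (.ru 14 (.lc 0 5 8 6 (.rf 6) (.k4 0 2 6 3))))) (.rf 1) (.cmp 5 (.gap (.rf 1)) (.rf 1) (.gap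
    (.rf 1)))) (.rf 1) (.cmp 2 (.cmp 7 (.gap (.rf 1)) (.rf 1) (.gap (.rf 1))) (.rf 1) (.cmp 3
    (.gap (.rf 1)) (.rf 1) (.gap (.ru 14 (.ru 18 (.lc 0 5 1 8 (.k4 0 5 1 3) (.lc 5 3 6 8 (.rf 6)
    (.p2 0 1 8 5 3 2)))))))))) (.cmp 6 (.cmp 1 (.cmp 0 .mn (.ru 18 (.k4 0 5 1 3)) (.gap (.ru 14
    (.lc 0 5 8 6 (.rf 6) (.k4 0 2 6 3))))) (.rf 1) (.cmp 5 (.gap (.rf 1)) (.rf 1) (.gap (.rf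
    1)))) (.rf 1) (.cmp 3 (.cmp 2 (.gap (.rf 1)) (.rf 1) (.gap (.rf 1))) (.rf 1) (.gap (.rf
    5)))) (.gap (.cmp 6 (.cmp 1 (.cmp 0 .mn (.rf 4) (.gap (.ru 14 (.lc 0 5 8 6 (.rf 6) (.k4 0 2
    6 3))))) (.rf 1) (.cmp 5 (.gap (.rf 1)) (.rf 1) (.gap (.rf 1)))) (.rf 1) (.cmp 7 (.cmp 2
    (.gap (.rf 1)) (.rf 1) (.gap (.rf 1))) (.rf 1) (.cmp 3 (.gap (.rf 1)) (.rf 1) (.gap (.rf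
    4))))))) (.ru 17 (.eq 3 3)) (.gap (.ru 15 (.lc 5 3 2 7 (.k4 0 5 2 3) (.cmp 6 (.cmp 1 (.cmp 0
    .mn (.rf 1) (.gap (.rf 1))) (.rf 1) (.cmp 5 (.gap (.rf 24)) (.rf 24) (.gap (.ru 18 (.lc 0 5
    1 8 (.k4 0 5 1 3) (.lc 0 8 5 3 (.rf 21) (.p2 0 1 8 5 3 2))))))) (.rf 21) (.cmp 3 (.cmp 2
    (.gap (.ru 18 (.lc 0 5 1 8 (.k4 0 5 1 3) (.lc 0 8 5 3 (.rf 21) (.p2 0 1 8 5 3 2))))) (.rf 4)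
    (.gap (.rf 4))) (.rf 1) (.cmp 7 (.gap (.rf 1)) (.rf 1) (.gap (.rf 1))))))))))))) (.cmp 5
    (.cmp 1 (.cmp 0 .mn (.cmp 5 (.cmp 1 (.cmp 0 .mn (.rf 1) (.gap (.rf 1))) (.rf 1) (.gap (.ru
    14 (.ru 16 (.ru 18 (.ru 20 (.p1 0 1 8 2 3 5))))))) (.ru 14 (.rf 6)) (.cmp 3 (.cmp 2 (.gap
    (.ru 14 (.ru 16 (.ru 18 (.p1 0 1 5 3 2 8))))) (.rf 21) (.gap (.rf 5))) (.rf 1) (.gap (.rf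
    1)))) (.gap (.ru 15 (.ru 17 (.lc 0 5 7 2 (.rf 6) (.th 7 5 1 2 (.cmp 5 (.cmp 7 (.cmp 0 .mn
    (.rf 1) (.gap (.rf 1))) (.rf 1) (.cmp 1 (.gap (.rf 1)) (.rf 1) (.gap (.ru 14 (.ru 16 (.ru 18
    (.ru 20 (.p1 7 1 8 2 3 5)))))))) (.ru 14 (.rf 6)) (.cmp 3 (.cmp 2 (.gap (.ru 14 (.ru 16 (.ru
    18 (.p1 7 1 5 3 2 8))))) (.rf 21) (.gap (.ru 14 (.ru 16 (.ru 18 (.p1 7 1 5 3 2 8)))))) (.rf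
    1) (.gap (.rf 1)))))))))) (.cmp 5 (.cmp 1 (.cmp 0 .mn (.rf 1) (.gap (.rf 1))) (.rf 1) (.gap
    (.rf 1))) (.rf 1) (.cmp 3 (.cmp 2 (.gap (.rf 1)) (.rf 1) (.gap (.rf 1))) (.rf 1) (.gap (.rf
    1)))) (.gap (.ru 15 (.ru 17 (.lc 0 5 7 2 (.rf 6) (.cmp 5 (.cmp 1 (.cmp 0 .mn (.ru 18 (.k4 0
    5 1 3)) (.gap (.ru 14 (.ru 16 (.ru 18 (.ru 20 (.p1 7 1 8 2 3 5))))))) (.rf 1) (.cmp 7 (.gap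
    (.rf 1)) (.rf 1) (.gap (.rf 1)))) (.rf 1) (.cmp 3 (.cmp 2 (.gap (.rf 1)) (.rf 1) (.gap (.rf
    1))) (.rf 1) (.gap (.rf 24))))))))) (.ru 15 (.rf 6)) (.cmp 3 (.cmp 2 (.gap (.ru 15 (.ru 17
    (.cmp 7 (.cmp 1 (.cmp 0 .mn (.ru 18 (.k4 0 5 1 3)) (.gap (.ru 14 (.ru 16 (.ru 18 (.lc 0 5 8
    7 (.p1 0 1 5 3 2 8) (.k4 0 2 7 3))))))) (.rf 1) (.cmp 5 (.gap (.rf 1)) (.rf 1) (.gap (.rf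
    1)))) (.rf 1) (.cmp 3 (.cmp 2 (.gap (.rf 1)) (.rf 1) (.gap (.rf 1))) (.rf 1) (.gap (.ru 14
    (.ru 18 (.lc 0 5 1 8 (.k4 0 5 1 3) (.p1 0 1 5 3 2 8)))))))))) (.cmp 5 (.cmp 1 (.cmp 0 .mn
    (.ru 18 (.k4 0 5 1 3)) (.gap (.ru 14 (.ru 18 (.lc 0 5 8 2 (.rf 6) (.p1 5 2 0 3 1 8))))))
    (.rf 1) (.gap (.rf 1))) (.rf 1) (.cmp 3 (.cmp 2 (.gap (.rf 1)) (.rf 1) (.gap (.rf 1))) (.rf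
    1) (.gap (.rf 5)))) (.gap (.ru 15 (.ru 17 (.cmp 2 (.cmp 1 (.cmp 0 .mn (.rf 4) (.gap (.ru 14
    (.ru 16 (.ru 18 (.th 8 2 0 5 (.lc 0 5 8 2 (.rf 6) (.p2 8 3 7 2 1 5)))))))) (.rf 1) (.cmp 5
    (.gap (.rf 1)) (.rf 1) (.gap (.rf 1)))) (.rf 1) (.cmp 3 (.cmp 7 (.gap (.rf 1)) (.rf 1) (.gap
    (.rf 1))) (.rf 1) (.gap (.rf 4)))))))) (.ru 17 (.eq 3 3)) (.gap (.ru 15 (.ru 17 (.lc 5 3 2 7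
    (.rf 6) (.cmp 2 (.cmp 1 (.cmp 0 .mn (.rf 1) (.gap (.rf 1))) (.rf 1) (.cmp 5 (.gap (.rf 24))
    (.rf 24) (.gap (.ru 14 (.ru 16 (.ru 18 (.th 1 8 0 5 (.p1 1 7 8 2 3 5)))))))) (.rf 4) (.cmp 7
    (.cmp 3 (.gap (.rf 4)) (.rf 1) (.gap (.rf 1))) (.rf 1) (.gap (.rf 1)))))))))) (.gap (.ru 12
    (.ru 13 (.cmp 2 (.cmp 1 (.cmp 0 .mn (.cmp 2 (.cmp 1 (.cmp 0 .mn (.rf 1) (.gap (.rf 1))) (.rf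
    1) (.cmp 5 (.gap (.ru 14 (.lc 0 5 8 6 (.rf 6) (.k4 0 2 6 3)))) (.ru 14 (.rf 6)) (.gap (.ru
    16 (.ru 18 (.lc 0 8 5 3 (.rf 21) (.p2 0 1 8 5 3 2))))))) (.rf 21) (.cmp 3 (.cmp 6 (.gap (.rf
    5)) (.rf 5) (.gap (.rf 5))) (.rf 1) (.gap (.rf 1)))) (.gap (.ru 15 (.ru 17 (.lc 0 5 7 2 (.k4
    0 2 7 3) (.cmp 5 (.cmp 7 (.cmp 0 .mn (.rf 1) (.gap (.rf 1))) (.rf 1) (.cmp 1 (.gap (.rf 1))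
    (.rf 1) (.gap (.ru 14 (.lc 0 5 8 6 (.rf 6) (.k4 0 2 6 3)))))) (.ru 14 (.rf 6)) (.cmp 6 (.cmp
    2 (.gap (.ru 16 (.lc 0 5 7 8 (.k4 0 5 7 3) (.lc 0 8 5 3 (.rf 21) (.p2 0 7 8 5 3 2))))) (.rf
    21) (.gap (.ru 16 (.lc 0 5 7 8 (.k4 0 5 7 3) (.lc 0 8 5 3 (.rf 21) (.p2 0 7 8 5 3 2))))))
    (.rf 21) (.cmp 3 (.gap (.ru 16 (.lc 0 5 7 8 (.k4 0 5 7 3) (.lc 0 8 5 3 (.rf 21) (.p2 0 7 8 5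
    3 2))))) (.rf 1) (.gap (.rf 1)))))))))) (.cmp 2 (.cmp 1 (.cmp 0 .mn (.rf 1) (.gap (.rf 1)))
    (.rf 1) (.cmp 5 (.gap (.rf 1)) (.rf 1) (.gap (.rf 1)))) (.rf 1) (.cmp 3 (.cmp 6 (.gap (.rf
    1)) (.rf 1) (.gap (.rf 1))) (.rf 1) (.gap (.rf 1)))) (.cmp 5 (.gap (.cmp 5 (.cmp 1 (.cmp 0
    .mn (.ru 18 (.k4 0 5 1 3)) (.gap (.ru 14 (.lc 0 5 8 6 (.rf 6) (.k4 0 2 6 3))))) (.rf 1)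
    (.cmp 7 (.gap (.rf 1)) (.rf 1) (.gap (.rf 1)))) (.rf 1) (.cmp 6 (.cmp 2 (.gap (.rf 1)) (.rf
    1) (.gap (.rf 1))) (.rf 1) (.cmp 3 (.gap (.rf 1)) (.rf 1) (.gap (.rf 24)))))) (.ru 15 (.k4 0
    5 2 3)) (.gap (.cmp 7 (.cmp 1 (.cmp 0 .mn (.ru 18 (.k4 0 5 1 3)) (.gap (.ru 14 (.lc 0 5 8 6
    (.rf 6) (.k4 0 2 6 3))))) (.rf 1) (.cmp 5 (.gap (.rf 1)) (.rf 1) (.gap (.rf 1)))) (.rf 1)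
    (.cmp 6 (.cmp 2 (.gap (.rf 1)) (.rf 1) (.gap (.rf 1))) (.rf 1) (.cmp 3 (.gap (.rf 1)) (.rf
    1) (.gap (.ru 14 (.ru 16 (.ru 18 (.lc 0 5 1 8 (.k4 0 5 1 3) (.lc 5 3 7 8 (.lc 5 3 6 8 (.rf
    6) (.k4 0 5 3 8)) (.p2 0 1 8 5 3 2))))))))))))) (.cmp 2 (.cmp 1 (.cmp 0 .mn (.ru 18 (.k4 0 5
    1 3)) (.gap (.ru 14 (.ru 16 (.ru 18 (.ru 20 (.lc 0 5 8 2 (.k4 0 5 2 3) (.p2 8 3 6 2 1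
    5)))))))) (.rf 1) (.cmp 5 (.gap (.rf 1)) (.rf 1) (.gap (.rf 1)))) (.rf 1) (.cmp 3 (.cmp 6
    (.gap (.rf 1)) (.rf 1) (.gap (.rf 1))) (.rf 1) (.gap (.rf 5)))) (.cmp 3 (.cmp 6 (.gap (.cmp
    2 (.cmp 1 (.cmp 0 .mn (.rf 4) (.gap (.ru 14 (.lc 0 5 8 6 (.rf 6) (.k4 0 2 6 3))))) (.rf 1)
    (.cmp 5 (.gap (.rf 1)) (.rf 1) (.gap (.rf 1)))) (.rf 1) (.cmp 6 (.cmp 7 (.gap (.rf 1)) (.rf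
    1) (.gap (.rf 1))) (.rf 1) (.cmp 3 (.gap (.rf 1)) (.rf 1) (.gap (.rf 4)))))) (.cmp 2 (.cmp 1
    (.cmp 0 .mn (.rf 4) (.gap (.ru 14 (.lc 0 5 8 6 (.rf 6) (.k4 0 2 6 3))))) (.rf 1) (.cmp 5
    (.gap (.rf 1)) (.rf 1) (.gap (.rf 1)))) (.rf 1) (.cmp 3 (.cmp 6 (.gap (.rf 1)) (.rf 1) (.gap
    (.rf 1))) (.rf 1) (.gap (.rf 4)))) (.gap (.cmp 2 (.cmp 1 (.cmp 0 .mn (.rf 4) (.gap (.ru 14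
    (.lc 0 5 8 6 (.rf 6) (.k4 0 2 6 3))))) (.rf 1) (.cmp 5 (.gap (.rf 1)) (.rf 1) (.gap (.rf
    1)))) (.rf 1) (.cmp 7 (.cmp 6 (.gap (.rf 1)) (.rf 1) (.gap (.rf 1))) (.rf 1) (.cmp 3 (.gap
    (.rf 1)) (.rf 1) (.gap (.rf 4))))))) (.ru 17 (.eq 3 3)) (.gap (.ru 15 (.lc 5 3 2 7 (.k4 0 5
    2 3) (.cmp 2 (.cmp 1 (.cmp 0 .mn (.rf 1) (.gap (.rf 1))) (.rf 1) (.cmp 5 (.gap (.rf 24))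
    (.rf 24) (.gap (.ru 18 (.lc 0 5 1 8 (.k4 0 5 1 3) (.lc 0 8 5 3 (.rf 21) (.p2 0 1 8 5 3
    2))))))) (.rf 4) (.cmp 3 (.cmp 6 (.gap (.rf 4)) (.rf 4) (.gap (.rf 4))) (.rf 1) (.cmp 7
    (.gap (.rf 1)) (.rf 1) (.gap (.rf 1)))))))))))))) (.rf 6) (.gap (.ru 13 (.lc 5 3 2 6 (.k4 0
    5 2 3) (.rf 6)))))))))))))) (.rf 0) (.cmp 3 (.gap (.rf 0)) (.rf 0) (.gap (.rf 0))))) (.gap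
    (.ru 10 (.cmp 2 (.cmp 1 (.cmp 0 .mn (.rf 0) (.gap (.rf 2))) (.rf 3) (.gap (.ru 8 (.ru 9 (.ru
    11 (.th 0 5 1 3 (.lc 0 3 5 4 (.rf 23) (.lc 0 2 5 3 (.p2 5 2 4 0 3 1) (.k4 0 5 2 4)))))))))
    (.rf 0) (.cmp 4 (.cmp 3 (.gap (.rf 0)) (.rf 0) (.gap (.rf 0))) (.rf 0) (.gap (.rf 0))))))))

theorem chk01 : chk (rulesCom ++ (rulesZ1t ++ rulesZ0f)) tree01 rk0 none none T0 U0 = true := by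
  decide +kernel

end Pool.Agent.Confl.Cert2
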