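import Pool.Agent.Confl.T.Rules

/-!
# A certificate
-/

set_option autoImplicit false

namespace Pool.Agent.Confl.Cert2

/-- Certificate. -/
def tree10 : Tr :=
    (.cmp 2 (.cmp 1 (.cmp 0 .mn (.cmp 2 (.cmp 1 (.cmp 0 .mn (.rf 0) (.gap (.rf 0))) (.rf 0)
    (.gap (.rf 0))) (.rf 0) (.cmp 3 (.gap (.rf 0)) (.rf 0) (.gap (.rf 0)))) (.gap (.ru 10 (.th 4
    2 1 3 (.cmp 1 (.cmp 4 (.cmp 0 .mn (.rf 0) (.gap (.rf 0))) (.rf 0) (.gap (.rf 0))) (.rf 0)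
    (.cmp 3 (.cmp 2 (.gap (.rf 0)) (.rf 0) (.gap (.ru 8 (.ru 9 (.ru 11 (.ru 19 (.th 1 5 0 2 (.th
    0 5 1 3 (.cmp 2 (.cmp 4 (.cmp 0 .mn (.rf 6) (.gap (.ru 12 (.ru 13 (.lc 0 5 6 3 (.lc 6 2 4 5
    (.p4 6 5 3 0 2 4) (.rf 6)) (.rf 6)))))) (.rf 6) (.cmp 1 (.gap (.ru 12 (.ru 13 (.lc 0 5 6 3
    (.th 0 6 4 2 (.lc 0 6 4 5 (.rf 6) (.lc 4 2 6 3 (.k4 0 6 2 3) (.p2 0 4 2 6 3 5)))) (.rf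
    6))))) (.rf 6) (.gap (.ru 12 (.ru 13 (.lc 0 5 6 3 (.th 0 6 4 2 (.lc 0 6 1 2 (.k4 0 5 1 3)
    (.p2 0 1 2 6 3 5))) (.rf 6))))))) (.ru 12 (.lc 0 5 2 3 (.lc 4 2 1 3 (.p1 2 5 0 3 1 4) (.cmp
    2 (.cmp 4 (.cmp 0 .mn (.cmp 2 (.cmp 4 (.cmp 0 .mn (.rf 1) (.gap (.rf 1))) (.rf 1) (.cmp 1
    (.gap (.rf 1)) (.rf 1) (.gap (.ru 14 (.ru 16 (.ru 18 (.ru 20 (.p1 0 1 8 2 3 5)))))))) (.rf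
    26) (.cmp 3 (.cmp 5 (.gap (.rf 5)) (.rf 5) (.gap (.rf 5))) (.rf 1) (.gap (.rf 1)))) (.gap
    (.ru 15 (.ru 17 (.th 7 2 4 5 (.lc 0 5 7 3 (.k4 0 2 7 3) (.cmp 1 (.cmp 7 (.cmp 0 .mn (.rf 1)
    (.gap (.rf 1))) (.rf 1) (.cmp 4 (.gap (.rf 1)) (.rf 1) (.gap (.rf 1)))) (.rf 1) (.cmp 5
    (.cmp 2 (.gap (.ru 14 (.ru 16 (.ru 18 (.ru 20 (.p1 7 1 8 2 3 5)))))) (.rf 26) (.gap (.ru 14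
    (.ru 16 (.ru 18 (.p2 7 1 8 2 3 5)))))) (.rf 27) (.cmp 3 (.gap (.ru 14 (.ru 16 (.ru 18 (.p2 7
    1 8 2 3 5))))) (.rf 1) (.gap (.rf 1))))))))))) (.cmp 2 (.cmp 4 (.cmp 0 .mn (.rf 1) (.gap
    (.rf 1))) (.rf 1) (.cmp 1 (.gap (.rf 1)) (.rf 1) (.gap (.rf 24)))) (.rf 24) (.cmp 3 (.cmp 5
    (.gap (.rf 24)) (.rf 24) (.gap (.ru 14 (.ru 16 (.ru 18 (.p2 4 1 8 2 3 5)))))) (.rf 1) (.gap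
    (.rf 1)))) (.cmp 1 (.gap (.ru 15 (.ru 17 (.th 7 2 1 5 (.lc 0 5 7 3 (.k4 0 2 7 3) (.cmp 1
    (.cmp 4 (.cmp 0 .mn (.rf 1) (.gap (.rf 1))) (.rf 1) (.cmp 7 (.gap (.rf 1)) (.rf 1) (.gap
    (.rf 1)))) (.rf 1) (.cmp 5 (.cmp 2 (.gap (.rf 24)) (.rf 24) (.gap (.rf 24))) (.rf 24) (.cmp
    3 (.gap (.ru 14 (.ru 16 (.ru 18 (.p2 7 1 8 2 3 5))))) (.rf 1) (.gap (.rf 1)))))))))) (.cmp 2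
    (.cmp 4 (.cmp 0 .mn (.rf 1) (.gap (.rf 1))) (.rf 1) (.cmp 1 (.gap (.rf 1)) (.rf 1) (.gap
    (.rf 1)))) (.rf 1) (.cmp 3 (.cmp 5 (.gap (.rf 1)) (.rf 1) (.gap (.rf 1))) (.rf 1) (.gap (.rf
    1)))) (.gap (.ru 15 (.ru 17 (.th 7 3 0 2 (.th 1 2 7 3 (.lc 0 5 7 3 (.k4 0 2 7 3) (.cmp 7
    (.cmp 4 (.cmp 0 .mn (.ru 18 (.th 0 1 4 2 (.k4 0 1 2 3))) (.gap (.ru 14 (.ru 16 (.ru 18 (.th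
    8 1 4 2 (.p1 1 7 8 2 3 5))))))) (.rf 24) (.cmp 1 (.gap (.rf 24)) (.rf 1) (.gap (.rf 1))))
    (.rf 1) (.cmp 5 (.cmp 2 (.gap (.rf 1)) (.rf 1) (.gap (.rf 1))) (.rf 1) (.cmp 3 (.gap (.rf
    1)) (.rf 1) (.gap (.ru 14 (.ru 16 (.ru 18 (.p2 1 7 8 2 3 5)))))))))))))))) (.cmp 2 (.cmp 4
    (.cmp 0 .mn (.ru 18 (.th 0 1 4 2 (.k4 0 1 2 3))) (.gap (.ru 14 (.ru 18 (.th 8 1 4 2 (.lc 8 1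
    4 2 (.p1 1 4 8 2 3 5) (.k4 4 2 1 3))))))) (.rf 24) (.cmp 1 (.gap (.rf 24)) (.rf 1) (.gap
    (.rf 1)))) (.rf 1) (.cmp 3 (.cmp 5 (.gap (.rf 1)) (.rf 1) (.gap (.rf 1))) (.rf 1) (.gap (.rf
    5)))) (.cmp 3 (.cmp 5 (.gap (.ru 15 (.ru 17 (.lc 0 5 7 3 (.k4 0 2 7 3) (.cmp 2 (.cmp 4 (.cmp
    0 .mn (.rf 4) (.gap (.ru 14 (.ru 16 (.ru 18 (.th 8 1 4 2 (.p1 1 7 8 2 3 5))))))) (.rf 24)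
    (.cmp 1 (.gap (.rf 24)) (.rf 1) (.gap (.rf 1)))) (.rf 1) (.cmp 5 (.cmp 7 (.gap (.rf 1)) (.rf
    1) (.gap (.rf 1))) (.rf 1) (.cmp 3 (.gap (.rf 1)) (.rf 1) (.gap (.rf 4))))))))) (.ru 15 (.rf
    6)) (.gap (.ru 15 (.ru 17 (.lc 0 5 2 7 (.cmp 2 (.cmp 4 (.cmp 0 .mn (.rf 4) (.gap (.ru 14
    (.ru 16 (.ru 18 (.th 8 1 4 2 (.p1 1 7 8 2 3 5))))))) (.ru 18 (.k4 4 2 1 3)) (.cmp 1 (.gap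
    (.ru 14 (.ru 16 (.ru 18 (.th 8 2 1 5 (.p3 1 7 8 2 3 5)))))) (.rf 1) (.gap (.rf 1)))) (.rf 1)
    (.cmp 7 (.cmp 5 (.gap (.rf 1)) (.rf 1) (.gap (.rf 1))) (.rf 1) (.cmp 3 (.gap (.rf 1)) (.rf
    1) (.gap (.rf 4))))) (.rf 6)))))) (.ru 17 (.eq 3 3)) (.gap (.ru 15 (.ru 17 (.lc 0 5 2 7
    (.cmp 2 (.cmp 4 (.cmp 0 .mn (.rf 1) (.gap (.rf 1))) (.rf 1) (.cmp 1 (.gap (.rf 1)) (.rf 1)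
    (.gap (.ru 14 (.ru 16 (.ru 18 (.ru 20 (.th 1 2 8 7 (.p2 1 7 8 2 3 5))))))))) (.rf 4) (.cmp 3
    (.cmp 5 (.gap (.rf 4)) (.rf 4) (.gap (.rf 4))) (.rf 1) (.cmp 7 (.gap (.rf 1)) (.rf 1) (.gap
    (.rf 1))))) (.rf 6)))))))) (.rf 6))) (.cmp 3 (.cmp 5 (.gap (.ru 12 (.ru 13 (.lc 0 5 6 3 (.lc
    0 6 1 5 (.rf 6) (.p1 0 1 2 6 3 5)) (.rf 6))))) (.rf 7) (.gap (.ru 12 (.ru 13 (.lc 0 5 2 6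
    (.rf 6) (.lc 0 6 1 3 (.k4 0 2 1 5) (.p2 0 1 5 2 6 3))))))) (.ru 13 (.lc 0 5 2 3 (.rf 6) (.lc
    4 2 1 3 (.k4 4 2 1 5) (.cmp 2 (.cmp 4 (.cmp 0 .mn (.cmp 2 (.cmp 4 (.cmp 0 .mn (.rf 1) (.gap
    (.rf 1))) (.rf 1) (.cmp 1 (.gap (.rf 1)) (.rf 1) (.gap (.ru 14 (.ru 16 (.ru 18 (.ru 20 (.p1
    0 1 8 3 2 5)))))))) (.rf 26) (.cmp 3 (.cmp 5 (.gap (.rf 5)) (.rf 5) (.gap (.rf 5))) (.rf 1)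
    (.gap (.rf 1)))) (.gap (.ru 15 (.ru 17 (.th 7 2 4 5 (.lc 0 5 7 3 (.rf 6) (.cmp 1 (.cmp 7
    (.cmp 0 .mn (.rf 1) (.gap (.rf 1))) (.rf 1) (.cmp 4 (.gap (.rf 1)) (.rf 1) (.gap (.rf 1))))
    (.rf 1) (.cmp 5 (.cmp 2 (.gap (.ru 14 (.ru 16 (.ru 18 (.ru 20 (.p1 7 1 8 3 2 5)))))) (.rf
    26) (.gap (.ru 14 (.ru 16 (.ru 18 (.p2 7 1 5 2 3 8)))))) (.rf 27) (.cmp 3 (.gap (.ru 14 (.ru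
    16 (.ru 18 (.p2 7 1 5 2 3 8))))) (.rf 1) (.gap (.rf 1))))))))))) (.cmp 2 (.cmp 4 (.cmp 0 .mn
    (.rf 1) (.gap (.rf 1))) (.rf 1) (.cmp 1 (.gap (.rf 1)) (.rf 1) (.gap (.rf 24)))) (.rf 24)
    (.cmp 3 (.cmp 5 (.gap (.rf 24)) (.rf 24) (.gap (.ru 14 (.ru 16 (.ru 18 (.p2 4 1 5 2 3
    8)))))) (.rf 1) (.gap (.rf 1)))) (.cmp 1 (.gap (.ru 15 (.ru 17 (.th 7 2 1 5 (.lc 0 5 7 3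
    (.rf 6) (.cmp 1 (.cmp 4 (.cmp 0 .mn (.rf 1) (.gap (.rf 1))) (.rf 1) (.cmp 7 (.gap (.rf 1))
    (.rf 1) (.gap (.rf 1)))) (.rf 1) (.cmp 5 (.cmp 2 (.gap (.rf 24)) (.rf 24) (.gap (.rf 24)))
    (.rf 24) (.cmp 3 (.gap (.ru 14 (.ru 16 (.ru 18 (.p2 7 1 5 2 3 8))))) (.rf 1) (.gap (.rf
    1)))))))))) (.cmp 2 (.cmp 4 (.cmp 0 .mn (.rf 1) (.gap (.rf 1))) (.rf 1) (.cmp 1 (.gap (.rf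
    1)) (.rf 1) (.gap (.rf 1)))) (.rf 1) (.cmp 3 (.cmp 5 (.gap (.rf 1)) (.rf 1) (.gap (.rf 1)))
    (.rf 1) (.gap (.rf 1)))) (.gap (.ru 15 (.ru 17 (.th 7 3 0 2 (.th 1 2 7 3 (.lc 0 5 7 3 (.rf
    6) (.cmp 7 (.cmp 4 (.cmp 0 .mn (.ru 18 (.th 0 1 4 2 (.k4 0 1 2 5))) (.gap (.ru 14 (.ru 16
    (.ru 18 (.th 8 1 4 2 (.p1 1 7 8 3 2 5))))))) (.rf 24) (.cmp 1 (.gap (.rf 24)) (.rf 1) (.gap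
    (.rf 1)))) (.rf 1) (.cmp 5 (.cmp 2 (.gap (.rf 1)) (.rf 1) (.gap (.rf 1))) (.rf 1) (.cmp 3
    (.gap (.rf 1)) (.rf 1) (.gap (.ru 14 (.ru 16 (.ru 18 (.p2 1 7 5 2 3 8)))))))))))))))) (.cmp
    2 (.cmp 4 (.cmp 0 .mn (.ru 18 (.th 0 1 4 2 (.k4 0 1 2 5))) (.gap (.ru 14 (.ru 16 (.ru 18
    (.th 8 1 4 2 (.k4 8 1 2 3))))))) (.rf 24) (.cmp 1 (.gap (.rf 24)) (.rf 1) (.gap (.rf 1))))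
    (.rf 1) (.cmp 3 (.cmp 5 (.gap (.rf 1)) (.rf 1) (.gap (.rf 1))) (.rf 1) (.gap (.rf 5))))
    (.cmp 3 (.cmp 5 (.gap (.ru 15 (.ru 17 (.lc 0 5 7 3 (.rf 6) (.cmp 2 (.cmp 4 (.cmp 0 .mn (.rf
    4) (.gap (.ru 14 (.ru 16 (.ru 18 (.th 8 1 4 2 (.p1 1 7 8 3 2 5))))))) (.rf 24) (.cmp 1 (.gap
    (.rf 24)) (.rf 1) (.gap (.rf 1)))) (.rf 1) (.cmp 5 (.cmp 7 (.gap (.rf 1)) (.rf 1) (.gap (.rf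
    1))) (.rf 1) (.cmp 3 (.gap (.rf 1)) (.rf 1) (.gap (.rf 4))))))))) (.ru 17 (.rf 6)) (.gap
    (.ru 15 (.ru 17 (.lc 0 5 2 7 (.cmp 2 (.cmp 4 (.cmp 0 .mn (.rf 4) (.gap (.ru 14 (.ru 16 (.ru
    18 (.th 8 1 4 2 (.p1 1 7 8 3 2 5))))))) (.ru 18 (.k4 4 2 1 5)) (.cmp 1 (.gap (.ru 14 (.ru 16
    (.ru 18 (.ru 20 (.p1 7 1 8 3 2 5)))))) (.rf 1) (.gap (.rf 1)))) (.rf 1) (.cmp 7 (.cmp 5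
    (.gap (.rf 1)) (.rf 1) (.gap (.rf 1))) (.rf 1) (.cmp 3 (.gap (.rf 1)) (.rf 1) (.gap (.rf
    4))))) (.k4 0 2 7 3)))))) (.ru 17 (.eq 3 3)) (.gap (.ru 15 (.ru 17 (.lc 0 5 2 7 (.cmp 2
    (.cmp 4 (.cmp 0 .mn (.rf 1) (.gap (.rf 1))) (.rf 1) (.cmp 1 (.gap (.rf 1)) (.rf 1) (.gap
    (.ru 14 (.ru 16 (.ru 18 (.th 8 3 0 2 (.th 1 2 8 3 (.p2 1 7 5 2 3 8))))))))) (.rf 4) (.cmp 3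
    (.cmp 5 (.gap (.rf 4)) (.rf 4) (.gap (.rf 4))) (.rf 1) (.cmp 7 (.gap (.rf 1)) (.rf 1) (.gap
    (.rf 1))))) (.k4 0 2 3 7)))))))))) (.gap (.ru 12 (.ru 13 (.lc 0 5 2 6 (.rf 6) (.lc 4 2 1 3
    (.k4 0 2 3 6) (.lc 4 5 2 6 (.rf 6) (.p2 0 4 5 2 6 3))))))))))))))))) (.rf 2) (.gap (.rf
    2)))))))) (.cmp 2 (.cmp 1 (.cmp 0 .mn (.rf 0) (.gap (.rf 0))) (.rf 0) (.gap (.rf 0))) (.rf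
    0) (.cmp 3 (.gap (.ru 8 (.ru 9 (.ru 19 (.th 0 5 1 3 (.cmp 2 (.cmp 1 (.cmp 0 .mn (.rf 6)
    (.gap (.ru 12 (.ru 13 (.lc 0 5 6 3 (.lc 6 2 1 5 (.p2 0 1 5 2 6 3) (.rf 6)) (.rf 6)))))) (.rf
    6) (.gap (.ru 12 (.ru 13 (.th 6 3 0 2 (.th 1 2 6 3 (.lc 0 5 6 3 (.th 0 6 1 2 (.lc 0 6 1 2
    (.k4 0 5 1 3) (.p2 0 1 2 6 3 5))) (.rf 6)))))))) (.ru 12 (.lc 0 5 2 3 (.cmp 2 (.cmp 1 (.cmp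
    0 .mn (.cmp 2 (.cmp 1 (.cmp 0 .mn (.rf 1) (.gap (.rf 1))) (.rf 1) (.gap (.ru 18 (.rf 21))))
    (.rf 21) (.cmp 3 (.cmp 5 (.gap (.rf 5)) (.rf 5) (.gap (.rf 5))) (.rf 1) (.gap (.rf 1))))
    (.gap (.ru 15 (.ru 17 (.th 7 2 1 5 (.lc 0 5 7 3 (.k4 0 2 7 3) (.cmp 2 (.cmp 7 (.cmp 0 .mn
    (.rf 1) (.gap (.rf 1))) (.rf 1) (.cmp 1 (.gap (.rf 1)) (.rf 1) (.gap (.ru 18 (.rf 21)))))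
    (.rf 21) (.cmp 3 (.cmp 5 (.gap (.ru 18 (.rf 21))) (.rf 27) (.gap (.ru 14 (.ru 16 (.ru 18
    (.p2 7 1 8 2 3 5)))))) (.rf 1) (.gap (.rf 1)))))))))) (.cmp 2 (.cmp 1 (.cmp 0 .mn (.rf 1)
    (.gap (.rf 1))) (.rf 1) (.gap (.rf 1))) (.rf 1) (.cmp 3 (.cmp 5 (.gap (.rf 1)) (.rf 1) (.gap
    (.rf 1))) (.rf 1) (.gap (.rf 1)))) (.gap (.ru 15 (.ru 17 (.th 7 3 0 2 (.th 1 2 7 3 (.lc 0 5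
    7 3 (.k4 0 2 7 3) (.cmp 2 (.cmp 1 (.cmp 0 .mn (.ru 18 (.k4 0 2 1 3)) (.gap (.ru 14 (.ru 16
    (.ru 18 (.ru 20 (.p1 7 1 8 2 3 5))))))) (.rf 1) (.cmp 7 (.gap (.rf 1)) (.rf 1) (.gap (.rf
    1)))) (.rf 1) (.cmp 3 (.cmp 5 (.gap (.rf 1)) (.rf 1) (.gap (.rf 1))) (.rf 1) (.gap (.ru 14
    (.ru 16 (.ru 18 (.p2 1 7 8 2 3 5)))))))))))))) (.cmp 2 (.cmp 1 (.cmp 0 .mn (.ru 18 (.k4 0 2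
    1 3)) (.gap (.ru 14 (.ru 18 (.lc 8 2 1 5 (.rf 6) (.p1 2 5 0 3 1 8)))))) (.rf 1) (.gap (.rf
    1))) (.rf 1) (.cmp 3 (.cmp 5 (.gap (.rf 1)) (.rf 1) (.gap (.rf 1))) (.rf 1) (.gap (.rf 5))))
    (.cmp 3 (.cmp 5 (.gap (.ru 15 (.ru 17 (.lc 0 5 7 3 (.k4 0 2 7 3) (.cmp 7 (.cmp 1 (.cmp 0 .mn
    (.rf 4) (.gap (.ru 14 (.ru 16 (.ru 18 (.th 8 2 1 5 (.p3 1 7 8 2 3 5))))))) (.rf 1) (.cmp 2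
    (.gap (.rf 1)) (.rf 1) (.gap (.rf 1)))) (.rf 1) (.cmp 3 (.cmp 5 (.gap (.rf 1)) (.rf 1) (.gap
    (.rf 1))) (.rf 1) (.gap (.rf 4)))))))) (.ru 15 (.rf 6)) (.gap (.ru 15 (.ru 17 (.lc 0 5 2 7
    (.cmp 5 (.cmp 1 (.cmp 0 .mn (.rf 4) (.gap (.ru 14 (.ru 16 (.ru 18 (.th 8 2 1 5 (.p3 1 7 8 2
    3 5))))))) (.rf 1) (.cmp 2 (.gap (.rf 1)) (.rf 1) (.gap (.rf 1)))) (.rf 1) (.cmp 3 (.cmp 7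
    (.gap (.rf 1)) (.rf 1) (.gap (.rf 1))) (.rf 1) (.gap (.rf 4)))) (.rf 6)))))) (.ru 17 (.eq 3
    3)) (.gap (.ru 15 (.lc 0 5 2 7 (.cmp 5 (.cmp 1 (.cmp 0 .mn (.rf 1) (.gap (.rf 1))) (.rf 1)
    (.cmp 2 (.gap (.ru 18 (.rf 21))) (.rf 4) (.gap (.rf 4)))) (.rf 4) (.cmp 7 (.cmp 3 (.gap (.rf
    4)) (.rf 1) (.gap (.rf 1))) (.rf 1) (.gap (.rf 1)))) (.rf 6)))))) (.rf 6))) (.cmp 3 (.cmp 5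
    (.gap (.ru 12 (.ru 13 (.lc 0 5 6 3 (.lc 0 6 1 5 (.rf 6) (.p1 0 1 2 6 3 5)) (.rf 6))))) (.rf
    7) (.gap (.ru 12 (.ru 13 (.lc 0 5 2 6 (.rf 6) (.lc 0 6 1 3 (.k4 0 2 1 5) (.p2 0 1 5 2 6
    3))))))) (.ru 13 (.lc 0 5 2 3 (.rf 6) (.cmp 2 (.cmp 1 (.cmp 0 .mn (.cmp 2 (.cmp 1 (.cmp 0
    .mn (.rf 1) (.gap (.rf 1))) (.rf 1) (.gap (.ru 18 (.rf 21)))) (.rf 21) (.cmp 3 (.cmp 5 (.gap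
    (.rf 5)) (.rf 5) (.gap (.rf 5))) (.rf 1) (.gap (.rf 1)))) (.gap (.ru 15 (.ru 17 (.th 7 2 1 5
    (.lc 0 5 7 3 (.rf 6) (.cmp 2 (.cmp 7 (.cmp 0 .mn (.rf 1) (.gap (.rf 1))) (.rf 1) (.cmp 1
    (.gap (.rf 1)) (.rf 1) (.gap (.ru 18 (.rf 21))))) (.rf 21) (.cmp 3 (.cmp 5 (.gap (.ru 18
    (.rf 21))) (.rf 27) (.gap (.ru 14 (.ru 16 (.ru 18 (.p2 7 1 5 2 3 8)))))) (.rf 1) (.gap (.rf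
    1)))))))))) (.cmp 2 (.cmp 1 (.cmp 0 .mn (.rf 1) (.gap (.rf 1))) (.rf 1) (.gap (.rf 1))) (.rf
    1) (.cmp 3 (.cmp 5 (.gap (.rf 1)) (.rf 1) (.gap (.rf 1))) (.rf 1) (.gap (.rf 1)))) (.gap
    (.ru 15 (.ru 17 (.th 7 3 0 2 (.th 1 2 7 3 (.lc 0 5 7 3 (.rf 6) (.cmp 2 (.cmp 1 (.cmp 0 .mn
    (.ru 18 (.k4 0 2 1 5)) (.gap (.ru 14 (.ru 16 (.ru 18 (.ru 20 (.p1 7 1 8 3 2 5))))))) (.rf 1)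
    (.cmp 7 (.gap (.rf 1)) (.rf 1) (.gap (.rf 1)))) (.rf 1) (.cmp 3 (.cmp 5 (.gap (.rf 1)) (.rf
    1) (.gap (.rf 1))) (.rf 1) (.gap (.ru 14 (.ru 16 (.ru 18 (.p2 1 7 5 2 3 8))))))))))))))
    (.cmp 2 (.cmp 1 (.cmp 0 .mn (.ru 18 (.k4 0 2 1 5)) (.gap (.ru 14 (.ru 16 (.ru 18 (.ru 20
    (.k4 8 2 1 3))))))) (.rf 1) (.gap (.rf 1))) (.rf 1) (.cmp 3 (.cmp 5 (.gap (.rf 1)) (.rf 1)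
    (.gap (.rf 1))) (.rf 1) (.gap (.rf 5)))) (.cmp 3 (.cmp 5 (.gap (.ru 15 (.ru 17 (.lc 0 5 7 3
    (.rf 6) (.cmp 7 (.cmp 1 (.cmp 0 .mn (.rf 4) (.gap (.ru 14 (.ru 16 (.ru 18 (.ru 20 (.p1 7 1 8
    3 2 5))))))) (.rf 1) (.cmp 2 (.gap (.rf 1)) (.rf 1) (.gap (.rf 1)))) (.rf 1) (.cmp 3 (.cmp 5
    (.gap (.rf 1)) (.rf 1) (.gap (.rf 1))) (.rf 1) (.gap (.rf 4)))))))) (.ru 17 (.rf 6)) (.gap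
    (.ru 15 (.ru 17 (.lc 0 5 2 7 (.cmp 5 (.cmp 1 (.cmp 0 .mn (.rf 4) (.gap (.ru 14 (.ru 16 (.ru
    18 (.ru 20 (.p1 7 1 8 3 2 5))))))) (.rf 1) (.cmp 2 (.gap (.rf 1)) (.rf 1) (.gap (.rf 1))))
    (.rf 1) (.cmp 3 (.cmp 7 (.gap (.rf 1)) (.rf 1) (.gap (.rf 1))) (.rf 1) (.gap (.rf 4)))) (.k4
    0 2 7 3)))))) (.ru 17 (.eq 3 3)) (.gap (.ru 15 (.ru 17 (.lc 0 5 2 7 (.cmp 5 (.cmp 1 (.cmp 0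
    .mn (.rf 1) (.gap (.rf 1))) (.rf 1) (.cmp 2 (.gap (.ru 18 (.rf 21))) (.rf 4) (.gap (.rf
    4)))) (.rf 4) (.cmp 7 (.cmp 3 (.gap (.rf 4)) (.rf 1) (.gap (.rf 1))) (.rf 1) (.gap (.rf
    1)))) (.k4 0 2 3 7))))))))) (.gap (.ru 12 (.ru 13 (.lc 0 5 2 6 (.rf 6) (.lc 1 5 2 6 (.rf 6)
    (.p2 0 1 5 2 6 3))))))))))))) (.cmp 2 (.cmp 1 (.cmp 0 .mn (.rf 6) (.gap (.ru 12 (.rf 6))))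
    (.rf 6) (.gap (.ru 12 (.rf 6)))) (.ru 12 (.rf 6)) (.cmp 3 (.gap (.ru 12 (.rf 6))) (.rf 7)
    (.gap (.ru 12 (.rf 6))))) (.gap (.rf 3)))) (.gap (.ru 10 (.cmp 4 (.cmp 1 (.cmp 0 .mn (.rf 0)
    (.gap (.rf 0))) (.rf 0) (.gap (.rf 0))) (.rf 0) (.cmp 3 (.cmp 2 (.gap (.rf 0)) (.rf 0) (.gap
    (.ru 8 (.ru 9 (.ru 11 (.ru 19 (.th 1 5 0 2 (.th 0 5 1 3 (.th 1 2 4 5 (.cmp 2 (.cmp 1 (.cmp 0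
    .mn (.rf 6) (.gap (.ru 12 (.ru 13 (.lc 0 5 6 3 (.lc 6 2 1 5 (.p2 0 1 5 2 6 3) (.rf 6)) (.rf
    6)))))) (.rf 6) (.cmp 4 (.gap (.ru 12 (.ru 13 (.lc 0 5 6 3 (.th 0 6 1 2 (.lc 0 6 1 2 (.k4 0
    5 1 3) (.p2 0 1 2 6 3 5))) (.rf 6))))) (.rf 6) (.gap (.ru 12 (.ru 13 (.lc 0 5 6 3 (.th 0 6 1
    2 (.lc 0 6 1 2 (.k4 0 5 1 3) (.p2 0 1 2 6 3 5))) (.rf 6))))))) (.ru 12 (.lc 0 5 2 3 (.cmp 2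
    (.cmp 1 (.cmp 0 .mn (.cmp 2 (.cmp 1 (.cmp 0 .mn (.rf 1) (.gap (.rf 1))) (.rf 1) (.cmp 4
    (.gap (.ru 14 (.ru 16 (.ru 18 (.ru 20 (.p1 0 1 8 2 3 5)))))) (.ru 16 (.ru 18 (.ru 20 (.p2 0
    1 5 4 2 3)))) (.gap (.ru 14 (.ru 16 (.ru 18 (.ru 20 (.p1 0 1 8 2 3 5)))))))) (.rf 21) (.cmp
    3 (.cmp 5 (.gap (.rf 5)) (.rf 5) (.gap (.rf 5))) (.rf 1) (.gap (.rf 1)))) (.gap (.ru 15 (.ru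
    17 (.th 7 2 1 5 (.lc 0 5 7 3 (.k4 0 2 7 3) (.cmp 4 (.cmp 7 (.cmp 0 .mn (.rf 1) (.gap (.rf
    1))) (.rf 1) (.cmp 1 (.gap (.rf 1)) (.rf 1) (.gap (.ru 14 (.ru 16 (.ru 18 (.ru 20 (.p1 7 1 8
    2 3 5)))))))) (.ru 16 (.ru 18 (.ru 20 (.p2 7 1 5 4 2 3)))) (.cmp 5 (.cmp 2 (.gap (.ru 14
    (.ru 16 (.ru 18 (.ru 20 (.p1 7 1 8 2 3 5)))))) (.rf 21) (.gap (.ru 14 (.ru 16 (.ru 18 (.p2 7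
    1 8 2 3 5)))))) (.rf 27) (.cmp 3 (.gap (.ru 14 (.ru 16 (.ru 18 (.p2 7 1 8 2 3 5))))) (.rf 1)
    (.gap (.rf 1))))))))))) (.cmp 2 (.cmp 1 (.cmp 0 .mn (.rf 1) (.gap (.rf 1))) (.rf 1) (.cmp 4
    (.gap (.rf 1)) (.rf 1) (.gap (.rf 1)))) (.rf 1) (.cmp 3 (.cmp 5 (.gap (.rf 1)) (.rf 1) (.gap
    (.rf 1))) (.rf 1) (.gap (.rf 1)))) (.cmp 4 (.gap (.ru 15 (.ru 17 (.lc 0 5 7 3 (.k4 0 2 7 3)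
    (.cmp 4 (.cmp 1 (.cmp 0 .mn (.ru 18 (.k4 0 2 1 3)) (.gap (.ru 14 (.ru 16 (.ru 18 (.ru 20
    (.p1 7 1 8 2 3 5))))))) (.rf 1) (.cmp 7 (.gap (.rf 1)) (.rf 1) (.gap (.rf 1)))) (.rf 1)
    (.cmp 5 (.cmp 2 (.gap (.rf 1)) (.rf 1) (.gap (.rf 1))) (.rf 1) (.cmp 3 (.gap (.rf 1)) (.rf
    1) (.gap (.ru 14 (.ru 16 (.ru 18 (.p2 1 7 8 2 3 5)))))))))))) (.ru 17 (.cmp 2 (.cmp 1 (.cmp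
    0 .mn (.ru 18 (.k4 0 2 1 3)) (.gap (.ru 14 (.ru 16 (.ru 18 (.ru 20 (.p1 4 1 8 2 3 5)))))))
    (.rf 1) (.cmp 4 (.gap (.rf 1)) (.rf 1) (.gap (.rf 1)))) (.rf 1) (.cmp 3 (.cmp 5 (.gap (.rf
    1)) (.rf 1) (.gap (.rf 1))) (.rf 1) (.gap (.ru 14 (.ru 16 (.ru 18 (.p2 1 4 8 2 3 5))))))))
    (.gap (.ru 15 (.ru 17 (.lc 0 5 7 3 (.k4 0 2 7 3) (.cmp 7 (.cmp 1 (.cmp 0 .mn (.ru 18 (.k4 0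
    2 1 3)) (.gap (.ru 14 (.ru 16 (.ru 18 (.ru 20 (.p1 7 1 8 2 3 5))))))) (.rf 1) (.cmp 4 (.gap
    (.rf 1)) (.rf 1) (.gap (.rf 1)))) (.rf 1) (.cmp 5 (.cmp 2 (.gap (.rf 1)) (.rf 1) (.gap (.rf
    1))) (.rf 1) (.cmp 3 (.gap (.rf 1)) (.rf 1) (.gap (.ru 14 (.ru 16 (.ru 18 (.p2 1 7 8 2 3
    5)))))))))))))) (.cmp 2 (.cmp 1 (.cmp 0 .mn (.ru 18 (.k4 0 2 1 3)) (.gap (.ru 14 (.ru 18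
    (.lc 8 2 1 5 (.rf 6) (.p1 2 5 0 3 1 8)))))) (.rf 1) (.cmp 4 (.gap (.rf 1)) (.rf 1) (.gap
    (.rf 1)))) (.rf 1) (.cmp 3 (.cmp 5 (.gap (.rf 1)) (.rf 1) (.gap (.rf 1))) (.rf 1) (.gap (.rf
    5)))) (.cmp 3 (.cmp 5 (.gap (.ru 15 (.ru 17 (.lc 0 5 7 3 (.k4 0 2 7 3) (.cmp 2 (.cmp 1 (.cmp
    0 .mn (.rf 4) (.gap (.ru 14 (.ru 16 (.ru 18 (.th 8 2 1 5 (.p3 1 7 8 2 3 5))))))) (.rf 1)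
    (.cmp 4 (.gap (.rf 1)) (.rf 1) (.gap (.rf 1)))) (.rf 1) (.cmp 5 (.cmp 7 (.gap (.rf 1)) (.rf
    1) (.gap (.rf 1))) (.rf 1) (.cmp 3 (.gap (.rf 1)) (.rf 1) (.gap (.rf 4))))))))) (.ru 15 (.rf
    6)) (.gap (.ru 15 (.ru 17 (.lc 0 5 2 7 (.cmp 2 (.cmp 1 (.cmp 0 .mn (.rf 4) (.gap (.ru 14
    (.ru 16 (.ru 18 (.th 8 2 1 5 (.p3 1 7 8 2 3 5))))))) (.rf 1) (.cmp 4 (.gap (.rf 1)) (.rf 1)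
    (.gap (.rf 1)))) (.rf 1) (.cmp 7 (.cmp 5 (.gap (.rf 1)) (.rf 1) (.gap (.rf 1))) (.rf 1)
    (.cmp 3 (.gap (.rf 1)) (.rf 1) (.gap (.rf 4))))) (.rf 6)))))) (.ru 17 (.eq 3 3)) (.gap (.ru
    15 (.ru 17 (.lc 0 5 2 7 (.cmp 2 (.cmp 1 (.cmp 0 .mn (.rf 1) (.gap (.rf 1))) (.rf 1) (.cmp 4
    (.gap (.ru 14 (.ru 16 (.ru 18 (.p2 1 7 8 2 3 5))))) (.ru 16 (.ru 18 (.p2 1 7 3 2 4 5)))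
    (.gap (.ru 14 (.ru 16 (.ru 18 (.th 1 8 4 5 (.p1 1 7 8 2 3 5)))))))) (.rf 4) (.cmp 3 (.cmp 5
    (.gap (.rf 4)) (.rf 4) (.gap (.rf 4))) (.rf 1) (.cmp 7 (.gap (.rf 1)) (.rf 1) (.gap (.rf
    1))))) (.rf 6))))))) (.rf 6))) (.cmp 3 (.cmp 5 (.gap (.ru 12 (.ru 13 (.lc 0 5 6 3 (.lc 0 6 1
    5 (.rf 6) (.p1 0 1 2 6 3 5)) (.rf 6))))) (.rf 7) (.gap (.ru 12 (.ru 13 (.lc 0 5 2 6 (.rf 6)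
    (.lc 0 6 1 3 (.k4 0 2 1 5) (.p2 0 1 5 2 6 3))))))) (.ru 13 (.lc 0 5 2 3 (.rf 6) (.lc 4 5 2 3
    (.rf 6) (.cmp 2 (.cmp 1 (.cmp 0 .mn (.cmp 2 (.cmp 1 (.cmp 0 .mn (.rf 1) (.gap (.rf 1))) (.rf
    1) (.cmp 4 (.gap (.ru 14 (.ru 16 (.ru 18 (.ru 20 (.p1 0 1 8 3 2 5)))))) (.ru 16 (.ru 20 (.k4
    0 4 2 5))) (.gap (.ru 14 (.ru 16 (.ru 18 (.ru 20 (.p1 0 1 8 3 2 5)))))))) (.rf 21) (.cmp 3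
    (.cmp 5 (.gap (.rf 5)) (.rf 5) (.gap (.rf 5))) (.rf 1) (.gap (.rf 1)))) (.gap (.ru 15 (.ru
    17 (.th 7 2 1 5 (.lc 0 5 7 3 (.rf 6) (.cmp 4 (.cmp 7 (.cmp 0 .mn (.rf 1) (.gap (.rf 1)))
    (.rf 1) (.cmp 1 (.gap (.rf 1)) (.rf 1) (.gap (.ru 14 (.ru 16 (.ru 18 (.ru 20 (.p1 7 1 8 3 2
    5)))))))) (.ru 16 (.ru 20 (.k4 7 4 2 5))) (.cmp 5 (.cmp 2 (.gap (.ru 14 (.ru 16 (.ru 18 (.ru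
    20 (.p1 7 1 8 3 2 5)))))) (.rf 21) (.gap (.ru 14 (.ru 16 (.ru 18 (.p2 7 1 5 2 3 8)))))) (.rf
    27) (.cmp 3 (.gap (.ru 14 (.ru 16 (.ru 18 (.p2 7 1 5 2 3 8))))) (.rf 1) (.gap (.rf
    1))))))))))) (.cmp 2 (.cmp 1 (.cmp 0 .mn (.rf 1) (.gap (.rf 1))) (.rf 1) (.cmp 4 (.gap (.rf
    1)) (.rf 1) (.gap (.rf 1)))) (.rf 1) (.cmp 3 (.cmp 5 (.gap (.rf 1)) (.rf 1) (.gap (.rf 1)))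
    (.rf 1) (.gap (.rf 1)))) (.cmp 4 (.gap (.ru 15 (.ru 17 (.lc 0 5 7 3 (.rf 6) (.cmp 4 (.cmp 1
    (.cmp 0 .mn (.ru 18 (.k4 0 2 1 5)) (.gap (.ru 14 (.ru 16 (.ru 18 (.ru 20 (.p1 7 1 8 3 2
    5))))))) (.rf 1) (.cmp 7 (.gap (.rf 1)) (.rf 1) (.gap (.rf 1)))) (.rf 1) (.cmp 5 (.cmp 2
    (.gap (.rf 1)) (.rf 1) (.gap (.rf 1))) (.rf 1) (.cmp 3 (.gap (.rf 1)) (.rf 1) (.gap (.ru 14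
    (.ru 16 (.ru 18 (.p2 1 7 5 2 3 8)))))))))))) (.cmp 2 (.cmp 1 (.cmp 0 .mn (.ru 18 (.k4 0 2 1
    5)) (.gap (.ru 14 (.ru 16 (.ru 18 (.ru 20 (.p1 4 1 8 3 2 5))))))) (.rf 1) (.cmp 4 (.gap (.rf
    1)) (.rf 1) (.gap (.rf 1)))) (.rf 1) (.cmp 3 (.cmp 5 (.gap (.rf 1)) (.rf 1) (.gap (.rf 1)))
    (.rf 1) (.gap (.ru 14 (.ru 16 (.ru 18 (.p2 1 4 5 2 3 8))))))) (.gap (.ru 15 (.ru 17 (.lc 0 5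
    7 3 (.rf 6) (.cmp 7 (.cmp 1 (.cmp 0 .mn (.ru 18 (.k4 0 2 1 5)) (.gap (.ru 14 (.ru 16 (.ru 18
    (.ru 20 (.p1 7 1 8 3 2 5))))))) (.rf 1) (.cmp 4 (.gap (.rf 1)) (.rf 1) (.gap (.rf 1)))) (.rf
    1) (.cmp 5 (.cmp 2 (.gap (.rf 1)) (.rf 1) (.gap (.rf 1))) (.rf 1) (.cmp 3 (.gap (.rf 1))
    (.rf 1) (.gap (.ru 14 (.ru 16 (.ru 18 (.p2 1 7 5 2 3 8)))))))))))))) (.cmp 2 (.cmp 1 (.cmp 0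
    .mn (.ru 18 (.k4 0 2 1 5)) (.gap (.ru 14 (.ru 16 (.ru 18 (.ru 20 (.k4 8 2 1 3))))))) (.rf 1)
    (.cmp 4 (.gap (.rf 1)) (.rf 1) (.gap (.rf 1)))) (.rf 1) (.cmp 3 (.cmp 5 (.gap (.rf 1)) (.rf
    1) (.gap (.rf 1))) (.rf 1) (.gap (.rf 5)))) (.cmp 3 (.cmp 5 (.gap (.ru 15 (.ru 17 (.lc 0 5 7
    3 (.rf 6) (.cmp 2 (.cmp 1 (.cmp 0 .mn (.rf 4) (.gap (.ru 14 (.ru 16 (.ru 18 (.ru 20 (.p1 7 1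
    8 3 2 5))))))) (.rf 1) (.cmp 4 (.gap (.rf 1)) (.rf 1) (.gap (.rf 1)))) (.rf 1) (.cmp 5 (.cmp
    7 (.gap (.rf 1)) (.rf 1) (.gap (.rf 1))) (.rf 1) (.cmp 3 (.gap (.rf 1)) (.rf 1) (.gap (.rf
    4))))))))) (.ru 17 (.rf 6)) (.gap (.ru 15 (.ru 17 (.lc 0 5 2 7 (.cmp 2 (.cmp 1 (.cmp 0 .mn
    (.rf 4) (.gap (.ru 14 (.ru 16 (.ru 18 (.ru 20 (.p1 7 1 8 3 2 5))))))) (.rf 1) (.cmp 4 (.gap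
    (.rf 1)) (.rf 1) (.gap (.rf 1)))) (.rf 1) (.cmp 7 (.cmp 5 (.gap (.rf 1)) (.rf 1) (.gap (.rf
    1))) (.rf 1) (.cmp 3 (.gap (.rf 1)) (.rf 1) (.gap (.rf 4))))) (.k4 0 2 7 3)))))) (.ru 17
    (.eq 3 3)) (.gap (.ru 15 (.ru 17 (.lc 0 5 2 7 (.cmp 2 (.cmp 1 (.cmp 0 .mn (.rf 1) (.gap (.rf
    1))) (.rf 1) (.cmp 4 (.gap (.ru 14 (.ru 16 (.ru 18 (.p2 1 7 5 2 3 8))))) (.ru 18 (.k4 1 2 4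
    5)) (.gap (.ru 14 (.ru 16 (.ru 18 (.th 1 8 4 5 (.p1 1 7 8 3 2 5)))))))) (.rf 4) (.cmp 3
    (.cmp 5 (.gap (.rf 4)) (.rf 4) (.gap (.rf 4))) (.rf 1) (.cmp 7 (.gap (.rf 1)) (.rf 1) (.gap
    (.rf 1))))) (.k4 0 2 3 7)))))))))) (.gap (.ru 12 (.ru 13 (.lc 0 5 2 6 (.rf 6) (.lc 1 5 2 6
    (.rf 6) (.p2 0 1 5 2 6 3))))))))))))))))) (.ru 8 (.cmp 4 (.cmp 1 (.cmp 0 .mn (.rf 6) (.gap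
    (.ru 12 (.rf 6)))) (.rf 6) (.gap (.ru 12 (.rf 6)))) (.rf 6) (.cmp 3 (.cmp 2 (.gap (.ru 12
    (.rf 6))) (.ru 12 (.rf 6)) (.gap (.ru 12 (.rf 6)))) (.rf 7) (.gap (.ru 12 (.rf 6)))))) (.gap
    (.rf 23))))))) (.ru 10 (.eq 2 2)) (.cmp 3 (.gap (.ru 10 (.cmp 2 (.cmp 1 (.cmp 0 .mn (.rf 0)
    (.gap (.ru 8 (.ru 9 (.ru 11 (.ru 19 (.cmp 2 (.cmp 5 (.cmp 0 .mn (.rf 6) (.gap (.ru 12 (.ru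
    13 (.th 6 2 5 4 (.th 0 5 6 2 (.lc 0 5 6 2 (.lc 0 5 6 3 (.p4 2 3 6 0 5 1) (.rf 6)) (.rf
    6)))))))) (.rf 7) (.cmp 1 (.gap (.ru 12 (.ru 13 (.lc 5 1 6 2 (.rf 6) (.lc 5 1 6 3 (.rf 6)
    (.p1 2 3 0 5 1 6)))))) (.rf 6) (.gap (.ru 12 (.ru 13 (.lc 5 4 6 3 (.rf 6) (.lc 0 2 5 3 (.lc
    0 2 6 4 (.k4 0 2 6 3) (.p2 2 5 4 0 3 1)) (.lc 0 2 6 4 (.p4 5 6 3 0 2 4) (.k4 0 2 5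
    4))))))))) (.ru 12 (.lc 5 4 1 3 (.lc 5 4 2 3 (.rf 6) (.th 5 3 0 2 (.cmp 2 (.cmp 5 (.cmp 0
    .mn (.cmp 2 (.cmp 5 (.cmp 0 .mn (.rf 1) (.gap (.rf 1))) (.rf 1) (.cmp 1 (.gap (.rf 1)) (.rf
    1) (.gap (.ru 14 (.ru 16 (.ru 18 (.ru 20 (.p1 0 1 8 2 3 5)))))))) (.rf 26) (.cmp 3 (.cmp 4
    (.gap (.rf 5)) (.rf 5) (.gap (.rf 5))) (.rf 1) (.gap (.rf 1)))) (.gap (.ru 15 (.ru 17 (.th 7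
    2 5 4 (.lc 0 5 7 2 (.rf 6) (.cmp 1 (.cmp 7 (.cmp 0 .mn (.rf 1) (.gap (.rf 1))) (.rf 1) (.cmp
    5 (.gap (.rf 1)) (.rf 1) (.gap (.rf 1)))) (.rf 1) (.cmp 4 (.cmp 2 (.gap (.ru 14 (.ru 16 (.ru
    18 (.ru 20 (.p1 7 1 8 2 3 5)))))) (.rf 26) (.gap (.ru 14 (.ru 16 (.ru 18 (.p2 7 1 8 2 3
    5)))))) (.ru 16 (.ru 20 (.k4 7 4 5 3))) (.cmp 3 (.gap (.ru 14 (.ru 16 (.ru 18 (.p2 7 1 8 2 3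
    5))))) (.rf 1) (.gap (.rf 1))))))))))) (.ru 15 (.rf 6)) (.cmp 1 (.gap (.ru 15 (.ru 17 (.th 7
    3 0 2 (.th 5 1 7 3 (.lc 5 1 7 2 (.cmp 1 (.cmp 5 (.cmp 0 .mn (.rf 1) (.gap (.rf 1))) (.rf 1)
    (.cmp 7 (.gap (.rf 1)) (.rf 1) (.gap (.rf 1)))) (.rf 1) (.cmp 4 (.cmp 2 (.gap (.rf 24)) (.rf
    24) (.gap (.rf 24))) (.rf 24) (.cmp 3 (.gap (.ru 14 (.ru 16 (.ru 18 (.p1 1 7 5 3 2 8)))))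
    (.rf 1) (.gap (.rf 1))))) (.rf 6))))))) (.cmp 2 (.cmp 5 (.cmp 0 .mn (.rf 1) (.gap (.rf 1)))
    (.rf 1) (.cmp 1 (.gap (.rf 1)) (.rf 1) (.gap (.rf 1)))) (.rf 1) (.cmp 3 (.cmp 4 (.gap (.rf
    1)) (.rf 1) (.gap (.rf 1))) (.rf 1) (.gap (.rf 1)))) (.gap (.ru 15 (.ru 17 (.th 7 3 0 2 (.th
    1 2 7 3 (.lc 5 4 7 3 (.th 5 7 1 2 (.cmp 7 (.cmp 5 (.cmp 0 .mn (.ru 18 (.th 0 1 5 7 (.k4 0 1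
    5 3))) (.gap (.ru 14 (.ru 16 (.ru 18 (.th 8 1 5 7 (.p1 1 7 8 2 3 5))))))) (.rf 24) (.cmp 1
    (.gap (.rf 24)) (.rf 1) (.gap (.rf 1)))) (.rf 1) (.cmp 4 (.cmp 2 (.gap (.rf 1)) (.rf 1)
    (.gap (.rf 1))) (.rf 1) (.cmp 3 (.gap (.rf 1)) (.rf 1) (.gap (.ru 14 (.ru 16 (.ru 18 (.p1 7
    1 5 3 2 8))))))))) (.k4 7 3 2 4))))))))) (.cmp 2 (.cmp 5 (.cmp 0 .mn (.ru 18 (.th 0 1 5 4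
    (.k4 0 1 5 3))) (.gap (.ru 14 (.ru 18 (.ru 20 (.th 0 5 8 2 (.lc 0 5 8 1 (.p1 0 1 5 3 2 8)
    (.k4 0 5 1 3)))))))) (.rf 24) (.cmp 1 (.gap (.rf 24)) (.rf 1) (.gap (.rf 1)))) (.rf 1) (.cmp
    3 (.cmp 4 (.gap (.rf 1)) (.rf 1) (.gap (.rf 1))) (.rf 1) (.gap (.rf 5)))) (.cmp 3 (.cmp 4
    (.gap (.ru 15 (.ru 17 (.th 7 3 5 4 (.th 2 4 7 3 (.lc 5 4 7 3 (.th 5 7 0 2 (.cmp 2 (.cmp 5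
    (.cmp 0 .mn (.rf 4) (.gap (.ru 14 (.ru 16 (.ru 18 (.th 8 1 5 7 (.p1 1 7 8 2 3 5))))))) (.rf
    24) (.cmp 1 (.gap (.rf 24)) (.rf 1) (.gap (.rf 1)))) (.rf 1) (.cmp 4 (.cmp 7 (.gap (.rf 1))
    (.rf 1) (.gap (.rf 1))) (.rf 1) (.cmp 3 (.gap (.rf 1)) (.rf 1) (.gap (.rf 4)))))) (.k4 2 4 7
    3))))))) (.cmp 2 (.cmp 5 (.cmp 0 .mn (.rf 4) (.gap (.ru 14 (.ru 16 (.ru 18 (.th 8 1 5 4 (.p1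
    1 4 8 2 3 5))))))) (.rf 24) (.cmp 1 (.gap (.rf 24)) (.rf 1) (.gap (.rf 1)))) (.rf 1) (.cmp 3
    (.cmp 4 (.gap (.rf 1)) (.rf 1) (.gap (.rf 1))) (.rf 1) (.gap (.rf 4)))) (.gap (.ru 15 (.ru
    17 (.lc 5 4 2 7 (.rf 6) (.cmp 2 (.cmp 5 (.cmp 0 .mn (.rf 4) (.gap (.ru 14 (.ru 16 (.ru 18
    (.th 8 1 5 4 (.p1 1 7 8 2 3 5))))))) (.ru 14 (.rf 6)) (.cmp 1 (.gap (.ru 14 (.ru 16 (.ru 18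
    (.ru 20 (.th 5 1 8 7 (.p1 1 7 5 3 2 8))))))) (.rf 1) (.gap (.rf 1)))) (.rf 1) (.cmp 7 (.cmp
    4 (.gap (.rf 1)) (.rf 1) (.gap (.rf 1))) (.rf 1) (.cmp 3 (.gap (.rf 1)) (.rf 1) (.gap (.rf
    4)))))))))) (.ru 17 (.eq 3 3)) (.gap (.ru 15 (.ru 17 (.lc 5 4 2 7 (.rf 6) (.cmp 2 (.cmp 5
    (.cmp 0 .mn (.rf 1) (.gap (.rf 1))) (.rf 1) (.cmp 1 (.gap (.rf 1)) (.rf 1) (.gap (.ru 14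
    (.ru 16 (.ru 18 (.p3 1 7 5 3 2 8))))))) (.rf 4) (.cmp 3 (.cmp 4 (.gap (.rf 4)) (.rf 4) (.gap
    (.rf 4))) (.rf 1) (.cmp 7 (.gap (.rf 1)) (.rf 1) (.gap (.rf 1))))))))))))) (.p1 2 5 0 3 1
    4))) (.cmp 3 (.cmp 4 (.gap (.ru 12 (.ru 13 (.th 6 3 5 4 (.th 2 4 6 3 (.lc 5 4 6 3 (.rf 6)
    (.lc 5 4 1 3 (.lc 0 2 5 3 (.k4 2 4 6 3) (.p1 2 3 0 5 4 6)) (.lc 0 2 5 3 (.p1 2 5 0 3 1 4)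
    (.k4 5 4 1 2))))))))) (.rf 6) (.gap (.ru 12 (.ru 13 (.th 2 6 5 4 (.lc 5 4 2 6 (.th 5 2 1 3
    (.lc 5 4 1 3 (.lc 5 2 1 3 (.k4 2 6 4 3) (.p1 2 3 0 5 4 6)) (.k4 5 2 1 4))) (.rf 6)))))))
    (.ru 13 (.th 2 3 5 4 (.lc 5 4 1 3 (.lc 5 4 2 3 (.th 5 2 1 3 (.cmp 2 (.cmp 5 (.cmp 0 .mn
    (.cmp 2 (.cmp 5 (.cmp 0 .mn (.rf 1) (.gap (.rf 1))) (.rf 1) (.cmp 1 (.gap (.rf 1)) (.rf 1)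
    (.gap (.ru 14 (.ru 16 (.ru 18 (.ru 20 (.p1 0 1 8 3 2 5)))))))) (.rf 26) (.cmp 3 (.cmp 4
    (.gap (.rf 5)) (.rf 5) (.gap (.rf 5))) (.rf 1) (.gap (.rf 1)))) (.gap (.ru 15 (.ru 17 (.th 7
    2 5 4 (.lc 0 5 7 2 (.k4 0 2 7 3) (.cmp 1 (.cmp 7 (.cmp 0 .mn (.rf 1) (.gap (.rf 1))) (.rf 1)
    (.cmp 5 (.gap (.rf 1)) (.rf 1) (.gap (.rf 1)))) (.rf 1) (.cmp 4 (.cmp 2 (.gap (.ru 14 (.ru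
    16 (.ru 18 (.ru 20 (.p1 7 1 8 3 2 5)))))) (.rf 26) (.gap (.ru 14 (.ru 16 (.ru 18 (.p2 7 1 5
    2 3 8)))))) (.ru 16 (.k4 7 2 5 4)) (.cmp 3 (.gap (.ru 14 (.ru 16 (.ru 18 (.p2 7 1 5 2 3
    8))))) (.rf 1) (.gap (.rf 1))))))))))) (.ru 17 (.rf 6)) (.cmp 1 (.gap (.ru 15 (.ru 17 (.th 7
    3 0 2 (.th 5 1 7 3 (.th 7 2 1 3 (.lc 5 1 7 2 (.cmp 1 (.cmp 5 (.cmp 0 .mn (.rf 1) (.gap (.rf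
    1))) (.rf 1) (.cmp 7 (.gap (.rf 1)) (.rf 1) (.gap (.rf 1)))) (.rf 1) (.cmp 4 (.cmp 2 (.gap
    (.rf 24)) (.rf 24) (.gap (.rf 24))) (.rf 24) (.cmp 3 (.gap (.ru 14 (.ru 16 (.ru 18 (.p1 1 7
    5 2 3 8))))) (.rf 1) (.gap (.rf 1))))) (.k4 7 2 1 3)))))))) (.cmp 2 (.cmp 5 (.cmp 0 .mn (.rf
    1) (.gap (.rf 1))) (.rf 1) (.cmp 1 (.gap (.rf 1)) (.rf 1) (.gap (.rf 1)))) (.rf 1) (.cmp 3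
    (.cmp 4 (.gap (.rf 1)) (.rf 1) (.gap (.rf 1))) (.rf 1) (.gap (.rf 1)))) (.gap (.ru 15 (.ru
    17 (.th 7 3 0 2 (.th 1 2 7 3 (.lc 5 2 7 3 (.th 5 7 1 2 (.cmp 7 (.cmp 5 (.cmp 0 .mn (.ru 18
    (.th 0 1 5 7 (.k4 0 1 5 2))) (.gap (.ru 14 (.ru 16 (.ru 18 (.th 8 1 5 7 (.p1 1 7 8 3 2
    5))))))) (.rf 24) (.cmp 1 (.gap (.rf 24)) (.rf 1) (.gap (.rf 1)))) (.rf 1) (.cmp 4 (.cmp 2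
    (.gap (.rf 1)) (.rf 1) (.gap (.rf 1))) (.rf 1) (.cmp 3 (.gap (.rf 1)) (.rf 1) (.gap (.ru 14
    (.ru 16 (.ru 18 (.p1 7 1 5 2 3 8))))))))) (.rf 6))))))))) (.cmp 2 (.cmp 5 (.cmp 0 .mn (.ru
    18 (.th 0 1 5 2 (.k4 0 1 5 2))) (.gap (.ru 14 (.ru 16 (.ru 18 (.th 8 1 5 2 (.k4 8 1 2
    3))))))) (.rf 24) (.cmp 1 (.gap (.rf 24)) (.rf 1) (.gap (.rf 1)))) (.rf 1) (.cmp 3 (.cmp 4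
    (.gap (.rf 1)) (.rf 1) (.gap (.rf 1))) (.rf 1) (.gap (.rf 5)))) (.cmp 3 (.cmp 4 (.gap (.ru
    15 (.ru 17 (.lc 5 4 7 3 (.cmp 2 (.cmp 5 (.cmp 0 .mn (.rf 4) (.gap (.ru 14 (.ru 16 (.ru 18
    (.th 8 1 5 2 (.p1 1 7 8 3 2 5))))))) (.rf 24) (.cmp 1 (.gap (.rf 24)) (.rf 1) (.gap (.rf
    1)))) (.rf 1) (.cmp 4 (.cmp 7 (.gap (.rf 1)) (.rf 1) (.gap (.rf 1))) (.rf 1) (.cmp 3 (.gap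
    (.rf 1)) (.rf 1) (.gap (.rf 4))))) (.rf 6))))) (.cmp 2 (.cmp 5 (.cmp 0 .mn (.rf 4) (.gap
    (.ru 14 (.ru 16 (.ru 18 (.th 8 1 5 2 (.p1 1 4 8 3 2 5))))))) (.rf 24) (.cmp 1 (.gap (.rf
    24)) (.rf 1) (.gap (.rf 1)))) (.rf 1) (.cmp 3 (.cmp 4 (.gap (.rf 1)) (.rf 1) (.gap (.rf 1)))
    (.rf 1) (.gap (.rf 4)))) (.gap (.ru 15 (.ru 17 (.th 2 7 5 4 (.lc 5 4 2 7 (.k4 2 7 4 3) (.cmp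
    2 (.cmp 5 (.cmp 0 .mn (.rf 4) (.gap (.ru 14 (.ru 16 (.ru 18 (.th 8 1 5 2 (.p1 1 7 8 3 2
    5))))))) (.ru 14 (.rf 6)) (.cmp 1 (.gap (.ru 14 (.ru 16 (.ru 18 (.ru 20 (.th 5 1 8 7 (.p1 1
    7 5 2 3 8))))))) (.rf 1) (.gap (.rf 1)))) (.rf 1) (.cmp 7 (.cmp 4 (.gap (.rf 1)) (.rf 1)
    (.gap (.rf 1))) (.rf 1) (.cmp 3 (.gap (.rf 1)) (.rf 1) (.gap (.rf 4))))))))))) (.ru 17 (.eq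
    3 3)) (.gap (.ru 15 (.ru 17 (.lc 5 4 2 7 (.k4 2 3 4 7) (.cmp 2 (.cmp 5 (.cmp 0 .mn (.rf 1)
    (.gap (.rf 1))) (.rf 1) (.cmp 1 (.gap (.rf 1)) (.rf 1) (.gap (.ru 14 (.ru 16 (.ru 18 (.p3 1
    7 5 2 3 8))))))) (.rf 4) (.cmp 3 (.cmp 4 (.gap (.rf 4)) (.rf 4) (.gap (.rf 4))) (.rf 1)
    (.cmp 7 (.gap (.rf 1)) (.rf 1) (.gap (.rf 1)))))))))))) (.rf 6)) (.rf 6)))) (.gap (.ru 12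
    (.ru 13 (.lc 5 4 2 6 (.lc 0 3 4 6 (.k4 0 2 5 4) (.p2 0 4 5 2 6 3)) (.rf 6))))))))))))) (.ru
    8 (.ru 9 (.ru 19 (.cmp 2 (.cmp 1 (.cmp 0 .mn (.rf 6) (.gap (.ru 12 (.ru 13 (.th 6 2 1 4 (.th
    0 1 6 2 (.lc 0 1 6 2 (.lc 6 2 1 4 (.rf 6) (.p2 1 6 3 0 2 4)) (.rf 6)))))))) (.rf 7) (.gap
    (.ru 12 (.ru 13 (.lc 1 4 6 3 (.rf 6) (.lc 0 2 6 4 (.p4 1 6 3 0 2 4) (.k4 0 2 1 4))))))) (.rf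
    6) (.cmp 3 (.cmp 4 (.gap (.ru 12 (.lc 1 4 6 3 (.rf 6) (.lc 2 4 6 3 (.p1 2 3 0 1 4 6) (.k4 0
    2 1 3))))) (.rf 6) (.gap (.ru 12 (.ru 13 (.lc 1 4 2 6 (.cmp 4 (.cmp 1 (.cmp 0 .mn (.cmp 4
    (.cmp 1 (.cmp 0 .mn (.rf 1) (.gap (.rf 1))) (.rf 1) (.cmp 2 (.gap (.ru 16 (.lc 0 8 1 4 (.rf
    21) (.k4 0 2 1 4)))) (.rf 21) (.gap (.rf 5)))) (.rf 5) (.cmp 3 (.cmp 6 (.gap (.rf 5)) (.rf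
    5) (.gap (.rf 5))) (.rf 1) (.gap (.rf 1)))) (.gap (.ru 15 (.ru 17 (.th 7 2 1 4 (.th 0 1 7 2
    (.cmp 2 (.cmp 7 (.cmp 0 .mn (.rf 1) (.gap (.rf 1))) (.rf 1) (.cmp 1 (.gap (.rf 1)) (.rf 1)
    (.gap (.ru 14 (.ru 18 (.lc 0 2 8 6 (.lc 0 8 1 4 (.p3 8 2 0 1 4 6) (.k4 0 1 2 4)) (.p2 1 6 3
    0 2 8))))))) (.lc 0 1 7 2 (.lc 7 2 1 4 (.rf 21) (.p2 1 7 3 0 2 4)) (.rf 21)) (.cmp 6 (.cmp 4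
    (.gap (.ru 16 (.ru 18 (.lc 0 2 7 8 (.p2 1 7 3 0 2 8) (.rf 27))))) (.ru 16 (.lc 0 1 7 2 (.p2
    1 7 3 0 2 4) (.k4 7 2 1 4))) (.gap (.ru 16 (.ru 18 (.lc 0 2 7 8 (.p2 1 7 3 0 2 8) (.rf
    27)))))) (.ru 18 (.rf 6)) (.cmp 3 (.gap (.ru 16 (.ru 18 (.lc 0 2 7 8 (.p2 1 7 3 0 2 8) (.rf
    27))))) (.rf 1) (.gap (.rf 1))))))))))) (.cmp 4 (.cmp 1 (.cmp 0 .mn (.rf 1) (.gap (.rf 1)))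
    (.rf 1) (.cmp 2 (.gap (.rf 1)) (.rf 1) (.gap (.rf 1)))) (.rf 1) (.cmp 3 (.cmp 6 (.gap (.rf
    1)) (.rf 1) (.gap (.rf 1))) (.rf 1) (.gap (.rf 1)))) (.cmp 2 (.gap (.ru 15 (.ru 17 (.lc 1 4
    7 3 (.p1 2 3 0 1 4 6) (.lc 0 2 7 4 (.p4 1 7 3 0 2 4) (.k4 0 2 1 4)))))) (.ru 17 (.k4 0 2 1
    3)) (.gap (.ru 17 (.lc 1 4 7 3 (.p1 2 3 0 1 4 6) (.lc 2 4 7 3 (.p1 2 3 0 1 4 7) (.k4 0 2 1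
    3))))))) (.ru 17 (.p1 2 3 0 1 4 6)) (.cmp 3 (.cmp 6 (.gap (.ru 15 (.ru 17 (.lc 4 6 7 3 (.cmp
    4 (.cmp 1 (.cmp 0 .mn (.rf 4) (.gap (.ru 16 (.ru 20 (.th 0 1 8 7 (.lc 0 1 8 7 (.k4 1 4 2 7)
    (.p2 1 7 3 0 2 4))))))) (.rf 1) (.cmp 2 (.gap (.rf 1)) (.rf 1) (.gap (.rf 1)))) (.rf 1)
    (.cmp 6 (.cmp 7 (.gap (.rf 1)) (.rf 1) (.gap (.rf 1))) (.rf 1) (.cmp 3 (.gap (.rf 1)) (.rf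
    1) (.gap (.rf 4))))) (.p1 2 3 0 1 4 6))))) (.cmp 4 (.cmp 1 (.cmp 0 .mn (.rf 4) (.gap (.ru 14
    (.ru 20 (.th 0 1 8 6 (.lc 0 1 8 6 (.rf 6) (.p2 1 6 3 0 2 4))))))) (.rf 1) (.cmp 2 (.gap (.rf
    1)) (.rf 1) (.gap (.rf 1)))) (.rf 1) (.cmp 3 (.cmp 6 (.gap (.rf 1)) (.rf 1) (.gap (.rf 1)))
    (.rf 1) (.gap (.rf 4)))) (.gap (.cmp 4 (.cmp 1 (.cmp 0 .mn (.rf 4) (.gap (.ru 14 (.ru 20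
    (.th 0 1 8 7 (.lc 0 1 8 6 (.rf 6) (.p2 1 6 3 0 2 4))))))) (.rf 1) (.cmp 2 (.gap (.rf 1))
    (.rf 1) (.gap (.rf 1)))) (.rf 1) (.cmp 7 (.cmp 6 (.gap (.rf 1)) (.rf 1) (.gap (.rf 1))) (.rf
    1) (.cmp 3 (.gap (.rf 1)) (.rf 1) (.gap (.rf 4))))))) (.ru 17 (.eq 3 3)) (.gap (.cmp 4 (.cmp
    1 (.cmp 0 .mn (.rf 1) (.gap (.rf 1))) (.rf 1) (.cmp 2 (.gap (.ru 14 (.ru 18 (.th 8 6 0 2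
    (.th 1 2 8 6 (.lc 0 2 8 6 (.th 0 8 1 2 (.lc 0 8 1 4 (.p1 8 2 0 1 4 6) (.k4 0 2 1 4))) (.p4 1
    6 3 0 2 8))))))) (.rf 4) (.gap (.rf 4)))) (.rf 4) (.cmp 3 (.cmp 6 (.gap (.rf 4)) (.rf 4)
    (.gap (.rf 4))) (.rf 1) (.cmp 7 (.gap (.rf 1)) (.rf 1) (.gap (.rf 1)))))))) (.rf 6))))))
    (.rf 6) (.gap (.ru 13 (.lc 1 4 2 6 (.lc 0 3 4 6 (.k4 0 2 1 4) (.p2 0 4 6 2 1 3)) (.rf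
    6))))))))) (.gap (.ru 8 (.ru 9 (.ru 11 (.ru 19 (.th 0 5 1 3 (.th 1 2 5 4 (.cmp 2 (.cmp 1
    (.cmp 0 .mn (.rf 6) (.gap (.ru 12 (.ru 13 (.lc 0 5 6 2 (.lc 0 5 6 3 (.p4 2 3 6 0 5 1) (.rf
    6)) (.rf 6)))))) (.rf 6) (.cmp 5 (.gap (.ru 12 (.ru 13 (.th 6 2 0 5 (.th 1 5 6 2 (.lc 0 5 6
    2 (.th 0 6 1 5 (.lc 0 6 1 5 (.rf 6) (.p2 0 1 3 6 2 5))) (.rf 6))))))) (.rf 7) (.gap (.ru 12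
    (.ru 13 (.lc 5 4 6 3 (.rf 6) (.lc 0 2 5 3 (.lc 0 2 6 4 (.k4 0 2 6 3) (.p2 5 2 4 0 3 1)) (.lc
    0 2 6 4 (.p2 5 6 3 0 2 4) (.k4 0 5 2 4))))))))) (.ru 12 (.lc 5 4 2 3 (.rf 6) (.cmp 2 (.cmp 1
    (.cmp 0 .mn (.cmp 2 (.cmp 1 (.cmp 0 .mn (.rf 1) (.gap (.rf 1))) (.rf 1) (.cmp 5 (.gap (.ru
    14 (.ru 16 (.ru 18 (.ru 20 (.p1 0 1 8 2 3 5)))))) (.ru 14 (.rf 6)) (.gap (.ru 14 (.ru 16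
    (.ru 18 (.p1 0 1 5 3 2 8))))))) (.rf 21) (.cmp 3 (.cmp 4 (.gap (.rf 5)) (.rf 5) (.gap (.rf
    5))) (.rf 1) (.gap (.rf 1)))) (.gap (.ru 15 (.ru 17 (.lc 0 5 7 2 (.rf 6) (.th 7 5 1 2 (.cmp
    5 (.cmp 7 (.cmp 0 .mn (.rf 1) (.gap (.rf 1))) (.rf 1) (.cmp 1 (.gap (.rf 1)) (.rf 1) (.gap
    (.ru 14 (.ru 16 (.ru 18 (.ru 20 (.p1 7 1 8 2 3 5)))))))) (.ru 14 (.rf 6)) (.cmp 4 (.cmp 2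
    (.gap (.ru 14 (.ru 16 (.ru 18 (.p1 7 1 5 3 2 8))))) (.rf 21) (.gap (.ru 14 (.ru 16 (.ru 18
    (.p1 7 1 5 3 2 8)))))) (.ru 16 (.ru 18 (.p2 7 1 3 5 4 2))) (.cmp 3 (.gap (.ru 14 (.ru 16
    (.ru 18 (.p1 7 1 5 3 2 8))))) (.rf 1) (.gap (.rf 1))))))))))) (.cmp 2 (.cmp 1 (.cmp 0 .mn
    (.rf 1) (.gap (.rf 1))) (.rf 1) (.cmp 5 (.gap (.rf 1)) (.rf 1) (.gap (.rf 1)))) (.rf 1)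
    (.cmp 3 (.cmp 4 (.gap (.rf 1)) (.rf 1) (.gap (.rf 1))) (.rf 1) (.gap (.rf 1)))) (.cmp 5
    (.gap (.ru 15 (.ru 17 (.th 7 2 0 5 (.th 1 5 7 2 (.lc 0 5 7 2 (.rf 6) (.cmp 5 (.cmp 1 (.cmp 0
    .mn (.ru 18 (.k4 0 5 1 3)) (.gap (.ru 14 (.ru 16 (.ru 18 (.ru 20 (.p1 7 1 8 2 3 5)))))))
    (.rf 1) (.cmp 7 (.gap (.rf 1)) (.rf 1) (.gap (.rf 1)))) (.rf 1) (.cmp 4 (.cmp 2 (.gap (.rf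
    1)) (.rf 1) (.gap (.rf 1))) (.rf 1) (.cmp 3 (.gap (.rf 1)) (.rf 1) (.gap (.ru 14 (.ru 16
    (.ru 18 (.p1 1 7 5 3 2 8)))))))))))))) (.ru 15 (.rf 6)) (.gap (.ru 15 (.ru 17 (.cmp 7 (.cmp
    1 (.cmp 0 .mn (.ru 18 (.k4 0 5 1 3)) (.gap (.ru 14 (.ru 16 (.ru 18 (.lc 0 5 8 7 (.p1 0 1 5 3
    2 8) (.k4 0 2 7 3))))))) (.rf 1) (.cmp 5 (.gap (.rf 1)) (.rf 1) (.gap (.rf 1)))) (.rf 1)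
    (.cmp 4 (.cmp 2 (.gap (.rf 1)) (.rf 1) (.gap (.rf 1))) (.rf 1) (.cmp 3 (.gap (.rf 1)) (.rf
    1) (.gap (.ru 18 (.lc 0 5 1 8 (.k4 0 5 1 3) (.rf 27)))))))))))) (.cmp 2 (.cmp 1 (.cmp 0 .mn
    (.ru 18 (.k4 0 5 1 3)) (.gap (.ru 14 (.ru 18 (.lc 0 5 8 2 (.rf 6) (.p1 5 2 0 3 1 8))))))
    (.rf 1) (.cmp 5 (.gap (.rf 1)) (.rf 1) (.gap (.rf 1)))) (.rf 1) (.cmp 3 (.cmp 4 (.gap (.rf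
    1)) (.rf 1) (.gap (.rf 1))) (.rf 1) (.gap (.rf 5)))) (.cmp 3 (.cmp 4 (.gap (.ru 15 (.ru 17
    (.cmp 2 (.cmp 1 (.cmp 0 .mn (.rf 4) (.gap (.ru 14 (.ru 16 (.ru 18 (.th 8 2 0 5 (.lc 0 5 8 2
    (.rf 6) (.p2 8 3 7 2 1 5)))))))) (.rf 1) (.cmp 5 (.gap (.rf 1)) (.rf 1) (.gap (.rf 1))))
    (.rf 1) (.cmp 4 (.cmp 7 (.gap (.rf 1)) (.rf 1) (.gap (.rf 1))) (.rf 1) (.cmp 3 (.gap (.rf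
    1)) (.rf 1) (.gap (.rf 4)))))))) (.ru 17 (.cmp 2 (.cmp 1 (.cmp 0 .mn (.rf 4) (.gap (.ru 14
    (.ru 16 (.ru 18 (.th 8 2 0 5 (.p3 1 4 8 2 3 5))))))) (.rf 1) (.cmp 5 (.gap (.rf 1)) (.rf 1)
    (.gap (.rf 1)))) (.rf 1) (.cmp 3 (.cmp 4 (.gap (.rf 1)) (.rf 1) (.gap (.rf 1))) (.rf 1)
    (.gap (.rf 4))))) (.gap (.ru 15 (.ru 17 (.lc 5 4 2 7 (.rf 6) (.cmp 2 (.cmp 1 (.cmp 0 .mn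
    (.rf 4) (.gap (.ru 14 (.ru 16 (.ru 18 (.th 8 2 0 5 (.p3 1 7 8 2 3 5))))))) (.rf 1) (.cmp 5
    (.gap (.rf 1)) (.rf 1) (.gap (.rf 1)))) (.rf 1) (.cmp 7 (.cmp 4 (.gap (.rf 1)) (.rf 1) (.gap
    (.rf 1))) (.rf 1) (.cmp 3 (.gap (.rf 1)) (.rf 1) (.gap (.rf 4)))))))))) (.ru 17 (.eq 3 3))
    (.gap (.ru 15 (.ru 17 (.lc 5 4 2 7 (.rf 6) (.cmp 2 (.cmp 1 (.cmp 0 .mn (.rf 1) (.gap (.rf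
    1))) (.rf 1) (.cmp 5 (.gap (.ru 14 (.ru 16 (.ru 18 (.th 8 2 0 5 (.th 1 5 8 2 (.p1 1 7 5 3 2
    8))))))) (.ru 14 (.rf 6)) (.gap (.ru 14 (.ru 16 (.ru 18 (.th 1 8 0 5 (.p1 1 7 8 2 3
    5)))))))) (.rf 4) (.cmp 3 (.cmp 4 (.gap (.rf 4)) (.rf 4) (.gap (.rf 4))) (.rf 1) (.cmp 7
    (.gap (.rf 1)) (.rf 1) (.gap (.rf 1))))))))))))) (.cmp 3 (.cmp 4 (.gap (.ru 12 (.ru 13 (.th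
    6 3 5 4 (.th 2 4 6 3 (.lc 5 4 6 3 (.rf 6) (.cmp 2 (.cmp 1 (.cmp 0 .mn (.cmp 2 (.cmp 1 (.cmp
    0 .mn (.rf 1) (.gap (.rf 1))) (.rf 1) (.cmp 5 (.gap (.ru 14 (.ru 16 (.ru 18 (.ru 20 (.lc 0 5
    8 6 (.rf 6) (.p2 8 3 6 0 5 1))))))) (.ru 14 (.rf 6)) (.gap (.ru 16 (.lc 0 8 5 4 (.rf 21)
    (.ru 22 (.k4 0 2 6 4))))))) (.rf 21) (.cmp 4 (.cmp 6 (.gap (.rf 5)) (.rf 5) (.gap (.rf 5)))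
    (.rf 5) (.cmp 3 (.gap (.rf 5)) (.rf 1) (.gap (.rf 1))))) (.gap (.ru 15 (.ru 17 (.lc 0 5 7 2
    (.p4 2 3 7 0 5 1) (.th 7 5 1 2 (.cmp 2 (.cmp 1 (.cmp 7 (.cmp 0 .mn (.rf 1) (.gap (.rf 1)))
    (.rf 1) (.gap (.rf 1))) (.rf 1) (.cmp 5 (.gap (.ru 14 (.ru 16 (.ru 18 (.ru 20 (.lc 0 5 8 6
    (.rf 6) (.lc 0 2 8 6 (.p4 8 3 6 0 5 7) (.p2 7 1 2 8 5 3)))))))) (.ru 14 (.rf 6)) (.gap (.ru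
    16 (.lc 0 5 7 8 (.k4 0 5 7 3) (.lc 0 8 5 4 (.rf 21) (.lc 0 2 5 3 (.p2 0 7 8 5 3 2) (.k4 0 5
    2 4)))))))) (.rf 21) (.cmp 4 (.cmp 6 (.gap (.ru 16 (.lc 0 5 7 8 (.k4 0 5 7 3) (.rf 27))))
    (.rf 21) (.gap (.ru 16 (.lc 0 5 7 8 (.k4 0 5 7 3) (.rf 27))))) (.ru 16 (.ru 18 (.p2 7 1 3 5
    4 2))) (.cmp 3 (.gap (.ru 16 (.lc 0 5 7 8 (.k4 0 5 7 3) (.rf 27)))) (.rf 1) (.gap (.rf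
    1))))))))))) (.cmp 2 (.cmp 1 (.cmp 0 .mn (.rf 1) (.gap (.rf 1))) (.rf 1) (.cmp 5 (.gap (.rf
    1)) (.rf 1) (.gap (.rf 1)))) (.rf 1) (.cmp 4 (.cmp 6 (.gap (.rf 1)) (.rf 1) (.gap (.rf 1)))
    (.rf 1) (.cmp 3 (.gap (.rf 1)) (.rf 1) (.gap (.rf 1))))) (.cmp 5 (.gap (.ru 15 (.ru 17 (.lc
    0 5 7 2 (.p4 2 3 7 0 5 1) (.cmp 2 (.cmp 7 (.cmp 1 (.cmp 0 .mn (.ru 18 (.k4 0 5 1 3)) (.gap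
    (.ru 14 (.ru 16 (.ru 18 (.ru 20 (.lc 0 5 8 6 (.rf 6) (.lc 0 2 8 6 (.p4 8 3 6 0 5 1) (.p2 7 1
    2 8 5 3))))))))) (.rf 1) (.gap (.rf 1))) (.rf 1) (.cmp 5 (.gap (.rf 1)) (.rf 1) (.gap (.rf
    1)))) (.rf 1) (.cmp 4 (.cmp 6 (.gap (.rf 1)) (.rf 1) (.gap (.rf 1))) (.rf 1) (.cmp 3 (.gap
    (.rf 1)) (.rf 1) (.gap (.ru 18 (.lc 0 5 1 8 (.k4 0 5 1 3) (.rf 27))))))))))) (.ru 15 (.lc 2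
    4 6 3 (.p3 2 3 0 5 4 6) (.k4 0 5 2 3))) (.gap (.ru 15 (.ru 17 (.lc 2 4 6 3 (.lc 0 2 5 3 (.k4
    2 4 6 3) (.p3 2 3 0 5 4 6)) (.lc 5 4 7 3 (.k4 2 4 6 3) (.lc 0 2 7 4 (.k4 0 2 7 3) (.p2 5 2 4
    0 3 1))))))))) (.ru 17 (.cmp 2 (.cmp 1 (.cmp 0 .mn (.ru 18 (.k4 0 5 1 3)) (.gap (.ru 14 (.ru
    16 (.ru 18 (.ru 20 (.lc 0 5 8 2 (.k4 0 5 2 3) (.p2 8 3 6 2 1 5)))))))) (.rf 1) (.cmp 5 (.gap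
    (.rf 1)) (.rf 1) (.gap (.rf 1)))) (.rf 1) (.cmp 4 (.cmp 6 (.gap (.rf 1)) (.rf 1) (.gap (.rf
    1))) (.rf 1) (.cmp 3 (.gap (.rf 1)) (.rf 1) (.gap (.rf 5)))))) (.cmp 4 (.cmp 6 (.gap (.ru 15
    (.ru 17 (.cmp 7 (.cmp 5 (.cmp 1 (.cmp 0 .mn (.rf 4) (.gap (.ru 14 (.ru 16 (.ru 18 (.lc 0 5 8
    6 (.rf 6) (.lc 0 5 8 7 (.p4 8 3 6 0 5 1) (.lc 0 2 8 7 (.p4 8 3 7 0 5 1) (.p4 7 6 3 0 2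
    8))))))))) (.rf 1) (.gap (.rf 1))) (.rf 1) (.cmp 2 (.gap (.rf 1)) (.rf 1) (.gap (.rf 1))))
    (.rf 1) (.cmp 4 (.cmp 6 (.gap (.rf 1)) (.rf 1) (.gap (.rf 1))) (.rf 1) (.cmp 3 (.gap (.rf
    1)) (.rf 1) (.gap (.rf 4)))))))) (.cmp 2 (.cmp 1 (.cmp 0 .mn (.rf 4) (.gap (.ru 14 (.ru 18
    (.lc 0 5 8 6 (.rf 6) (.th 8 5 1 2 (.lc 0 2 8 6 (.p4 8 3 6 0 5 1) (.lc 0 2 5 3 (.k4 0 2 6 3)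
    (.k4 8 5 1 2))))))))) (.rf 1) (.cmp 5 (.gap (.rf 1)) (.rf 1) (.gap (.rf 1)))) (.rf 1) (.cmp
    4 (.cmp 6 (.gap (.rf 1)) (.rf 1) (.gap (.rf 1))) (.rf 1) (.cmp 3 (.gap (.rf 1)) (.rf 1)
    (.gap (.rf 4))))) (.gap (.ru 15 (.ru 17 (.cmp 6 (.cmp 5 (.cmp 1 (.cmp 0 .mn (.rf 4) (.gap
    (.ru 14 (.ru 16 (.ru 18 (.lc 0 5 8 6 (.rf 6) (.lc 0 5 8 7 (.p4 8 3 6 0 5 1) (.lc 0 2 8 6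
    (.p4 8 3 6 0 5 1) (.p4 6 7 3 0 2 8))))))))) (.rf 1) (.gap (.rf 1))) (.rf 1) (.cmp 2 (.gap
    (.rf 1)) (.rf 1) (.gap (.rf 1)))) (.rf 1) (.cmp 4 (.cmp 7 (.gap (.rf 1)) (.rf 1) (.gap (.rf
    1))) (.rf 1) (.cmp 3 (.gap (.rf 1)) (.rf 1) (.gap (.rf 4))))))))) (.ru 17 (.lc 0 2 5 3 (.k4
    2 4 6 3) (.p3 2 3 0 5 4 6))) (.cmp 3 (.gap (.ru 15 (.ru 17 (.th 2 7 5 4 (.lc 0 2 5 3 (.lc 5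
    4 2 7 (.k4 0 5 2 3) (.lc 5 7 6 3 (.rf 6) (.k4 2 7 6 3))) (.lc 2 4 6 3 (.p3 2 3 0 5 4 6) (.k4
    0 5 2 3))))))) (.ru 17 (.eq 3 3)) (.gap (.ru 15 (.ru 17 (.cmp 6 (.cmp 5 (.cmp 1 (.cmp 0 .mn
    (.rf 1) (.gap (.rf 1))) (.rf 1) (.gap (.ru 14 (.ru 16 (.ru 18 (.lc 0 5 8 6 (.rf 6) (.lc 0 5
    8 7 (.p4 8 3 6 0 5 1) (.lc 0 2 8 6 (.p4 8 3 6 0 5 1) (.p4 6 7 3 0 2 8))))))))) (.ru 14 (.rf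
    6)) (.cmp 2 (.gap (.ru 14 (.ru 16 (.ru 18 (.lc 0 5 1 8 (.k4 0 5 1 3) (.lc 5 4 8 7 (.ru 28
    (.p4 8 3 6 0 5 1)) (.rf 21))))))) (.rf 4) (.gap (.rf 4)))) (.rf 4) (.cmp 3 (.cmp 4 (.gap
    (.rf 4)) (.rf 4) (.gap (.rf 4))) (.rf 1) (.cmp 7 (.gap (.rf 1)) (.rf 1) (.gap (.rf
    1))))))))))))))))) (.rf 6) (.gap (.ru 12 (.ru 13 (.th 2 6 5 4 (.lc 5 4 2 6 (.cmp 2 (.cmp 1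
    (.cmp 0 .mn (.cmp 2 (.cmp 1 (.cmp 0 .mn (.rf 1) (.gap (.rf 1))) (.rf 1) (.cmp 5 (.gap (.ru
    14 (.ru 16 (.ru 18 (.ru 20 (.lc 0 5 8 6 (.rf 6) (.p2 8 2 6 0 5 1))))))) (.ru 14 (.rf 6))
    (.gap (.ru 16 (.lc 0 8 5 4 (.rf 21) (.k4 0 5 2 4)))))) (.rf 21) (.cmp 6 (.cmp 4 (.gap (.rf
    5)) (.rf 5) (.gap (.rf 5))) (.rf 5) (.cmp 3 (.gap (.rf 5)) (.rf 1) (.gap (.rf 1))))) (.gap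
    (.ru 15 (.ru 17 (.lc 0 5 7 3 (.p4 2 3 7 0 5 1) (.th 7 5 1 2 (.cmp 2 (.cmp 1 (.cmp 7 (.cmp 0
    .mn (.rf 1) (.gap (.rf 1))) (.rf 1) (.gap (.rf 1))) (.rf 1) (.cmp 5 (.gap (.ru 14 (.ru 16
    (.ru 20 (.lc 0 5 8 6 (.rf 6) (.lc 0 2 8 6 (.p4 8 2 6 0 5 7) (.k4 7 8 5 2))))))) (.ru 14 (.rf
    6)) (.gap (.ru 16 (.lc 0 5 7 8 (.k4 0 5 7 2) (.lc 0 8 5 4 (.rf 21) (.k4 0 5 2 4))))))) (.rf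
    21) (.cmp 6 (.cmp 4 (.gap (.ru 16 (.lc 0 5 7 8 (.k4 0 5 7 2) (.rf 27)))) (.ru 16 (.k4 7 5 2
    4)) (.gap (.ru 16 (.lc 0 5 7 8 (.k4 0 5 7 2) (.rf 27))))) (.ru 16 (.ru 18 (.p1 7 1 5 2 6
    3))) (.cmp 3 (.gap (.ru 16 (.lc 0 5 7 8 (.k4 0 5 7 2) (.rf 27)))) (.rf 1) (.gap (.rf
    1))))))))))) (.cmp 2 (.cmp 1 (.cmp 0 .mn (.rf 1) (.gap (.rf 1))) (.rf 1) (.cmp 5 (.gap (.rf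
    1)) (.rf 1) (.gap (.rf 1)))) (.rf 1) (.cmp 6 (.cmp 4 (.gap (.rf 1)) (.rf 1) (.gap (.rf 1)))
    (.rf 1) (.cmp 3 (.gap (.rf 1)) (.rf 1) (.gap (.rf 1))))) (.cmp 5 (.gap (.ru 15 (.cmp 2 (.cmp
    7 (.cmp 1 (.cmp 0 .mn (.ru 18 (.k4 0 5 1 2)) (.gap (.ru 14 (.ru 18 (.lc 0 5 8 6 (.rf 6) (.th
    8 5 1 2 (.lc 0 2 8 6 (.p4 8 2 6 0 5 1) (.k4 8 5 1 2)))))))) (.rf 1) (.gap (.rf 1))) (.rf 1)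
    (.cmp 5 (.gap (.rf 1)) (.rf 1) (.gap (.rf 1)))) (.rf 1) (.cmp 6 (.cmp 4 (.gap (.rf 1)) (.rf
    1) (.gap (.rf 1))) (.rf 1) (.cmp 3 (.gap (.rf 1)) (.rf 1) (.gap (.ru 18 (.lc 0 5 1 8 (.k4 0
    5 1 2) (.rf 27))))))))) (.ru 17 (.cmp 2 (.cmp 1 (.cmp 0 .mn (.ru 18 (.k4 0 5 1 2)) (.gap
    (.ru 14 (.lc 0 5 8 6 (.rf 6) (.p2 5 6 3 0 2 4))))) (.rf 1) (.cmp 5 (.gap (.rf 1)) (.rf 1)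
    (.gap (.rf 1)))) (.rf 1) (.cmp 6 (.cmp 4 (.gap (.rf 1)) (.rf 1) (.gap (.rf 1))) (.rf 1)
    (.cmp 3 (.gap (.rf 1)) (.rf 1) (.gap (.ru 18 (.lc 0 5 1 8 (.k4 0 5 1 2) (.rf 27))))))))
    (.gap (.ru 15 (.ru 17 (.lc 5 4 7 3 (.lc 5 2 7 3 (.k4 2 6 4 3) (.p3 2 3 0 5 4 6)) (.lc 0 2 7
    4 (.p2 5 7 3 0 2 4) (.k4 0 5 2 4)))))))) (.ru 17 (.lc 5 4 2 3 (.k4 2 6 4 3) (.k4 0 5 2 3)))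
    (.cmp 6 (.cmp 4 (.gap (.ru 15 (.ru 17 (.lc 5 4 7 3 (.th 5 7 0 2 (.lc 5 7 2 6 (.p1 7 4 5 2 6
    3) (.rf 6))) (.lc 2 4 7 3 (.p3 2 3 0 5 4 7) (.k4 0 5 2 3)))))) (.cmp 2 (.cmp 1 (.cmp 0 .mn
    (.rf 4) (.gap (.ru 14 (.ru 16 (.lc 0 5 8 4 (.lc 0 5 8 6 (.rf 6) (.p2 0 4 2 5 8 6)) (.k4 0 5
    2 4)))))) (.rf 1) (.cmp 5 (.gap (.rf 1)) (.rf 1) (.gap (.rf 1)))) (.rf 1) (.cmp 6 (.cmp 4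
    (.gap (.rf 1)) (.rf 1) (.gap (.rf 1))) (.rf 1) (.cmp 3 (.gap (.rf 1)) (.rf 1) (.gap (.rf
    4))))) (.gap (.cmp 4 (.cmp 5 (.cmp 1 (.cmp 0 .mn (.rf 4) (.gap (.ru 14 (.ru 16 (.ru 18 (.lc
    0 5 8 6 (.rf 6) (.th 8 5 1 2 (.lc 0 5 8 7 (.p4 8 2 6 0 5 1) (.lc 0 2 8 7 (.p4 8 2 7 0 5 1)
    (.k4 8 5 1 2)))))))))) (.rf 1) (.gap (.rf 1))) (.rf 1) (.cmp 2 (.gap (.rf 1)) (.rf 1) (.gap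
    (.rf 1)))) (.rf 1) (.cmp 6 (.cmp 7 (.gap (.rf 1)) (.rf 1) (.gap (.rf 1))) (.rf 1) (.cmp 3
    (.gap (.rf 1)) (.rf 1) (.gap (.rf 4))))))) (.cmp 2 (.cmp 1 (.cmp 0 .mn (.rf 4) (.gap (.ru 14
    (.ru 18 (.lc 0 5 8 6 (.rf 6) (.th 8 5 1 2 (.lc 0 2 8 6 (.p4 8 2 6 0 5 1) (.k4 8 5 1
    2)))))))) (.rf 1) (.cmp 5 (.gap (.rf 1)) (.rf 1) (.gap (.rf 1)))) (.rf 1) (.cmp 6 (.cmp 4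
    (.gap (.rf 1)) (.rf 1) (.gap (.rf 1))) (.rf 1) (.cmp 3 (.gap (.rf 1)) (.rf 1) (.gap (.rf
    4))))) (.cmp 3 (.gap (.cmp 4 (.cmp 5 (.cmp 1 (.cmp 0 .mn (.rf 4) (.gap (.ru 14 (.ru 18 (.lc
    0 5 8 6 (.rf 6) (.th 8 5 1 2 (.lc 0 2 8 6 (.p4 8 2 6 0 5 1) (.k4 8 5 1 2)))))))) (.rf 1)
    (.gap (.rf 1))) (.rf 1) (.cmp 2 (.gap (.rf 1)) (.rf 1) (.gap (.rf 1)))) (.rf 1) (.cmp 7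
    (.cmp 6 (.gap (.rf 1)) (.rf 1) (.gap (.rf 1))) (.rf 1) (.cmp 3 (.gap (.rf 1)) (.rf 1) (.gap
    (.rf 4)))))) (.ru 17 (.eq 3 3)) (.gap (.cmp 4 (.cmp 5 (.cmp 1 (.cmp 0 .mn (.rf 1) (.gap (.rf
    1))) (.rf 1) (.gap (.ru 14 (.ru 18 (.th 8 6 0 5 (.th 1 5 8 6 (.lc 0 5 8 6 (.rf 6) (.lc 0 2 8
    6 (.p4 8 2 6 0 5 1) (.k4 1 5 8 2))))))))) (.ru 14 (.rf 6)) (.cmp 2 (.gap (.ru 14 (.ru 18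
    (.lc 0 5 1 8 (.k4 0 5 1 2) (.lc 0 8 5 4 (.th 8 4 0 2 (.lc 0 8 5 2 (.k4 8 4 2 6) (.p3 8 2 0 5
    4 6))) (.k4 0 5 2 4)))))) (.rf 4) (.gap (.rf 4)))) (.rf 4) (.cmp 3 (.cmp 6 (.gap (.rf 4))
    (.rf 4) (.gap (.rf 4))) (.rf 1) (.cmp 7 (.gap (.rf 1)) (.rf 1) (.gap (.rf 1))))))))) (.rf
    6))))))) (.ru 13 (.th 2 3 5 4 (.lc 5 4 2 3 (.cmp 2 (.cmp 1 (.cmp 0 .mn (.cmp 2 (.cmp 1 (.cmp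
    0 .mn (.rf 1) (.gap (.rf 1))) (.rf 1) (.cmp 5 (.gap (.ru 14 (.ru 16 (.ru 18 (.ru 20 (.p1 0 1
    8 3 2 5)))))) (.ru 14 (.rf 6)) (.gap (.ru 14 (.ru 16 (.ru 18 (.p1 0 1 5 2 3 8))))))) (.rf
    21) (.cmp 3 (.cmp 4 (.gap (.rf 5)) (.rf 5) (.gap (.rf 5))) (.rf 1) (.gap (.rf 1)))) (.gap
    (.ru 15 (.ru 17 (.lc 0 5 7 2 (.k4 0 2 7 3) (.th 7 5 1 2 (.cmp 5 (.cmp 7 (.cmp 0 .mn (.rf 1)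
    (.gap (.rf 1))) (.rf 1) (.cmp 1 (.gap (.rf 1)) (.rf 1) (.gap (.ru 14 (.ru 16 (.ru 18 (.ru 20
    (.p1 7 1 8 3 2 5)))))))) (.ru 14 (.rf 6)) (.cmp 4 (.cmp 2 (.gap (.ru 14 (.ru 16 (.ru 18 (.p1
    7 1 5 2 3 8))))) (.rf 21) (.gap (.ru 14 (.ru 16 (.ru 18 (.p1 7 1 5 2 3 8)))))) (.ru 16 (.k4
    7 5 2 4)) (.cmp 3 (.gap (.ru 14 (.ru 16 (.ru 18 (.p1 7 1 5 2 3 8))))) (.rf 1) (.gap (.rf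
    1))))))))))) (.cmp 2 (.cmp 1 (.cmp 0 .mn (.rf 1) (.gap (.rf 1))) (.rf 1) (.cmp 5 (.gap (.rf
    1)) (.rf 1) (.gap (.rf 1)))) (.rf 1) (.cmp 3 (.cmp 4 (.gap (.rf 1)) (.rf 1) (.gap (.rf 1)))
    (.rf 1) (.gap (.rf 1)))) (.cmp 5 (.gap (.ru 15 (.ru 17 (.th 7 2 0 5 (.th 1 5 7 2 (.lc 0 5 7
    2 (.k4 0 2 7 3) (.cmp 5 (.cmp 1 (.cmp 0 .mn (.ru 18 (.k4 0 5 1 2)) (.gap (.ru 14 (.ru 16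
    (.ru 18 (.ru 20 (.p1 7 1 8 3 2 5))))))) (.rf 1) (.cmp 7 (.gap (.rf 1)) (.rf 1) (.gap (.rf
    1)))) (.rf 1) (.cmp 4 (.cmp 2 (.gap (.rf 1)) (.rf 1) (.gap (.rf 1))) (.rf 1) (.cmp 3 (.gap
    (.rf 1)) (.rf 1) (.gap (.ru 14 (.ru 16 (.ru 18 (.p1 1 7 5 2 3 8)))))))))))))) (.ru 17 (.rf
    6)) (.gap (.ru 15 (.ru 17 (.lc 5 2 7 3 (.cmp 7 (.cmp 1 (.cmp 0 .mn (.ru 18 (.k4 0 5 1 2))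
    (.gap (.ru 14 (.ru 16 (.ru 18 (.ru 20 (.p1 7 1 8 3 2 5))))))) (.rf 1) (.cmp 5 (.gap (.rf 1))
    (.rf 1) (.gap (.rf 1)))) (.rf 1) (.cmp 4 (.cmp 2 (.gap (.rf 1)) (.rf 1) (.gap (.rf 1))) (.rf
    1) (.cmp 3 (.gap (.rf 1)) (.rf 1) (.gap (.ru 14 (.ru 16 (.ru 18 (.p2 1 7 5 2 3 8))))))))
    (.rf 6))))))) (.cmp 2 (.cmp 1 (.cmp 0 .mn (.ru 18 (.k4 0 5 1 2)) (.gap (.ru 14 (.ru 16 (.ru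
    18 (.ru 20 (.k4 8 2 1 3))))))) (.rf 1) (.cmp 5 (.gap (.rf 1)) (.rf 1) (.gap (.rf 1)))) (.rf
    1) (.cmp 3 (.cmp 4 (.gap (.rf 1)) (.rf 1) (.gap (.rf 1))) (.rf 1) (.gap (.rf 5)))) (.cmp 3
    (.cmp 4 (.gap (.ru 15 (.ru 17 (.lc 5 4 7 3 (.cmp 2 (.cmp 1 (.cmp 0 .mn (.rf 4) (.gap (.ru 14
    (.ru 16 (.ru 18 (.ru 20 (.p1 7 1 8 3 2 5))))))) (.rf 1) (.cmp 5 (.gap (.rf 1)) (.rf 1) (.gap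
    (.rf 1)))) (.rf 1) (.cmp 4 (.cmp 7 (.gap (.rf 1)) (.rf 1) (.gap (.rf 1))) (.rf 1) (.cmp 3
    (.gap (.rf 1)) (.rf 1) (.gap (.rf 4))))) (.rf 6))))) (.cmp 2 (.cmp 1 (.cmp 0 .mn (.rf 4)
    (.gap (.ru 14 (.ru 16 (.ru 18 (.ru 20 (.p1 4 1 8 3 2 5))))))) (.rf 1) (.cmp 5 (.gap (.rf 1))
    (.rf 1) (.gap (.rf 1)))) (.rf 1) (.cmp 3 (.cmp 4 (.gap (.rf 1)) (.rf 1) (.gap (.rf 1))) (.rf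
    1) (.gap (.rf 4)))) (.gap (.ru 15 (.ru 17 (.th 2 7 5 4 (.lc 5 4 2 7 (.k4 2 7 4 3) (.cmp 2
    (.cmp 1 (.cmp 0 .mn (.rf 4) (.gap (.ru 14 (.ru 16 (.ru 18 (.ru 20 (.p1 7 1 8 3 2 5)))))))
    (.rf 1) (.cmp 5 (.gap (.rf 1)) (.rf 1) (.gap (.rf 1)))) (.rf 1) (.cmp 7 (.cmp 4 (.gap (.rf
    1)) (.rf 1) (.gap (.rf 1))) (.rf 1) (.cmp 3 (.gap (.rf 1)) (.rf 1) (.gap (.rf 4)))))))))))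
    (.ru 17 (.eq 3 3)) (.gap (.ru 15 (.ru 17 (.lc 5 4 2 7 (.k4 2 3 4 7) (.cmp 2 (.cmp 1 (.cmp 0
    .mn (.rf 1) (.gap (.rf 1))) (.rf 1) (.cmp 5 (.gap (.ru 14 (.ru 16 (.ru 18 (.th 8 3 0 5 (.th
    1 5 8 3 (.p1 1 7 5 2 3 8))))))) (.ru 14 (.rf 6)) (.gap (.ru 14 (.ru 16 (.ru 18 (.th 1 8 0 5
    (.p1 1 7 8 3 2 5)))))))) (.rf 4) (.cmp 3 (.cmp 4 (.gap (.rf 4)) (.rf 4) (.gap (.rf 4))) (.rf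
    1) (.cmp 7 (.gap (.rf 1)) (.rf 1) (.gap (.rf 1))))))))))) (.rf 6)))) (.gap (.ru 12 (.ru 13
    (.lc 5 4 2 6 (.lc 0 3 4 6 (.k4 0 5 2 4) (.p1 0 4 5 2 6 3)) (.rf 6))))))))))))))) (.rf 0)
    (.cmp 3 (.cmp 4 (.gap (.rf 0)) (.rf 0) (.gap (.rf 0))) (.rf 0) (.gap (.rf 0)))))) (.ru 10
    (.cmp 2 (.cmp 1 (.cmp 0 .mn (.rf 0) (.gap (.rf 2))) (.ru 9 (.k4 0 2 1 3)) (.gap (.ru 8 (.ru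
    9 (.ru 11 (.ru 19 (.th 0 5 1 3 (.th 1 2 5 3 (.cmp 5 (.cmp 1 (.cmp 0 .mn (.rf 6) (.gap (.ru
    12 (.ru 13 (.lc 0 5 6 2 (.k4 0 2 6 3) (.rf 6)))))) (.rf 6) (.gap (.ru 12 (.ru 13 (.lc 0 5 6
    2 (.k4 0 2 6 3) (.rf 6)))))) (.rf 7) (.cmp 3 (.cmp 2 (.gap (.ru 12 (.ru 13 (.cmp 6 (.cmp 1
    (.cmp 0 .mn (.cmp 6 (.cmp 1 (.cmp 0 .mn (.rf 1) (.gap (.rf 1))) (.rf 1) (.cmp 5 (.gap (.ru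
    14 (.lc 0 5 8 6 (.rf 6) (.k4 0 2 6 3)))) (.ru 14 (.rf 6)) (.gap (.ru 16 (.ru 18 (.lc 0 8 5 3
    (.rf 21) (.p2 0 1 8 5 3 2))))))) (.rf 21) (.cmp 3 (.cmp 2 (.gap (.ru 16 (.ru 18 (.lc 0 8 5 3
    (.rf 21) (.p2 0 1 8 5 3 2))))) (.rf 21) (.gap (.rf 5))) (.rf 1) (.gap (.rf 1)))) (.gap (.ru
    15 (.ru 17 (.lc 0 5 7 2 (.k4 0 2 7 3) (.cmp 5 (.cmp 7 (.cmp 0 .mn (.rf 1) (.gap (.rf 1)))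
    (.rf 1) (.cmp 1 (.gap (.rf 1)) (.rf 1) (.gap (.ru 14 (.lc 0 5 8 6 (.rf 6) (.k4 0 2 6 3))))))
    (.ru 14 (.rf 6)) (.cmp 2 (.cmp 6 (.gap (.ru 16 (.lc 0 5 7 8 (.k4 0 5 7 3) (.lc 0 8 5 3 (.rf
    21) (.p2 0 7 8 5 3 2))))) (.rf 21) (.gap (.ru 16 (.lc 0 5 7 8 (.k4 0 5 7 3) (.lc 0 8 5 3
    (.rf 21) (.p2 0 7 8 5 3 2)))))) (.rf 21) (.cmp 3 (.gap (.ru 16 (.lc 0 5 7 8 (.k4 0 5 7 3)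
    (.rf 27)))) (.rf 1) (.gap (.rf 1)))))))))) (.cmp 6 (.cmp 1 (.cmp 0 .mn (.rf 1) (.gap (.rf
    1))) (.rf 1) (.cmp 5 (.gap (.rf 1)) (.rf 1) (.gap (.rf 1)))) (.rf 1) (.cmp 3 (.cmp 2 (.gap
    (.rf 1)) (.rf 1) (.gap (.rf 1))) (.rf 1) (.gap (.rf 1)))) (.cmp 5 (.gap (.ru 15 (.cmp 5
    (.cmp 1 (.cmp 0 .mn (.ru 18 (.k4 0 5 1 3)) (.gap (.ru 14 (.lc 0 5 8 6 (.rf 6) (.k4 0 2 6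
    3))))) (.rf 1) (.cmp 7 (.gap (.rf 1)) (.rf 1) (.gap (.rf 1)))) (.rf 1) (.cmp 2 (.cmp 6 (.gap
    (.rf 1)) (.rf 1) (.gap (.rf 1))) (.rf 1) (.cmp 3 (.gap (.rf 1)) (.rf 1) (.gap (.ru 18 (.lc 0
    5 1 8 (.k4 0 5 1 3) (.rf 27))))))))) (.ru 15 (.k4 0 5 2 3)) (.gap (.ru 15 (.cmp 7 (.cmp 1
    (.cmp 0 .mn (.ru 18 (.k4 0 5 1 3)) (.gap (.ru 14 (.lc 0 5 8 6 (.rf 6) (.k4 0 2 6 3))))) (.rf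
    1) (.cmp 5 (.gap (.rf 1)) (.rf 1) (.gap (.rf 1)))) (.rf 1) (.cmp 2 (.cmp 6 (.gap (.rf 1))
    (.rf 1) (.gap (.rf 1))) (.rf 1) (.cmp 3 (.gap (.rf 1)) (.rf 1) (.gap (.ru 18 (.lc 0 5 1 8
    (.k4 0 5 1 3) (.rf 27))))))))))) (.cmp 6 (.cmp 1 (.cmp 0 .mn (.ru 18 (.k4 0 5 1 3)) (.gap
    (.ru 14 (.lc 0 5 8 6 (.rf 6) (.k4 0 2 6 3))))) (.rf 1) (.cmp 5 (.gap (.rf 1)) (.rf 1) (.gap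
    (.rf 1)))) (.rf 1) (.cmp 3 (.cmp 2 (.gap (.rf 1)) (.rf 1) (.gap (.rf 1))) (.rf 1) (.gap (.ru
    18 (.lc 0 5 1 8 (.k4 0 5 1 3) (.rf 27)))))) (.cmp 3 (.cmp 2 (.gap (.ru 15 (.cmp 6 (.cmp 1
    (.cmp 0 .mn (.ru 18 (.k4 0 5 1 3)) (.gap (.ru 14 (.lc 0 5 8 6 (.rf 6) (.k4 0 2 6 3))))) (.rf
    1) (.cmp 5 (.gap (.rf 1)) (.rf 1) (.gap (.rf 1)))) (.rf 1) (.cmp 2 (.cmp 7 (.gap (.rf 1))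
    (.rf 1) (.gap (.rf 1))) (.rf 1) (.cmp 3 (.gap (.rf 1)) (.rf 1) (.gap (.ru 18 (.lc 0 5 1 8
    (.k4 0 5 1 3) (.rf 27))))))))) (.cmp 6 (.cmp 1 (.cmp 0 .mn (.ru 18 (.k4 0 5 1 3)) (.gap (.ru
    14 (.lc 0 5 8 6 (.rf 6) (.k4 0 2 6 3))))) (.rf 1) (.cmp 5 (.gap (.rf 1)) (.rf 1) (.gap (.rf
    1)))) (.rf 1) (.cmp 3 (.cmp 2 (.gap (.rf 1)) (.rf 1) (.gap (.rf 1))) (.rf 1) (.gap (.rf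
    5)))) (.gap (.cmp 6 (.cmp 1 (.cmp 0 .mn (.rf 4) (.gap (.ru 14 (.lc 0 5 8 6 (.rf 6) (.k4 0 2
    6 3))))) (.rf 1) (.cmp 5 (.gap (.rf 1)) (.rf 1) (.gap (.rf 1)))) (.rf 1) (.cmp 7 (.cmp 2
    (.gap (.rf 1)) (.rf 1) (.gap (.rf 1))) (.rf 1) (.cmp 3 (.gap (.rf 1)) (.rf 1) (.gap (.rf
    4))))))) (.ru 17 (.eq 3 3)) (.gap (.ru 15 (.lc 5 3 2 7 (.k4 0 5 2 3) (.cmp 6 (.cmp 1 (.cmp 0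
    .mn (.rf 1) (.gap (.rf 1))) (.rf 1) (.cmp 5 (.gap (.ru 14 (.lc 0 5 8 6 (.rf 6) (.k4 0 2 6
    3)))) (.ru 14 (.rf 6)) (.gap (.ru 18 (.lc 0 5 1 8 (.k4 0 5 1 3) (.lc 0 8 5 3 (.rf 21) (.p2 0
    1 8 5 3 2))))))) (.rf 21) (.cmp 3 (.cmp 2 (.gap (.ru 18 (.lc 0 5 1 8 (.k4 0 5 1 3) (.lc 0 8
    5 3 (.rf 21) (.p2 0 1 8 5 3 2))))) (.rf 4) (.gap (.rf 4))) (.rf 1) (.cmp 7 (.gap (.rf 1))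
    (.rf 1) (.gap (.rf 1))))))))))))) (.cmp 5 (.cmp 1 (.cmp 0 .mn (.cmp 5 (.cmp 1 (.cmp 0 .mn
    (.rf 1) (.gap (.rf 1))) (.rf 1) (.gap (.ru 14 (.ru 16 (.ru 18 (.ru 20 (.p1 0 1 8 2 3
    5))))))) (.ru 14 (.rf 6)) (.cmp 3 (.cmp 2 (.gap (.ru 14 (.ru 16 (.ru 18 (.p1 0 1 5 3 2
    8))))) (.rf 21) (.gap (.rf 5))) (.rf 1) (.gap (.rf 1)))) (.gap (.ru 15 (.ru 17 (.lc 0 5 7 2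
    (.rf 6) (.th 7 5 1 2 (.cmp 5 (.cmp 7 (.cmp 0 .mn (.rf 1) (.gap (.rf 1))) (.rf 1) (.cmp 1
    (.gap (.rf 1)) (.rf 1) (.gap (.ru 14 (.ru 16 (.ru 18 (.ru 20 (.p1 7 1 8 2 3 5)))))))) (.ru
    14 (.rf 6)) (.cmp 3 (.cmp 2 (.gap (.ru 14 (.ru 16 (.ru 18 (.p1 7 1 5 3 2 8))))) (.rf 21)
    (.gap (.ru 14 (.ru 16 (.ru 18 (.p1 7 1 5 3 2 8)))))) (.rf 1) (.gap (.rf 1)))))))))) (.cmp 5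
    (.cmp 1 (.cmp 0 .mn (.rf 1) (.gap (.rf 1))) (.rf 1) (.gap (.rf 1))) (.rf 1) (.cmp 3 (.cmp 2
    (.gap (.rf 1)) (.rf 1) (.gap (.rf 1))) (.rf 1) (.gap (.rf 1)))) (.gap (.ru 15 (.ru 17 (.th 7
    2 0 5 (.th 1 5 7 2 (.lc 0 5 7 2 (.rf 6) (.cmp 5 (.cmp 1 (.cmp 0 .mn (.ru 18 (.k4 0 5 1 3))
    (.gap (.ru 14 (.ru 16 (.ru 18 (.ru 20 (.p1 7 1 8 2 3 5))))))) (.rf 1) (.cmp 7 (.gap (.rf 1))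
    (.rf 1) (.gap (.rf 1)))) (.rf 1) (.cmp 3 (.cmp 2 (.gap (.rf 1)) (.rf 1) (.gap (.rf 1))) (.rf
    1) (.gap (.ru 14 (.ru 16 (.ru 18 (.p1 1 7 5 3 2 8)))))))))))))) (.ru 15 (.rf 6)) (.cmp 3
    (.cmp 2 (.gap (.ru 15 (.ru 17 (.cmp 7 (.cmp 1 (.cmp 0 .mn (.ru 18 (.k4 0 5 1 3)) (.gap (.ru
    14 (.ru 16 (.ru 18 (.lc 0 5 8 7 (.p1 0 1 5 3 2 8) (.k4 0 2 7 3))))))) (.rf 1) (.cmp 5 (.gap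
    (.rf 1)) (.rf 1) (.gap (.rf 1)))) (.rf 1) (.cmp 3 (.cmp 2 (.gap (.rf 1)) (.rf 1) (.gap (.rf
    1))) (.rf 1) (.gap (.ru 18 (.lc 0 5 1 8 (.k4 0 5 1 3) (.rf 27))))))))) (.cmp 5 (.cmp 1 (.cmp
    0 .mn (.ru 18 (.k4 0 5 1 3)) (.gap (.ru 14 (.ru 18 (.lc 0 5 8 2 (.rf 6) (.p1 5 2 0 3 1
    8)))))) (.rf 1) (.gap (.rf 1))) (.rf 1) (.cmp 3 (.cmp 2 (.gap (.rf 1)) (.rf 1) (.gap (.rf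
    1))) (.rf 1) (.gap (.rf 5)))) (.gap (.ru 15 (.ru 17 (.cmp 2 (.cmp 1 (.cmp 0 .mn (.rf 4)
    (.gap (.ru 14 (.ru 16 (.ru 18 (.th 8 2 0 5 (.lc 0 5 8 2 (.rf 6) (.p2 8 3 7 2 1 5))))))))
    (.rf 1) (.cmp 5 (.gap (.rf 1)) (.rf 1) (.gap (.rf 1)))) (.rf 1) (.cmp 3 (.cmp 7 (.gap (.rf
    1)) (.rf 1) (.gap (.rf 1))) (.rf 1) (.gap (.rf 4)))))))) (.ru 17 (.eq 3 3)) (.gap (.ru 15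
    (.ru 17 (.lc 5 3 2 7 (.rf 6) (.cmp 2 (.cmp 1 (.cmp 0 .mn (.rf 1) (.gap (.rf 1))) (.rf 1)
    (.cmp 5 (.gap (.ru 14 (.ru 16 (.ru 18 (.th 8 2 0 5 (.th 1 5 8 2 (.p1 1 7 5 3 2 8))))))) (.ru
    14 (.rf 6)) (.gap (.ru 14 (.ru 16 (.ru 18 (.th 1 8 0 5 (.p1 1 7 8 2 3 5)))))))) (.rf 4)
    (.cmp 7 (.cmp 3 (.gap (.rf 4)) (.rf 1) (.gap (.rf 1))) (.rf 1) (.gap (.rf 1)))))))))) (.gap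
    (.ru 12 (.ru 13 (.cmp 2 (.cmp 1 (.cmp 0 .mn (.cmp 2 (.cmp 1 (.cmp 0 .mn (.rf 1) (.gap (.rf
    1))) (.rf 1) (.cmp 5 (.gap (.ru 14 (.lc 0 5 8 6 (.rf 6) (.k4 0 2 6 3)))) (.ru 14 (.rf 6))
    (.gap (.ru 16 (.ru 18 (.lc 0 8 5 3 (.rf 21) (.p2 0 1 8 5 3 2))))))) (.rf 21) (.cmp 3 (.cmp 6
    (.gap (.rf 5)) (.rf 5) (.gap (.rf 5))) (.rf 1) (.gap (.rf 1)))) (.gap (.ru 15 (.ru 17 (.lc 0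
    5 7 2 (.k4 0 2 7 3) (.cmp 5 (.cmp 7 (.cmp 0 .mn (.rf 1) (.gap (.rf 1))) (.rf 1) (.cmp 1
    (.gap (.rf 1)) (.rf 1) (.gap (.ru 14 (.lc 0 5 8 6 (.rf 6) (.k4 0 2 6 3)))))) (.ru 14 (.rf
    6)) (.cmp 6 (.cmp 2 (.gap (.ru 16 (.lc 0 5 7 8 (.k4 0 5 7 3) (.lc 0 8 5 3 (.rf 21) (.p2 0 7
    8 5 3 2))))) (.rf 21) (.gap (.ru 16 (.lc 0 5 7 8 (.k4 0 5 7 3) (.rf 27))))) (.rf 21) (.cmp 3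
    (.gap (.ru 16 (.lc 0 5 7 8 (.k4 0 5 7 3) (.rf 27)))) (.rf 1) (.gap (.rf 1)))))))))) (.cmp 2
    (.cmp 1 (.cmp 0 .mn (.rf 1) (.gap (.rf 1))) (.rf 1) (.cmp 5 (.gap (.rf 1)) (.rf 1) (.gap
    (.rf 1)))) (.rf 1) (.cmp 3 (.cmp 6 (.gap (.rf 1)) (.rf 1) (.gap (.rf 1))) (.rf 1) (.gap (.rf
    1)))) (.cmp 5 (.gap (.ru 15 (.cmp 5 (.cmp 1 (.cmp 0 .mn (.ru 18 (.k4 0 5 1 3)) (.gap (.ru 14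
    (.lc 0 5 8 6 (.rf 6) (.k4 0 2 6 3))))) (.rf 1) (.cmp 7 (.gap (.rf 1)) (.rf 1) (.gap (.rf
    1)))) (.rf 1) (.cmp 6 (.cmp 2 (.gap (.rf 1)) (.rf 1) (.gap (.rf 1))) (.rf 1) (.cmp 3 (.gap
    (.rf 1)) (.rf 1) (.gap (.ru 18 (.lc 0 5 1 8 (.k4 0 5 1 3) (.rf 27))))))))) (.ru 15 (.k4 0 5
    2 3)) (.gap (.ru 15 (.cmp 7 (.cmp 1 (.cmp 0 .mn (.ru 18 (.k4 0 5 1 3)) (.gap (.ru 14 (.lc 0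
    5 8 6 (.rf 6) (.k4 0 2 6 3))))) (.rf 1) (.cmp 5 (.gap (.rf 1)) (.rf 1) (.gap (.rf 1)))) (.rf
    1) (.cmp 6 (.cmp 2 (.gap (.rf 1)) (.rf 1) (.gap (.rf 1))) (.rf 1) (.cmp 3 (.gap (.rf 1))
    (.rf 1) (.gap (.ru 18 (.lc 0 5 1 8 (.k4 0 5 1 3) (.rf 27))))))))))) (.cmp 2 (.cmp 1 (.cmp 0
    .mn (.ru 18 (.k4 0 5 1 3)) (.gap (.ru 14 (.ru 16 (.ru 18 (.ru 20 (.lc 0 5 8 2 (.k4 0 5 2 3)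
    (.p2 8 3 6 2 1 5)))))))) (.rf 1) (.cmp 5 (.gap (.rf 1)) (.rf 1) (.gap (.rf 1)))) (.rf 1)
    (.cmp 3 (.cmp 6 (.gap (.rf 1)) (.rf 1) (.gap (.rf 1))) (.rf 1) (.gap (.rf 5)))) (.cmp 3
    (.cmp 6 (.gap (.cmp 2 (.cmp 1 (.cmp 0 .mn (.rf 4) (.gap (.ru 14 (.lc 0 5 8 6 (.rf 6) (.k4 0
    2 6 3))))) (.rf 1) (.cmp 5 (.gap (.rf 1)) (.rf 1) (.gap (.rf 1)))) (.rf 1) (.cmp 6 (.cmp 7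
    (.gap (.rf 1)) (.rf 1) (.gap (.rf 1))) (.rf 1) (.cmp 3 (.gap (.rf 1)) (.rf 1) (.gap (.rf
    4)))))) (.cmp 2 (.cmp 1 (.cmp 0 .mn (.rf 4) (.gap (.ru 14 (.lc 0 5 8 6 (.rf 6) (.k4 0 2 6
    3))))) (.rf 1) (.cmp 5 (.gap (.rf 1)) (.rf 1) (.gap (.rf 1)))) (.rf 1) (.cmp 3 (.cmp 6 (.gap
    (.rf 1)) (.rf 1) (.gap (.rf 1))) (.rf 1) (.gap (.rf 4)))) (.gap (.cmp 2 (.cmp 1 (.cmp 0 .mn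
    (.rf 4) (.gap (.ru 14 (.lc 0 5 8 6 (.rf 6) (.k4 0 2 6 3))))) (.rf 1) (.cmp 5 (.gap (.rf 1))
    (.rf 1) (.gap (.rf 1)))) (.rf 1) (.cmp 7 (.cmp 6 (.gap (.rf 1)) (.rf 1) (.gap (.rf 1))) (.rf
    1) (.cmp 3 (.gap (.rf 1)) (.rf 1) (.gap (.rf 4))))))) (.ru 17 (.eq 3 3)) (.gap (.ru 15 (.lc
    5 3 2 7 (.k4 0 5 2 3) (.cmp 2 (.cmp 1 (.cmp 0 .mn (.rf 1) (.gap (.rf 1))) (.rf 1) (.cmp 5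
    (.gap (.ru 14 (.lc 0 5 8 6 (.rf 6) (.k4 0 2 6 3)))) (.ru 14 (.rf 6)) (.gap (.ru 18 (.lc 0 5
    1 8 (.k4 0 5 1 3) (.lc 0 8 5 3 (.rf 21) (.p2 0 1 8 5 3 2))))))) (.rf 4) (.cmp 3 (.cmp 6
    (.gap (.rf 4)) (.rf 4) (.gap (.rf 4))) (.rf 1) (.cmp 7 (.gap (.rf 1)) (.rf 1) (.gap (.rf
    1)))))))))))))) (.rf 6) (.gap (.ru 13 (.lc 5 3 2 6 (.k4 0 5 2 3) (.rf 6)))))))))))))) (.rf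
    0) (.cmp 3 (.gap (.rf 0)) (.rf 0) (.gap (.rf 0))))) (.gap (.cmp 2 (.cmp 1 (.cmp 0 .mn (.rf
    0) (.gap (.rf 2))) (.rf 3) (.gap (.rf 23))) (.rf 0) (.cmp 4 (.cmp 3 (.gap (.rf 0)) (.rf 0)
    (.gap (.rf 0))) (.rf 0) (.gap (.rf 0)))))))

theorem chk10 : chk (rulesCom ++ (rulesZ1f ++ rulesZ0t)) tree10 rk0 none none T0 U0 = true := by
  decide +kernel

end Pool.Agent.Confl.Cert2
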