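import Pool.Agent.Confl.T.TreeB
import Pool.Agent.Confl.T.Tree11
import Pool.Agent.Confl.T.Tree10
import Pool.Agent.Confl.T.Tree01
import Pool.Agent.Confl.T.Tree00
import Pool.Agent.Confl.W.Step

/-!
# One step along a smooth path of the chord drawing: no paths on four vertices in the common
neighbourhood of two nonadjacent vertices
-/

set_option autoImplicit false

namespace Pool.Agent.Confl

variable {V : Type}

open Cert2

/-- Properties of the relation `H` (thin edges) used in the case analysis. -/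
structure ThinRel2 (G : SimpleGraph V) (x : V → ℝ) (H : V → V → Prop) : Prop where
  sym : ∀ a b, H a b → H b a
  cross : ∀ a b c d, G.Adj a b → H c d → Alt x a b c d → H a b
  k4 : ∀ a b c d, H a b → G.Adj a c → G.Adj a d → G.Adj b c → G.Adj b d → G.Adj c d → False
  p1 : ∀ p q a b c d, H p a → Cert2.Pat G p q a b c d → False
  p2 : ∀ p q a b c d, H p b → Cert2.Pat G p q a b c d → False
  p3 : ∀ p q a b c d, H a b → Cert2.Pat G p q a b c d → False
  p4 : ∀ p q a b c d, H b c → Cert2.Pat G p q a b c d → False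

theorem ordOK_rk02 {y : V → ℝ} {lab : ℕ → V} (h1 : y (lab 0) < y (lab 1))
    (h2 : y (lab 1) < y (lab 2)) (h3 : y (lab 2) < y (lab 3)) : Cert2.OrdOK y lab Cert2.rk0 := by
  intro i j hi hj
  have hi' : i < 4 := hi
  have hj' : j < 4 := hj
  have r0 : Cert2.R Cert2.rk0 0 = 0 := rfl
  have r1 : Cert2.R Cert2.rk0 1 = 1048576 := rfl
  have r2 : Cert2.R Cert2.rk0 2 = 2097152 := rfl
  have r3 : Cert2.R Cert2.rk0 3 = 3145728 := rfl
  have h02 := h1.trans h2
  have h13 := h2.trans h3
  have h03 := h1.trans h13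
  interval_cases i <;> interval_cases j <;> simp only [r0, r1, r2, r3] <;> constructor <;>
    intro hh <;> first | omega | linarith

/-- Common part of the applications of the checker. -/
theorem run2 {G : SimpleGraph V} {x : V → ℝ} (hx : Function.Injective x) {H : V → V → Prop}
    (hH : ThinRel2 G x H) (hlc : LC G x) {a b c d : V} (hab : G.Adj a b) (hcd : G.Adj c d)
    (tab : H a b) (tcd : H c d)
    (had : G.Adj a d) (hcb : G.Adj c b) (h1 : Alt x a b c d) (lab : ℕ → V) (l0 : lab 0 = c)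
    (l1 : lab 1 = a) (l2 : lab 2 = d) (l3 : lab 3 = b) (rules : List Cert2.Rule) (t : Cert2.Tr)
    (hc : Cert2.chk rules t Cert2.rk0 none none Cert2.T0 Cert2.U0 = true)
    (hr : ∀ y : V → ℝ, (∀ p q r s, Alt y p q r s ↔ Alt x p q r s) →
      ∀ ρ ∈ rules, Cert2.RuleHolds G H y lab ρ) : False := by
  have hne := alt_ne hx h1
  obtain ⟨y, hy, hmin, hyad, hA⟩ := exists_normal hx hne.1.symm hcd.ne.symm had.ne
  have hAy : Alt y a b c d := (hA _ _ _ _).2 h1
  have hca : y c < y a := hmin a hne.1.symm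
  have hcb' : y c < y b := hmin b hne.2.1.symm
  have hdb : y d < y b := by
    rcases hAy with ⟨h, _⟩ | ⟨h, _⟩
    · rcases h with h | h
      · exact absurd h.1 (lt_asymm hca)
      · exact absurd h.1 (lt_asymm hcb')
    · rcases h with h | h
      · exact h.2
      · exact absurd h.2 (lt_asymm hyad)
  have M : Cert2.Model G H y lab rules :=
    { inj := hy
      lca := fun p q r s hpq hrs h => lc_alt G x hx hlc hpq hrs ((hA _ _ _ _).1 h)
      sym := hH.sym
      cross := fun p q r s hpq hrs h => hH.cross p q r s hpq hrs ((hA _ _ _ _).1 h)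
      k4 := hH.k4
      p1 := hH.p1
      p2 := hH.p2
      p3 := hH.p3
      p4 := hH.p4
      mn := fun w => by
        rw [l0]
        by_cases hw : w = c
        · rw [hw]
        · exact (hmin w hw).le
      ru := hr y hA }
  refine Cert2.sound M t Cert2.rk0 none none Cert2.T0 Cert2.U0 hc (ordOK_rk02 ?_ ?_ ?_) ?_ ?_ ?_ ?_
  · rw [l0, l1]; exact hca
  · rw [l1, l2]; exact hyad
  · rw [l2, l3]; exact hdb
  · intro p hp
    simp only [Cert2.T0, List.mem_cons, List.not_mem_nil, or_false] at hp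
    rcases hp with rfl | rfl | rfl | rfl
    · exact ⟨by decide, by decide, by rw [l1, l3]; exact hab⟩
    · exact ⟨by decide, by decide, by rw [l0, l2]; exact hcd⟩
    · exact ⟨by decide, by decide, by rw [l1, l2]; exact had⟩
    · exact ⟨by decide, by decide, by rw [l0, l3]; exact hcb⟩
  · intro p hp
    simp only [Cert2.U0, List.mem_cons, List.not_mem_nil, or_false] at hp
    rcases hp with rfl | rfl
    · exact ⟨by decide, by decide, by rw [l1, l3]; exact tab⟩
    · exact ⟨by decide, by decide, by rw [l0, l2]; exact tcd⟩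
  · intro l hl; cases hl
  · intro l hl; cases hl

/-- Three consecutive chords: the first tail is adjacent to the last head. -/
theorem tri_adj2 {G : SimpleGraph V} {x : V → ℝ} (hx : Function.Injective x)
    {H : V → V → Prop} (hH : ThinRel2 G x H) (hlc : LC G x) {a b c d e f : V} (tab : H a b)
    (hab : G.Adj a b) (hcd : G.Adj c d) (hef : G.Adj e f) (h1 : Alt x a b c d) (had : G.Adj a d)
    (hcb : G.Adj c b)
    (h2 : Alt x c d e f) (hcf : G.Adj c f) (hed : G.Adj e d)
    (hQR : 0 < (X x c d e f - X x a b c d) * (x d - x c)) : a = f ∨ G.Adj a f := by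
  by_contra hcon
  rw [not_or] at hcon
  have tcd : H c d := hH.cross c d a b hcd tab (alt_comm hx h1)
  have tef : H e f := hH.cross e f c d hef tcd (alt_comm hx h2)
  let lab : ℕ → V := fun n => match n with
    | 0 => c | 1 => a | 2 => d | 3 => b | 4 => e | _ => f
  refine run2 hx hH hlc hab hcd tab tcd had hcb h1 lab rfl rfl rfl rfl Cert2.rulesBase
    Cert2.treeBase Cert2.chkBase ?_
  intro y hA ρ hρ
  simp only [Cert2.rulesBase, List.mem_cons, List.not_mem_nil, or_false] at hρ
  rcases hρ with rfl | rfl | rfl | rfl | rfl | rfl | rfl | rfl | rfl <;> intro ho he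
  · exact (ho _ (List.mem_cons_self ..)) ((hA _ _ _ _).2 h2)
  · have o1 : ¬ Alt y a b e f := ho _ (List.mem_cons_self ..)
    have o2 : Alt y e f c a := ho _ (List.mem_cons_of_mem _ (List.mem_cons_self ..))
    rw [hA] at o1 o2
    exact (tri_apart hx h1 h2 o1 hQR).1 o2
  · have o1 : ¬ Alt y a b e f := ho _ (List.mem_cons_self ..)
    have o2 : Alt y e f c b := ho _ (List.mem_cons_of_mem _ (List.mem_cons_self ..))
    rw [hA] at o1 o2
    exact (tri_apart hx h1 h2 o1 hQR).2 o2
  · have e1 : G.Adj a f := he _ (List.mem_cons_self ..)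
    exact hcon.2 e1
  · have o1 : a = f := ho _ (List.mem_cons_self ..)
    exact hcon.1 o1
  · exact hef
  · exact hcf
  · exact hed
  · exact tef

theorem J_baseP {G : SimpleGraph V} {x : V → ℝ} (hx : Function.Injective x) {H : V → V → Prop}
    (hH : ThinRel2 G x H) (hlc : LC G x) {u b : V} (tub : H u b) (hub : G.Adj u b) (s : ℝ) :
    J G x u u b s :=
  ⟨Or.inr hub, fun _ _ hab halt hub' hah _ => ⟨Or.inr hub', fun _ _ hcd halt' had hcb hpos =>
    tri_adj2 hx hH hlc tub hub hab hcd halt hub' hah halt' had hcb hpos⟩⟩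

private theorem orient {x : V → ℝ} {a b : V} {t : ℝ} (h : (x a - t) * (x b - t) < 0) :
    ∃ p q', ((p = a ∧ q' = b) ∨ (p = b ∧ q' = a)) ∧ x p < t ∧ t < x q' ∧
      ∀ s, q x p q' s = q x a b s := by
  rcases mul_neg_iff.1 h with ⟨h1, h2⟩ | ⟨h1, h2⟩
  · exact ⟨b, a, Or.inr ⟨rfl, rfl⟩, by linarith, by linarith, fun s => by unfold q; ring⟩
  · exact ⟨a, b, Or.inl ⟨rfl, rfl⟩, by linarith, by linarith, fun s => rfl⟩

/-- Three pairwise crossing chords have no common point. -/
theorem X_ne_of_generic {x : V → ℝ} (hx : Function.Injective x) (hg : Generic x)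
    {a b c d e f : V} (h1 : Alt x a b c d) (h2 : Alt x a b e f) (h3 : Alt x c d e f) :
    X x a b c d ≠ X x a b e f := by
  intro he
  have m1 := alt_X_mem hx h1
  have m2 := alt_X_mem hx (alt_comm hx h1)
  have m3 := alt_X_mem hx (alt_comm hx h2)
  rw [X_comm_stepC x c d a b] at m2
  rw [X_comm_stepC x e f a b, ← he] at m3
  have q1 := q_sub_stepC (alt_sum_ne hx h1) (X x a b c d)
  have q2 := q_sub_stepC (alt_sum_ne hx h2) (X x a b c d)
  rw [sub_self, mul_zero] at q1
  rw [← he, sub_self, mul_zero] at q2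
  generalize X x a b c d = t at *
  have n1 := alt_ne hx h1
  have n2 := alt_ne hx h2
  have n3 := alt_ne hx h3
  obtain ⟨p1, r1, k1, l1, u1, w1⟩ := orient m1
  obtain ⟨p2, r2, k2, l2, u2, w2⟩ := orient m2
  obtain ⟨p3, r3, k3, l3, u3, w3⟩ := orient m3
  refine hg p1 r1 p2 r2 p3 r3 t l1 u1 l2 u2 l3 u3 ?_ ?_ ?_ ?_ ?_
  · intro h
    rw [Prod.mk.injEq] at h
    rcases k1 with ⟨rfl, rfl⟩ | ⟨rfl, rfl⟩ <;> rcases k2 with ⟨rfl, rfl⟩ | ⟨rfl, rfl⟩
    · exact n1.1 h.1.symm
    · exact n1.2.2.1 h.1.symm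
    · exact n1.2.1 h.1.symm
    · exact n1.2.2.2 h.1.symm
  · intro h
    rw [Prod.mk.injEq] at h
    rcases k1 with ⟨rfl, rfl⟩ | ⟨rfl, rfl⟩ <;> rcases k3 with ⟨rfl, rfl⟩ | ⟨rfl, rfl⟩
    · exact n2.1 h.1.symm
    · exact n2.2.2.1 h.1.symm
    · exact n2.2.1 h.1.symm
    · exact n2.2.2.2 h.1.symm
  · intro h
    rw [Prod.mk.injEq] at h
    rcases k2 with ⟨rfl, rfl⟩ | ⟨rfl, rfl⟩ <;> rcases k3 with ⟨rfl, rfl⟩ | ⟨rfl, rfl⟩
    · exact n3.1 h.1.symm
    · exact n3.2.2.1 h.1.symm
    · exact n3.2.1 h.1.symm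
    · exact n3.2.2.2 h.1.symm
  · rw [w1, w2]; linarith
  · rw [w1, w3]; linarith

theorem J_stepP {G : SimpleGraph V} {x : V → ℝ} (hx : Function.Injective x) (hg : Generic x)
    {H : V → V → Prop} (hH : ThinRel2 G x H) (hlc : LC G x) {u g h a b : V} {s : ℝ}
    (tgh : H g h) (hgh : G.Adj g h)
    (hJ : J G x u g h s) (hab : G.Adj a b) (halt : Alt x g h a b) (hgb : G.Adj g b)
    (hah : G.Adj a h) (hs : 0 < (X x g h a b - s) * (x h - x g)) :
    J G x u a b (X x g h a b) := by
  have hJab := hJ.2 a b hab halt hgb hah hs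
  refine ⟨hJab.1, ?_⟩
  intro c d hcd h1 had hcb hpos
  have hud := hJab.2 c d hcd h1 had hcb hpos
  refine ⟨hud, ?_⟩
  intro e f hef h2 hcf hed hQR
  by_contra hcon
  rw [not_or] at hcon
  have tab : H a b := hH.cross a b g h hab tgh (alt_comm hx halt)
  have tcd : H c d := hH.cross c d a b hcd tab (alt_comm hx h1)
  have tef : H e f := hH.cross e f c d hef tcd (alt_comm hx h2)
  have haf := tri_adj2 hx hH hlc tab hab hcd hef h1 had hcb h2 hcf hed hQR
  have hgd := tri_adj2 hx hH hlc tgh hgh hab hcd halt hgb hah h1 had hcb hpos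
  -- the chords ab, ef are different
  have hne1 : ¬ (a = e ∧ b = f) := by
    rintro ⟨rfl, rfl⟩
    rw [X_comm_stepC x c d a b, sub_self, zero_mul] at hQR
    exact lt_irrefl _ hQR
  have hne2 : ¬ (a = f ∧ b = e) := by
    rintro ⟨rfl, rfl⟩
    rw [X_swap2_W, X_comm_stepC x c d a b, sub_self, zero_mul] at hQR
    exact lt_irrefl _ hQR
  -- the chords cd, gh are different
  have hne3 : ¬ (c = g ∧ d = h) := by
    rintro ⟨rfl, rfl⟩
    rw [X_comm_stepC x a b c d, sub_self, zero_mul] at hpos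
    exact lt_irrefl _ hpos
  have hne4 : ¬ (c = h ∧ d = g) := by
    rintro ⟨rfl, rfl⟩
    rw [X_swap2_W, X_comm_stepC x a b d c, sub_self, zero_mul] at hpos
    exact lt_irrefl _ hpos
  let lab : ℕ → V := fun n => match n with
    | 0 => c | 1 => a | 2 => d | 3 => b | 4 => e | 5 => f | 6 => u | 7 => g | _ => h
  -- the crossing of gh and ef is ahead of s
  have kW : Alt x g h e f → ¬ Alt x a b e f → ¬ Alt x e f g a → ¬ Alt x e f g b →
      0 < (X x g h e f - s) * (x h - x g) := by
    intro o1 o2 o3 o4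
    have k1 := tri_apart' hx (alt_comm hx halt) o1 o2 hne1 hne2 o3 o4
    rw [X_comm_stepC x a b g h] at k1
    have e3 : (X x g h e f - s) * (x h - x g) =
      (X x g h e f - X x g h a b) * (x h - x g) + (X x g h a b - s) * (x h - x g) := by ring
    rw [e3]
    exact add_pos k1 hs
  have r21 : Alt x g h e f → ¬ Alt x a b e f → ¬ Alt x e f g a → ¬ Alt x e f g b →
      G.Adj g f → G.Adj h e → False := by
    intro o1 o2 o3 o4 e1 e2
    rcases (hJ.2 e f hef o1 e1 e2.symm (kW o1 o2 o3 o4)).1 with h | h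
    · exact hcon.1 h
    · exact hcon.2 h
  -- from the crossing of gh and ef to the crossing of ef and cd
  have kR : Alt x g h e f → ¬ Alt x a b e f → ¬ Alt x e f g a → ¬ Alt x e f g b →
      G.Adj g e → G.Adj h f → 0 < (X x e f g h - X x c d e f) * (x f - x e) →
      u = c ∨ G.Adj u c := by
    intro o1 o2 o3 o4 e1 e2 k3
    have k1 := kW o1 o2 o3 o4
    have k2 : 0 < (X x g h f e - s) * (x h - x g) := by
      rw [X_swap2_W x g h f e]
      exact k1
    refine (hJ.2 f e hef.symm (Or.symm o1) e1 e2.symm k2).2 d c hcd.symm ?_ hcf.symm hed.symm ?_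
    · exact alt_swap1_W hx (Or.symm (alt_comm hx h2))
    · have e3 : X x f e d c = X x c d e f := by
        rw [X_swap2_W, X_comm_stepC x f e c d, X_swap2_W]
      have e4 : X x g h f e = X x e f g h := by
        rw [X_swap2_W, X_comm_stepC]
      rw [e3, e4]
      have e5 : (X x c d e f - X x e f g h) * (x e - x f) =
        (X x e f g h - X x c d e f) * (x f - x e) := by ring
      rw [e5]
      exact k3
  have r45 : ¬ Alt x g h c d → ¬ Alt x c d a g ∧ ¬ Alt x c d a h := fun o1 =>
    tri_apart hx halt h1 o1 hpos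
  have rCom : ∀ y : V → ℝ, (∀ p q r s, Alt y p q r s ↔ Alt x p q r s) →
      ∀ ρ ∈ Cert2.rulesCom, Cert2.RuleHolds G H y lab ρ := by
    intro y hA ρ hρ
    simp only [Cert2.rulesCom, List.mem_cons, List.not_mem_nil, or_false] at hρ
    rcases hρ with rfl | rfl | rfl | rfl | rfl | rfl | rfl | rfl | rfl | rfl | rfl | rfl | rfl |
      rfl | rfl | rfl | rfl | rfl | rfl | rfl | rfl | rfl | rfl <;> intro ho he
    · exact (ho _ (List.mem_cons_self ..)) ((hA _ _ _ _).2 h2)
    · exact (ho _ (List.mem_cons_self ..)) ((hA _ _ _ _).2 halt)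
    · have o1 : ¬ Alt y a b e f := ho _ (List.mem_cons_self ..)
      have o2 : Alt y e f c a := ho _ (List.mem_cons_of_mem _ (List.mem_cons_self ..))
      rw [hA] at o1 o2
      exact (tri_apart hx h1 h2 o1 hQR).1 o2
    · have o1 : ¬ Alt y a b e f := ho _ (List.mem_cons_self ..)
      have o2 : Alt y e f c b := ho _ (List.mem_cons_of_mem _ (List.mem_cons_self ..))
      rw [hA] at o1 o2
      exact (tri_apart hx h1 h2 o1 hQR).2 o2
    · have o1 : ¬ Alt y g h c d := ho _ (List.mem_cons_self ..)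
      have o2 : Alt y c d a g := ho _ (List.mem_cons_of_mem _ (List.mem_cons_self ..))
      rw [hA] at o1 o2
      exact (r45 o1).1 o2
    · have o1 : ¬ Alt y g h c d := ho _ (List.mem_cons_self ..)
      have o2 : Alt y c d a h := ho _ (List.mem_cons_of_mem _ (List.mem_cons_self ..))
      rw [hA] at o1 o2
      exact (r45 o1).2 o2
    · have e1 : G.Adj u f := he _ (List.mem_cons_self ..)
      exact hcon.2 e1
    · have o1 : u = f := ho _ (List.mem_cons_self ..)
      exact hcon.1 o1
    · exact hef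
    · exact hcf
    · exact hed
    · exact haf
    · exact hJab.1
    · exact hud
    · exact hJ.1
    · exact hgd
    · exact hgh
    · exact hgb
    · exact hah
    · exact tef
    · exact tgh
    · have o1 : Alt y g h e f := ho (.alt 7 8 4 5) (by simp)
      have o2 : ¬ Alt y a b e f := ho (.nalt 1 3 4 5) (by simp)
      have o3 : ¬ Alt y e f g a := ho (.nalt 4 5 7 1) (by simp)
      have o4 : ¬ Alt y e f g b := ho (.nalt 4 5 7 3) (by simp)
      have e1 : G.Adj g f := he (7, 5) (by simp)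
      have e2 : G.Adj h e := he (8, 4) (by simp)
      rw [hA] at o1 o2 o3 o4
      exact r21 o1 o2 o3 o4 e1 e2
    · have o1 : Alt y g h e f := ho (.alt 7 8 4 5) (by simp)
      have o2 : ¬ Alt y a b e f := ho (.nalt 1 3 4 5) (by simp)
      have o3 : ¬ Alt y e f g a := ho (.nalt 4 5 7 1) (by simp)
      have o4 : ¬ Alt y e f g b := ho (.nalt 4 5 7 3) (by simp)
      have o5 : ¬ Alt y g h c d := ho (.nalt 7 8 0 2) (by simp)
      have o6 : ¬ Alt y g h e c := ho (.nalt 7 8 4 0) (by simp)
      have o7 : ¬ Alt y g h e d := ho (.nalt 7 8 4 2) (by simp)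
      have e1 : G.Adj g e := he (7, 4) (by simp)
      have e2 : G.Adj h f := he (8, 5) (by simp)
      rw [hA] at o1 o2 o3 o4 o5 o6 o7
      exact kR o1 o2 o3 o4 e1 e2 (tri_apart' hx h2 (alt_comm hx o1)
        (fun h => o5 (alt_comm hx h)) hne3 hne4 o6 o7)
  have rZ1t : 0 < (X x a b e f - X x g h a b) * (x b - x a) →
      ∀ y : V → ℝ, (∀ p q r s, Alt y p q r s ↔ Alt x p q r s) →
      ∀ ρ ∈ Cert2.rulesZ1t, Cert2.RuleHolds G H y lab ρ := by
    intro hz y hA ρ hρ
    simp only [Cert2.rulesZ1t, List.mem_cons, List.not_mem_nil, or_false] at hρ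
    subst hρ
    intro ho he
    have o1 : Alt y a b e f := ho (.alt 1 3 4 5) (by simp)
    have e1 : G.Adj a f := he (1, 5) (by simp)
    have e2 : G.Adj e b := he (4, 3) (by simp)
    rw [hA] at o1
    rcases hJab.2 e f hef o1 e1 e2 hz with h | h
    · exact hcon.1 h
    · exact hcon.2 h
  have rZ1f : ¬ 0 < (X x a b e f - X x g h a b) * (x b - x a) →
      ∀ y : V → ℝ, (∀ p q r s, Alt y p q r s ↔ Alt x p q r s) →
      ∀ ρ ∈ Cert2.rulesZ1f, Cert2.RuleHolds G H y lab ρ := by
    intro hz y hA ρ hρ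
    have kA : Alt x a b e f → ¬ Alt x g h e f → ¬ Alt x e f a g → ¬ Alt x e f a h →
        ¬ (g = f ∧ h = e) → False := by
      intro o1 o2 o3 o4 o5
      refine hz (tri_apart' hx halt o1 o2 ?_ o5 o3 o4)
      rintro ⟨-, rfl⟩
      rcases hJ.1 with h | h
      · exact hcon.1 h
      · exact hcon.2 h
    simp only [Cert2.rulesZ1f, List.mem_cons, List.not_mem_nil, or_false] at hρ
    rcases hρ with rfl | rfl | rfl | rfl <;> intro ho he
    · have o1 : Alt y a b e f := ho (.alt 1 3 4 5) (by simp)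
      have o2 : ¬ Alt y e f a c := ho (.nalt 4 5 1 0) (by simp)
      rw [hA] at o1 o2
      have k1 := tri_cross hx h1 h2 o1 hQR o2
      refine hz ?_
      have e3 : (X x a b e f - X x g h a b) * (x b - x a) =
        (X x a b e f - X x a b c d) * (x b - x a) +
          (X x a b c d - X x g h a b) * (x b - x a) := by ring
      rw [e3]
      exact add_pos k1 hpos
    · have o1 : Alt y a b e f := ho (.alt 1 3 4 5) (by simp)
      have o2 : ¬ Alt y g h e f := ho (.nalt 7 8 4 5) (by simp)
      have o3 : ¬ Alt y e f a g := ho (.nalt 4 5 1 7) (by simp)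
      have o4 : ¬ Alt y e f a h := ho (.nalt 4 5 1 8) (by simp)
      have o5 : g ≠ f := ho (.ne 7 5) (by simp)
      rw [hA] at o1 o2 o3 o4
      exact kA o1 o2 o3 o4 fun h => o5 h.1
    · have o1 : Alt y a b e f := ho (.alt 1 3 4 5) (by simp)
      have o2 : ¬ Alt y g h e f := ho (.nalt 7 8 4 5) (by simp)
      have o3 : ¬ Alt y e f a g := ho (.nalt 4 5 1 7) (by simp)
      have o4 : ¬ Alt y e f a h := ho (.nalt 4 5 1 8) (by simp)
      have o5 : h ≠ e := ho (.ne 8 4) (by simp)
      rw [hA] at o1 o2 o3 o4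
      exact kA o1 o2 o3 o4 fun h => o5 h.2
    · have o1 : Alt y g h e f := ho (.alt 7 8 4 5) (by simp)
      have o2 : Alt y a b e f := ho (.alt 1 3 4 5) (by simp)
      have o3 : ¬ Alt y e f g b := ho (.nalt 4 5 7 3) (by simp)
      have e1 : G.Adj g f := he (7, 5) (by simp)
      have e2 : G.Adj h e := he (8, 4) (by simp)
      rw [hA] at o1 o2 o3
      have hTP : X x a b e f ≠ X x g h a b := by
        have := X_ne_of_generic hx hg (alt_comm hx halt) o2 o1
        rw [X_comm_stepC x a b g h] at this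
        exact this.symm
      have hba : x b - x a ≠ 0 := sub_ne_zero.2 fun h => hab.ne (hx h).symm
      have k0 : 0 < (X x b a e f - X x g h b a) * (x a - x b) := by
        have e3 : X x b a e f = X x a b e f := by
          rw [X_comm_stepC x b a e f, X_swap2_W, X_comm_stepC x e f a b]
        rw [e3, X_swap2_W x g h b a]
        have e4 : (X x a b e f - X x g h a b) * (x a - x b) =
          -((X x a b e f - X x g h a b) * (x b - x a)) := by ring
        rw [e4]
        exact neg_pos.2 (lt_of_le_of_ne (not_lt.1 hz) (mul_ne_zero (sub_ne_zero.2 hTP) hba))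
      have k1 := tri_cross hx (Or.symm halt : Alt x g h b a) (alt_swap1_W hx o2) o1 k0 o3
      rw [X_swap2_W x g h b a] at k1
      have k2 : 0 < (X x g h e f - s) * (x h - x g) := by
        have e3 : (X x g h e f - s) * (x h - x g) =
          (X x g h e f - X x g h a b) * (x h - x g) + (X x g h a b - s) * (x h - x g) := by ring
        rw [e3]
        exact add_pos k1 hs
      rcases (hJ.2 e f hef o1 e1 e2.symm k2).1 with h | h
      · exact hcon.1 h
      · exact hcon.2 h
  have rZ0t : 0 < (X x c d e f - X x g h c d) * (x d - x c) →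
      ∀ y : V → ℝ, (∀ p q r s, Alt y p q r s ↔ Alt x p q r s) →
      ∀ ρ ∈ Cert2.rulesZ0t, Cert2.RuleHolds G H y lab ρ := by
    intro hz y hA ρ hρ
    simp only [Cert2.rulesZ0t, List.mem_cons, List.not_mem_nil, or_false] at hρ
    rcases hρ with rfl | rfl <;> intro ho he
    · have o1 : Alt y g h c d := ho (.alt 7 8 0 2) (by simp)
      have o2 : ¬ Alt y c d g a := ho (.nalt 0 2 7 1) (by simp)
      have e1 : G.Adj g d := he (7, 2) (by simp)
      have e2 : G.Adj c h := he (0, 8) (by simp)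
      rw [hA] at o1 o2
      have k1 := tri_cross hx halt h1 o1 hpos o2
      have k2 : 0 < (X x g h c d - s) * (x h - x g) := by
        have e3 : (X x g h c d - s) * (x h - x g) =
          (X x g h c d - X x g h a b) * (x h - x g) + (X x g h a b - s) * (x h - x g) := by ring
        rw [e3]
        exact add_pos k1 hs
      rcases (hJ.2 c d hcd o1 e1 e2 k2).2 e f hef h2 hcf hed hz with h | h
      · exact hcon.1 h
      · exact hcon.2 h
    · have o1 : Alt y g h e f := ho (.alt 7 8 4 5) (by simp)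
      have o2 : ¬ Alt y a b e f := ho (.nalt 1 3 4 5) (by simp)
      have o3 : ¬ Alt y e f g a := ho (.nalt 4 5 7 1) (by simp)
      have o4 : ¬ Alt y e f g b := ho (.nalt 4 5 7 3) (by simp)
      have o5 : Alt y g h c d := ho (.alt 7 8 0 2) (by simp)
      have o6 : ¬ Alt y g h e d := ho (.nalt 7 8 4 2) (by simp)
      have e1 : G.Adj g e := he (7, 4) (by simp)
      have e2 : G.Adj h f := he (8, 5) (by simp)
      rw [hA] at o1 o2 o3 o4 o5 o6
      refine kR o1 o2 o3 o4 e1 e2 ?_
      have a1 : Alt x e f d c := Or.symm (alt_comm hx h2)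
      have a2 : Alt x d c g h := alt_swap1_W hx (alt_comm hx o5)
      have k0 : 0 < (X x d c g h - X x e f d c) * (x c - x d) := by
        have e3 : X x d c g h = X x g h c d := by
          rw [X_comm_stepC x d c g h, X_swap2_W]
        have e4 : X x e f d c = X x c d e f := by
          rw [X_swap2_W, X_comm_stepC]
        rw [e3, e4]
        have e5 : (X x g h c d - X x c d e f) * (x c - x d) =
          (X x c d e f - X x g h c d) * (x d - x c) := by ring
        rw [e5]
        exact hz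
      have k1 := tri_cross hx a1 a2 (alt_comm hx o1) k0 o6
      have e4 : X x e f d c = X x c d e f := by
        rw [X_swap2_W, X_comm_stepC]
      rw [e4] at k1
      exact k1
  have rZ0f : ¬ 0 < (X x c d e f - X x g h c d) * (x d - x c) →
      ∀ y : V → ℝ, (∀ p q r s, Alt y p q r s ↔ Alt x p q r s) →
      ∀ ρ ∈ Cert2.rulesZ0f, Cert2.RuleHolds G H y lab ρ := by
    intro hz y hA ρ hρ
    simp only [Cert2.rulesZ0f, List.mem_cons, List.not_mem_nil, or_false] at hρ
    subst hρ
    intro ho he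
    have o1 : Alt y g h c d := ho (.alt 7 8 0 2) (by simp)
    have o2 : ¬ Alt y g h e f := ho (.nalt 7 8 4 5) (by simp)
    have o3 : ¬ Alt y a b e f := ho (.nalt 1 3 4 5) (by simp)
    have o4 : ¬ Alt y e f c g := ho (.nalt 4 5 0 7) (by simp)
    have o5 : ¬ Alt y e f c h := ho (.nalt 4 5 0 8) (by simp)
    rw [hA] at o1 o2 o3 o4 o5
    refine hz (tri_apart' hx o1 h2 o2 ?_ ?_ o4 o5)
    · rintro ⟨rfl, rfl⟩
      exact o3 (alt_comm hx halt)
    · rintro ⟨rfl, rfl⟩
      exact o3 (alt_comm hx (alt_swap1_W hx halt))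
  have go : ∀ (r1 r0 : List Cert2.Rule) (t : Cert2.Tr),
      Cert2.chk (Cert2.rulesCom ++ (r1 ++ r0)) t Cert2.rk0 none none Cert2.T0 Cert2.U0 = true →
      (∀ y : V → ℝ, (∀ p q r s, Alt y p q r s ↔ Alt x p q r s) →
        ∀ ρ ∈ r1, Cert2.RuleHolds G H y lab ρ) →
      (∀ y : V → ℝ, (∀ p q r s, Alt y p q r s ↔ Alt x p q r s) →
        ∀ ρ ∈ r0, Cert2.RuleHolds G H y lab ρ) → False := by
    intro r1 r0 t hc k1 k0
    refine run2 hx hH hlc hab hcd tab tcd had hcb h1 lab rfl rfl rfl rfl _ t hc ?_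
    intro y hA ρ hρ
    rcases List.mem_append.1 hρ with hρ | hρ
    · exact rCom y hA ρ hρ
    · rcases List.mem_append.1 hρ with hρ | hρ
      · exact k1 y hA ρ hρ
      · exact k0 y hA ρ hρ
  by_cases z1 : 0 < (X x a b e f - X x g h a b) * (x b - x a) <;>
    by_cases z0 : 0 < (X x c d e f - X x g h c d) * (x d - x c)
  · exact go _ _ _ Cert2.chk11 (rZ1t z1) (rZ0t z0)
  · exact go _ _ _ Cert2.chk01 (rZ1t z1) (rZ0f z0)
  · exact go _ _ _ Cert2.chk10 (rZ1f z1) (rZ0t z0)
  · exact go _ _ _ Cert2.chk00 (rZ1f z1) (rZ0f z0)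

end Pool.Agent.Confl
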