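import Pool.Agent.Confl.T.Step
import Pool.Agent.Confl.T.ThinPath

/-!
# The step for edges that lie in no `K₄`, for tame graphs
-/

set_option autoImplicit false

namespace Pool.Agent.Confl

variable {V : Type}

theorem thinRel2 {G : SimpleGraph V} {x : V → ℝ} (hx : Function.Injective x) (hT : Tight G)
    (hC : PathFree G) (hlc : LC G x) : ThinRel2 G x (ThinE G) where
  sym := fun _ _ h => ⟨h.1.symm, fun h' => h.2 h'.symm⟩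
  cross := thin_cross' hx hT hlc
  k4 := thin_k4
  p1 := fun p q a b c d t h => thin_p1 hT hC p q a b c d t h.2.2.2.2.1 h.2.2.2.2.2.1
    h.2.2.2.2.2.2.1 h.2.2.2.2.2.2.2.1 h.2.2.2.2.2.2.2.2.1 h.2.2.2.2.2.2.2.2.2.1
    h.2.2.2.2.2.2.2.2.2.2.1 h.2.2.2.2.2.2.2.2.2.2.2.1 h.2.2.2.2.2.2.2.2.2.2.2.2.1
    h.2.2.2.2.2.2.2.2.2.2.2.2.2.1 h.2.2.2.2.2.2.2.2.2.2.2.2.2.2 h.1 h.2.1 h.2.2.1 h.2.2.2.1
  p2 := fun p q a b c d t h => thin_p2 hT hC p q a b c d t h.2.2.2.2.1 h.2.2.2.2.2.1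
    h.2.2.2.2.2.2.1 h.2.2.2.2.2.2.2.1 h.2.2.2.2.2.2.2.2.1 h.2.2.2.2.2.2.2.2.2.1
    h.2.2.2.2.2.2.2.2.2.2.1 h.2.2.2.2.2.2.2.2.2.2.2.1 h.2.2.2.2.2.2.2.2.2.2.2.2.1
    h.2.2.2.2.2.2.2.2.2.2.2.2.2.1 h.2.2.2.2.2.2.2.2.2.2.2.2.2.2 h.1 h.2.1 h.2.2.1 h.2.2.2.1
  p3 := fun p q a b c d t h => thin_p3 hT hC p q a b c d t h.2.2.2.2.1 h.2.2.2.2.2.1
    h.2.2.2.2.2.2.1 h.2.2.2.2.2.2.2.1 h.2.2.2.2.2.2.2.2.1 h.2.2.2.2.2.2.2.2.2.1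
    h.2.2.2.2.2.2.2.2.2.2.1 h.2.2.2.2.2.2.2.2.2.2.2.1 h.2.2.2.2.2.2.2.2.2.2.2.2.1
    h.2.2.2.2.2.2.2.2.2.2.2.2.2.1 h.2.2.2.2.2.2.2.2.2.2.2.2.2.2 h.1 h.2.1 h.2.2.1 h.2.2.2.1
  p4 := fun p q a b c d t h => thin_p4 hT hC p q a b c d t h.2.2.2.2.1 h.2.2.2.2.2.1
    h.2.2.2.2.2.2.1 h.2.2.2.2.2.2.2.1 h.2.2.2.2.2.2.2.2.1 h.2.2.2.2.2.2.2.2.2.1
    h.2.2.2.2.2.2.2.2.2.2.1 h.2.2.2.2.2.2.2.2.2.2.2.1 h.2.2.2.2.2.2.2.2.2.2.2.2.1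
    h.2.2.2.2.2.2.2.2.2.2.2.2.2.1 h.2.2.2.2.2.2.2.2.2.2.2.2.2.2 h.1 h.2.1 h.2.2.1 h.2.2.2.1

theorem J_baseT {G : SimpleGraph V} {x : V → ℝ} (hx : Function.Injective x) (hT : Tight G)
    (hC : PathFree G) (hlc : LC G x) {u b : V} (hub : G.Adj u b) (hth : ¬ Thick G u b) (s : ℝ) :
    J G x u u b s :=
  J_baseP hx (thinRel2 hx hT hC hlc) hlc ⟨hub, hth⟩ hub s

theorem J_stepT {G : SimpleGraph V} {x : V → ℝ} (hx : Function.Injective x) (hg : Generic x)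
    (hT : Tight G) (hC : PathFree G) (hlc : LC G x) {u g h a b : V} {s : ℝ} (hgh : G.Adj g h)
    (hth : ¬ Thick G g h) (hJ : J G x u g h s)
    (hab : G.Adj a b) (halt : Alt x g h a b) (hgb : G.Adj g b) (hah : G.Adj a h)
    (hs : 0 < (X x g h a b - s) * (x h - x g)) : J G x u a b (X x g h a b) :=
  J_stepP hx hg (thinRel2 hx hT hC hlc) hlc ⟨hgh, hth⟩ hgh hJ hab halt hgb hah hs

end Pool.Agent.Confl
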