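import Pool.Agent.Confl.T.Rules

/-!
# A certificate
-/

set_option autoImplicit false

namespace Pool.Agent.Confl.Cert2

/-- Certificate. -/
def treeBase : Tr :=
    (.cmp 2 (.cmp 1 (.cmp 0 .mn (.cmp 2 (.cmp 1 (.cmp 0 .mn (.rf 0) (.gap (.rf 0))) (.rf 0)
    (.gap (.rf 0))) (.rf 0) (.cmp 3 (.gap (.rf 0)) (.rf 0) (.gap (.rf 0)))) (.gap (.ru 7 (.th 4
    2 1 3 (.cmp 1 (.cmp 4 (.cmp 0 .mn (.rf 0) (.gap (.rf 0))) (.rf 0) (.gap (.rf 0))) (.rf 0)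
    (.cmp 3 (.cmp 2 (.gap (.rf 0)) (.rf 0) (.gap (.ru 5 (.ru 6 (.lc 0 5 1 3 (.th 0 1 4 2 (.lc 0
    1 4 5 (.rf 3) (.lc 4 2 1 3 (.k4 0 1 2 3) (.p2 0 4 2 1 3 5)))) (.rf 3)))))) (.rf 1) (.gap
    (.rf 1)))))))) (.cmp 2 (.cmp 1 (.cmp 0 .mn (.rf 0) (.gap (.rf 0))) (.rf 0) (.gap (.rf 0)))
    (.rf 0) (.cmp 3 (.gap (.ru 5 (.rf 3))) (.rf 3) (.gap (.rf 2)))) (.gap (.ru 7 (.cmp 4 (.cmp 1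
    (.cmp 0 .mn (.rf 0) (.gap (.rf 0))) (.rf 0) (.gap (.rf 0))) (.rf 0) (.cmp 3 (.cmp 2 (.gap
    (.rf 0)) (.rf 0) (.gap (.ru 5 (.ru 6 (.lc 0 5 1 3 (.lc 1 2 4 5 (.p4 1 5 3 0 2 4) (.rf 3))
    (.rf 3)))))) (.rf 3) (.gap (.ru 5 (.ru 6 (.ru 8 (.th 1 2 4 5 (.lc 1 2 4 5 (.lc 0 3 4 5 (.k4
    0 2 4 5) (.lc 0 3 2 5 (.p1 2 3 0 5 4 1) (.k4 1 2 4 3))) (.rf 3)))))))))))) (.ru 7 (.eq 2 2))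
    (.cmp 3 (.gap (.ru 7 (.cmp 2 (.cmp 1 (.cmp 0 .mn (.rf 0) (.gap (.ru 5 (.ru 6 (.lc 5 4 1 3
    (.rf 3) (.lc 0 2 5 3 (.lc 0 2 1 4 (.k4 0 2 1 3) (.p4 4 3 5 0 2 1)) (.lc 0 2 1 4 (.p4 5 1 3 0
    2 4) (.k4 0 2 5 4)))))))) (.rf 4) (.gap (.ru 5 (.ru 6 (.th 0 5 1 3 (.lc 0 5 1 2 (.lc 0 5 1 3
    (.lc 1 2 5 4 (.rf 3) (.p2 5 1 3 0 2 4)) (.rf 3)) (.rf 3))))))) (.rf 0) (.cmp 3 (.cmp 4 (.gap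
    (.rf 0)) (.rf 0) (.gap (.rf 0))) (.rf 0) (.gap (.rf 0)))))) (.ru 7 (.cmp 2 (.cmp 1 (.cmp 0
    .mn (.rf 0) (.gap (.rf 1))) (.rf 4) (.gap (.ru 6 (.lc 0 5 1 2 (.k4 0 2 1 3) (.rf 3))))) (.rf
    0) (.cmp 3 (.gap (.rf 0)) (.rf 0) (.gap (.rf 0))))) (.gap (.ru 7 (.cmp 2 (.cmp 1 (.cmp 0 .mn
    (.rf 0) (.gap (.rf 1))) (.rf 2) (.gap (.ru 5 (.ru 6 (.th 0 5 1 3 (.lc 0 5 1 2 (.lc 0 5 1 3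
    (.lc 0 3 5 4 (.p4 2 3 1 0 5 4) (.k4 0 5 2 4)) (.rf 3)) (.rf 3))))))) (.rf 0) (.cmp 4 (.cmp 3
    (.gap (.rf 0)) (.rf 0) (.gap (.rf 0))) (.rf 0) (.gap (.rf 0))))))))

theorem chkBase : chk rulesBase treeBase rk0 none none T0 U0 = true := by
  decide +kernel

end Pool.Agent.Confl.Cert2
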